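import Pool.Agent.Q163.LP.Crit

/-!
# Bernstein type multipliers

If `μ` is a limit of positive combinations of the sequences `k ↦ 1 - λ^k`, `0 ≤ λ ≤ 1`, then
`(A + μ k)/(k!)²` is a multiplier sequence for every `A ≥ 0`.
-/

open Polynomial Filter Topology Set
open Pool.Agent.Helper771.MultSeq

namespace Pool.Agent.Q163.LP

/-- Weak form of being a positive combination of the sequences `1 - λ^k`. -/
def BernPos (μ : ℕ → ℝ) : Prop := ∀ (n : ℕ) (a : ℕ → ℝ),
  (∀ lam ∈ Icc (0 : ℝ) 1, 0 ≤ ∑ k ∈ Finset.range (n + 1), a k * (1 - lam ^ k)) →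
    0 ≤ ∑ k ∈ Finset.range (n + 1), a k * μ k

lemma BernPos.nonneg {μ : ℕ → ℝ} (h : BernPos μ) (k : ℕ) : 0 ≤ μ k := by
  have := h k (fun i => if i = k then 1 else 0) (by
    intro lam hlam
    simp only [ite_mul, one_mul, zero_mul]
    rw [Finset.sum_ite_eq' (Finset.range (k + 1)) k, if_pos (Finset.mem_range.2 (by omega))]
    have := pow_le_one₀ (n := k) hlam.1 hlam.2
    linarith)
  simp only [ite_mul, one_mul, zero_mul] at this
  rw [Finset.sum_ite_eq' (Finset.range (k + 1)) k, if_pos (Finset.mem_range.2 (by omega))] at this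
  exact this

/-- A polynomial whose values alternate at `n + 1` points is real-rooted. -/
lemma orz_of_alt {p : ℝ[X]} {n : ℕ} (hdeg : p.natDegree ≤ n) (z : ℕ → ℝ)
    (hz : ∀ i < n, z i < z (i + 1)) (hs : ∀ i ≤ n, 0 < (-1) ^ i * p.eval (z i)) :
    OnlyRealZeros p := by
  classical
  have hp0 : p ≠ 0 := by
    intro h
    have := hs 0 (Nat.zero_le _)
    rw [h, eval_zero, mul_zero] at this
    exact lt_irrefl _ this
  have hroot : ∀ i, i < n → ∃ c, z i < c ∧ c < z (i + 1) ∧ p.eval c = 0 := by
    intro i hi
    have h1 := hs i hi.le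
    have h2 := hs (i + 1) hi
    have hcont : ContinuousOn (fun c => (-1 : ℝ) ^ i * p.eval c) (Icc (z i) (z (i + 1))) :=
      (continuous_const.mul p.continuous).continuousOn
    have h3 : (0 : ℝ) ∈ Ioo ((fun c => (-1 : ℝ) ^ i * p.eval c) (z (i + 1)))
        ((fun c => (-1 : ℝ) ^ i * p.eval c) (z i)) := by
      refine ⟨?_, h1⟩
      simp only
      rw [pow_succ] at h2
      linarith
    obtain ⟨c, hc, hc0⟩ := intermediate_value_Ioo' (hz i hi).le hcont h3
    refine ⟨c, hc.1, hc.2, ?_⟩
    have hp : (-1 : ℝ) ^ i ≠ 0 := by positivity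
    exact (mul_eq_zero.1 hc0).resolve_left hp
  choose! c hc1 hc2 hc3 using hroot
  have hcmono : ∀ i j, i < j → j < n → c i < c j := by
    intro i j hij
    induction j with
    | zero => omega
    | succ j ih =>
      intro hj
      have h1 : c j < c (j + 1) := (hc2 j (by omega)).trans (hc1 (j + 1) hj)
      rcases Nat.lt_or_ge i j with h | h
      · exact (ih h (by omega)).trans h1
      · have : i = j := by omega
        rw [this]; exact h1
  set S : Finset ℝ := (Finset.range n).image c with hS
  have hScard : S.card = n := by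
    rw [hS, Finset.card_image_of_injOn, Finset.card_range]
    intro i hi j hj hij
    simp only [Finset.coe_range, mem_Iio] at hi hj
    rcases lt_trichotomy i j with h | h | h
    · exact absurd hij (hcmono i j h hj).ne
    · exact h
    · exact absurd hij.symm (hcmono j i h hi).ne
  have hSsub : S ⊆ p.roots.toFinset := by
    intro r hr
    rw [hS, Finset.mem_image] at hr
    obtain ⟨i, hi, rfl⟩ := hr
    rw [Multiset.mem_toFinset, mem_roots hp0]
    exact hc3 i (Finset.mem_range.1 hi)
  have hcard : p.roots.card = p.natDegree := by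
    apply le_antisymm (card_roots' p)
    calc p.natDegree ≤ n := hdeg
      _ = S.card := hScard.symm
      _ ≤ p.roots.toFinset.card := Finset.card_le_card hSsub
      _ ≤ p.roots.card := Multiset.toFinset_card_le _
  right
  intro w hw
  have hfac := C_leadingCoeff_mul_prod_multiset_X_sub_C hcard
  rw [← hfac, map_mul, aeval_C, mul_eq_zero] at hw
  rcases hw with h | h
  · exfalso
    have : p.leadingCoeff ≠ 0 := leadingCoeff_ne_zero.2 hp0
    apply this
    simpa using h
  · have key : ∀ s : Multiset ℝ, aeval w (s.map fun a => (X - C a : ℝ[X])).prod = 0 →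
        w.im = 0 := by
      intro s
      induction s using Multiset.induction_on with
      | empty => intro h; simp at h
      | cons a s ih =>
        intro h
        rw [Multiset.map_cons, Multiset.prod_cons, map_mul, map_sub, aeval_X, aeval_C,
          mul_eq_zero] at h
        rcases h with h | h
        · have := sub_eq_zero.1 h
          rw [this]
          simp
        · exact ih h
    exact key _ h

/-- the perturbed polynomial -/
noncomputable def pp (n : ℕ) (δ : ℕ → ℝ) : ℝ[X] :=
  ∑ k ∈ Finset.range (n + 1), monomial k (ac n k * δ k)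

lemma coeff_pp (n : ℕ) (δ : ℕ → ℝ) (k : ℕ) : (pp n δ).coeff k = ac n k * δ k := by
  unfold pp
  rw [finsetSum_coeff]
  simp only [coeff_monomial]
  rw [Finset.sum_ite_eq' (Finset.range (n + 1)) k]
  split_ifs with h
  · rfl
  · unfold ac
    rw [Nat.choose_eq_zero_of_lt (by simpa using h)]
    simp

lemma pp_eval (n : ℕ) (δ : ℕ → ℝ) (x : ℝ) :
    (pp n δ).eval x = ∑ k ∈ Finset.range (n + 1), ac n k * δ k * x ^ k := by
  unfold pp
  rw [eval_finsetSum]
  simp only [eval_monomial]

lemma pp_natDegree_le (n : ℕ) (δ : ℕ → ℝ) : (pp n δ).natDegree ≤ n := by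
  rw [natDegree_le_iff_coeff_eq_zero]
  intro k hk
  rw [coeff_pp]
  unfold ac
  rw [Nat.choose_eq_zero_of_lt hk]
  simp

theorem pp_orz {n : ℕ} (hn : 300 ≤ n) {μ : ℕ → ℝ} (hμ : BernPos μ) {A : ℝ} (hA : 0 < A) :
    OnlyRealZeros (pp n (fun k => A + μ k)) := by
  have hn' : 0 < n := by omega
  obtain ⟨c, hcmono, hc4, hcs, hcmax⟩ := exists_crit hn
  -- a far point
  have hlead : 0 < (-1) ^ n * (pp n (fun k => A + μ k)).coeff n := by
    rw [coeff_pp, ← mul_assoc]
    apply mul_pos (ac_pos hn' le_rfl)
    have := hμ.nonneg n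
    linarith
  have hnd : (pp n (fun k => A + μ k)).natDegree = n := by
    apply le_antisymm (pp_natDegree_le _ _)
    apply le_natDegree_of_ne_zero
    intro h
    rw [h, mul_zero] at hlead
    exact lt_irrefl _ hlead
  obtain ⟨R, hR1, hR2⟩ : ∃ R, c (n - 2) < R ∧ 0 < (-1) ^ n * (pp n (fun k => A + μ k)).eval R := by
    set q : ℝ[X] := C ((-1) ^ n) * pp n (fun k => A + μ k) with hq
    have hq1 : q.leadingCoeff = (-1) ^ n * (pp n (fun k => A + μ k)).coeff n := by
      rw [hq, leadingCoeff_mul, leadingCoeff_C, leadingCoeff, hnd]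
    have hqd : 0 < q.degree := by
      rw [hq, degree_C_mul (by positivity : ((-1 : ℝ) ^ n) ≠ 0)]
      rw [← natDegree_pos_iff_degree_pos, hnd]
      exact hn'
    have ht := q.tendsto_atTop_of_leadingCoeff_nonneg hqd (by rw [hq1]; exact hlead.le)
    obtain ⟨R, hR⟩ := ((ht.eventually_gt_atTop 0).and (eventually_gt_atTop (c (n - 2)))).exists
    refine ⟨R, hR.2, ?_⟩
    have := hR.1
    rw [hq, eval_mul, eval_C] at this
    exact this
  set z : ℕ → ℝ := fun i => if i = 0 then 0 else if i < n then c (i - 1) else R with hz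
  have hz0 : z 0 = 0 := rfl
  have hzi : ∀ i, 0 < i → i < n → z i = c (i - 1) := by
    intro i h1 h2
    rw [hz]
    simp only
    rw [if_neg (by omega), if_pos h2]
  have hzn : z n = R := by
    rw [hz]
    simp only
    rw [if_neg (by omega), if_neg (by omega)]
  apply orz_of_alt (pp_natDegree_le _ _) z
  · intro i hi
    rcases Nat.eq_zero_or_pos i with h | h
    · subst h
      rw [hz0, hzi 1 (by omega) (by omega)]
      have := hc4 (1 - 1) (by omega)
      linarith
    · rw [hzi i h hi]
      rcases Nat.lt_or_ge (i + 1) n with h' | h'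
      · rw [hzi (i + 1) (by omega) h']
        have := hcmono (i - 1) (by omega)
        rwa [show i - 1 + 1 = i + 1 - 1 by omega] at this
      · have : i + 1 = n := by omega
        rw [this, hzn, show i - 1 = n - 2 by omega]
        exact hR1
  · intro i hi
    rcases Nat.eq_zero_or_pos i with h | h
    · subst h
      rw [hz0, pow_zero, one_mul, ← coeff_zero_eq_eval_zero, coeff_pp, ac_zero, one_mul]
      have := hμ.nonneg 0
      linarith
    · rcases Nat.lt_or_ge i n with h' | h'
      · rw [hzi i h h']
        obtain ⟨j, rfl⟩ : ∃ j, i = j + 1 := ⟨i - 1, by omega⟩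
        rw [show j + 1 - 1 = j by omega]
        set x := c j with hx
        set σ : ℝ := (-1) ^ (j + 1) with hσ
        have hs := hcs j h'
        have hxpos : 0 < x := by
          have := hc4 j h'
          linarith
        -- the positive combination
        have hb := hμ n (fun k => σ * (ac n k * x ^ k)) (by
          intro lam hlam
          have h1 : ∑ k ∈ Finset.range (n + 1), σ * (ac n k * x ^ k) * (1 - lam ^ k) =
              σ * (gp n).eval x - σ * (gp n).eval (lam * x) := by
            rw [gp_eval, gp_eval, Finset.mul_sum, Finset.mul_sum, ← Finset.sum_sub_distrib]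
            refine Finset.sum_congr rfl fun k _ => ?_
            rw [mul_pow]
            ring
          rw [h1]
          have h2 := hcmax j h' (lam * x) (mul_nonneg hlam.1 hxpos.le)
            (by nlinarith [hlam.2])
          have h3 : |(gp n).eval x| = σ * (gp n).eval x := by
            have hσ1 : |σ| = 1 := by rw [hσ, abs_pow, abs_neg, abs_one, one_pow]
            have : |σ * (gp n).eval x| = |(gp n).eval x| := by rw [abs_mul, hσ1, one_mul]
            rw [← this, abs_of_pos hs]
          have h4 : σ * (gp n).eval (lam * x) ≤ |(gp n).eval (lam * x)| := by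
            have hσ1 : |σ| = 1 := by rw [hσ, abs_pow, abs_neg, abs_one, one_pow]
            calc σ * (gp n).eval (lam * x) ≤ |σ * (gp n).eval (lam * x)| := le_abs_self _
              _ = |(gp n).eval (lam * x)| := by rw [abs_mul, hσ1, one_mul]
          rw [← hx] at h2
          linarith)
        have h5 : σ * (pp n (fun k => A + μ k)).eval x = A * (σ * (gp n).eval x) +
            ∑ k ∈ Finset.range (n + 1), σ * (ac n k * x ^ k) * μ k := by
          rw [pp_eval, gp_eval, Finset.mul_sum, Finset.mul_sum, Finset.mul_sum,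
            ← Finset.sum_add_distrib]
          refine Finset.sum_congr rfl fun k _ => ?_
          ring
        rw [h5]
        have h6 := mul_pos hA hs
        linarith
      · have : i = n := by omega
        rw [this, hzn]
        exact hR2

lemma jen_of_pp {n : ℕ} (hn : 0 < n) {δ : ℕ → ℝ} (h : OnlyRealZeros (pp n δ)) :
    OnlyRealZeros (jen (fun k => δ k / (k.factorial : ℝ) ^ 2) 0 n) := by
  have hn0 : (n : ℝ) ≠ 0 := by exact_mod_cast hn.ne'
  have he : jen (fun k => δ k / (k.factorial : ℝ) ^ 2) 0 n = (pp n δ).comp (C (-(n : ℝ)) * X) := by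
    ext k
    rw [coeff_jen, comp_C_mul_X_coeff, coeff_pp, zero_add]
    unfold ac
    have h1 : ((-1 : ℝ) ^ k) * (-1) ^ k = 1 := by rw [← mul_pow]; simp
    have hf : (k.factorial : ℝ) ≠ 0 := by exact_mod_cast k.factorial_ne_zero
    have hnk : (n : ℝ) ^ k ≠ 0 := pow_ne_zero _ hn0
    rw [neg_pow (n : ℝ) k]
    field_simp
    linear_combination (-(n.choose k : ℝ) * δ k) * h1
  rw [he]
  rcases h with h | h
  · left
    rw [h, zero_comp]
  · right
    intro z hz
    rw [aeval_comp] at hz
    have h2 := h _ hz
    rw [map_mul, aeval_C, aeval_X, Complex.coe_algebraMap, Complex.im_ofReal_mul] at h2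
    rcases mul_eq_zero.1 h2 with h3 | h3
    · exfalso
      exact hn0 (neg_eq_zero.1 h3)
    · exact h3

/-- Bernstein type multipliers. -/
theorem ms_bern {μ : ℕ → ℝ} (hμ : BernPos μ) {A : ℝ} (hA : 0 ≤ A) :
    IsMultiplierSequence (fun k => (A + μ k) / (k.factorial : ℝ) ^ 2) := by
  have key : ∀ A : ℝ, 0 < A →
      IsMultiplierSequence (fun k => (A + μ k) / (k.factorial : ℝ) ^ 2) := by
    intro A hA
    apply polya_schur_pos
    · intro k
      have := hμ.nonneg k
      positivity
    · apply jen_all (n0 := 300)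
      intro n hn
      exact jen_of_pp (by omega) (pp_orz hn hμ hA)
  refine ms_of_tendsto (γ := fun M k => (A + 1 / ((M : ℝ) + 1) + μ k) / (k.factorial : ℝ) ^ 2)
    (fun M => key _ (by positivity)) ?_
  intro k
  have h1 : Tendsto (fun M : ℕ => A + 1 / ((M : ℝ) + 1) + μ k) atTop (𝓝 (A + 0 + μ k)) :=
    (tendsto_const_nhds.add tendsto_one_div_add_atTop_nhds_zero_nat).add_const _
  rw [add_zero] at h1
  exact h1.div_const _

end Pool.Agent.Q163.LP
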