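import Pool.Agent.Q163.LP.Poly

/-!
# Critical points and critical values
-/

open Polynomial Filter Topology Set
open Pool.Agent.Helper771.MultSeq

namespace Pool.Agent.Q163.LP

lemma prod_sign (f : ℕ → ℝ) (m : ℕ) : ∀ n, m ≤ n → (∀ i < m, f i < 0) →
    (∀ i, m ≤ i → i < n → 0 < f i) → 0 < (-1) ^ m * ∏ i ∈ Finset.range n, f i := by
  intro n
  induction n with
  | zero =>
    intro hmn _ _
    have : m = 0 := by omega
    subst this
    simp
  | succ n ih =>
    intro hmn h1 h2
    rw [Finset.prod_range_succ]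
    rcases Nat.lt_or_ge n m with h | h
    · have hm : m = n + 1 := by omega
      -- all factors negative
      have key : ∀ k, k ≤ m → 0 < (-1) ^ k * ∏ i ∈ Finset.range k, f i := by
        intro k
        induction k with
        | zero => intro _; simp
        | succ k ihk =>
          intro hk
          have h3 := ihk (by omega)
          have h4 := h1 k (by omega)
          rw [Finset.prod_range_succ, pow_succ]
          have h5 := mul_pos h3 (neg_pos.2 h4)
          calc 0 < ((-1) ^ k * ∏ i ∈ Finset.range k, f i) * -f k := h5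
            _ = _ := by ring
      have := key m le_rfl
      rw [hm, Finset.prod_range_succ] at this
      rw [hm]
      exact this
    · have h3 := ih h h1 (fun i hi hin => h2 i hi (by omega))
      have h4 := h2 n h (by omega)
      rw [← mul_assoc]
      exact mul_pos h3 h4

/-- alternating sums of decreasing sequences -/
lemma alt_sum (d : ℕ → ℝ) (h0 : ∀ k, 0 ≤ d k) (ha : ∀ k, d (k + 1) ≤ d k) :
    ∀ N, 0 ≤ ∑ k ∈ Finset.range N, (-1) ^ k * d k := by
  have key : ∀ N (d : ℕ → ℝ), (∀ k, 0 ≤ d k) → (∀ k, d (k + 1) ≤ d k) →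
      0 ≤ ∑ k ∈ Finset.range N, (-1) ^ k * d k ∧ ∑ k ∈ Finset.range N, (-1) ^ k * d k ≤ d 0 := by
    intro N
    induction N with
    | zero => intro d h0 _; simp [h0 0]
    | succ N ih =>
      intro d h0 ha
      obtain ⟨h1, h2⟩ := ih (fun k => d (k + 1)) (fun k => h0 _) (fun k => ha _)
      rw [Finset.sum_range_succ']
      have e : ∑ k ∈ Finset.range N, (-1 : ℝ) ^ (k + 1) * d (k + 1) =
          -∑ k ∈ Finset.range N, (-1 : ℝ) ^ k * d (k + 1) := by
        rw [← Finset.sum_neg_distrib]
        refine Finset.sum_congr rfl fun k _ => ?_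
        ring
      rw [e]
      have h3 := ha 0
      simp only [zero_add] at h1 h2 h3 ⊢
      constructor
      · simp only [pow_zero, one_mul]; linarith
      · simp only [pow_zero, one_mul]; linarith
  exact fun N => (key N d h0 ha).1

lemma alt_sum2 (d : ℕ → ℝ) (h0 : ∀ k, 0 ≤ d k) (ha : ∀ k, d (k + 1) ≤ d k) (N : ℕ) :
    d 0 - d 1 ≤ ∑ k ∈ Finset.range (N + 2), (-1) ^ k * d k := by
  have h := alt_sum (fun k => d (k + 2)) (fun k => h0 _) (fun k => ha _) N
  rw [Finset.sum_range_succ', Finset.sum_range_succ']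
  have e : ∑ k ∈ Finset.range N, (-1 : ℝ) ^ (k + 1 + 1) * d (k + 1 + 1) =
      ∑ k ∈ Finset.range N, (-1 : ℝ) ^ k * d (k + 2) := by
    refine Finset.sum_congr rfl fun k _ => ?_
    ring
  rw [e]
  simp only [zero_add, pow_zero, one_mul, pow_one]
  linarith

/-- absolute values of the coefficients -/
noncomputable def bc (n k : ℕ) : ℝ := (n.choose k : ℝ) / n ^ k / (k.factorial : ℝ) ^ 2

lemma ac_eq (n k : ℕ) : ac n k = (-1) ^ k * bc n k := by
  unfold ac bc
  ring

lemma bc_nonneg (n k : ℕ) : 0 ≤ bc n k := by unfold bc; positivity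

lemma bc_succ {n : ℕ} (hn : 0 < n) (k : ℕ) :
    ((k : ℝ) + 1) ^ 3 * bc n (k + 1) ≤ bc n k := by
  have h1 := ac_succ hn k
  rw [ac_eq, ac_eq, pow_succ] at h1
  have h2 : ((-1 : ℝ) ^ k) * (-1) ^ k = 1 := by rw [← mul_pow]; simp
  have h3 : ((k : ℝ) + 1) ^ 3 * bc n (k + 1) = (1 - (k : ℝ) / n) * bc n k := by
    have := congrArg (fun t => -(-1 : ℝ) ^ k * t) h1
    linear_combination this + (-(((k : ℝ) + 1) ^ 3 * bc n (k + 1)) +
      (1 - (k : ℝ) / n) * bc n k) * h2
  rw [h3]
  have hn0 : (0 : ℝ) < n := by exact_mod_cast hn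
  have h4 : 0 ≤ (k : ℝ) / n * bc n k := by
    have := bc_nonneg n k
    positivity
  linarith

lemma bc_zero (n : ℕ) : bc n 0 = 1 := by simp [bc]

lemma bc_one {n : ℕ} (hn : 0 < n) : bc n 1 = 1 := by
  have : (n : ℝ) ≠ 0 := by exact_mod_cast hn.ne'
  simp [bc, this]

lemma bc_two {n : ℕ} (hn : 0 < n) : bc n 2 < 1 / 8 := by
  have h1 := ac_succ hn 1
  rw [ac_eq, ac_eq, bc_one hn] at h1
  have hn0 : (0 : ℝ) < n := by exact_mod_cast hn
  have h2 : (0 : ℝ) < 1 / n := by positivity
  norm_num at h1
  have h3 : (n : ℝ)⁻¹ = 1 / n := by rw [one_div]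
  rw [h3] at h1
  linarith

/-- `g' < 0` on `[0, 4]` -/
lemma gp_deriv_neg {n : ℕ} (hn : 2 ≤ n) {x : ℝ} (hx0 : 0 ≤ x) (hx4 : x ≤ 4) :
    (derivative (gp n)).eval x < 0 := by
  have hn' : 0 < n := by omega
  set d : ℕ → ℝ := fun k => ((k : ℝ) + 1) * bc n (k + 1) * x ^ k with hd
  have hd0 : ∀ k, 0 ≤ d k := by
    intro k
    have := bc_nonneg n (k + 1)
    rw [hd]
    positivity
  have hda : ∀ k, d (k + 1) ≤ d k := by
    intro k
    rw [hd]
    simp only
    have h1 := bc_succ hn' (k + 1)
    have h2 := bc_nonneg n (k + 1)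
    have h3 := bc_nonneg n (k + 1 + 1)
    push_cast at h1 ⊢
    have h5 : ((k : ℝ) + 1 + 1) * bc n (k + 1 + 1) * x ≤ ((k : ℝ) + 1) * bc n (k + 1) := by
      have hk : (0 : ℝ) ≤ k := by positivity
      have h6 : 4 * (((k : ℝ) + 1 + 1) * bc n (k + 1 + 1)) ≤ bc n (k + 1) := by
        refine le_trans ?_ h1
        have : 4 * ((k : ℝ) + 1 + 1) ≤ ((k : ℝ) + 1 + 1) ^ 3 := by nlinarith [sq_nonneg (k : ℝ)]
        nlinarith
      have h7 : ((k : ℝ) + 1 + 1) * bc n (k + 1 + 1) * x ≤
          ((k : ℝ) + 1 + 1) * bc n (k + 1 + 1) * 4 :=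
        mul_le_mul_of_nonneg_left hx4 (by positivity)
      nlinarith
    calc ((k : ℝ) + 1 + 1) * bc n (k + 1 + 1) * x ^ (k + 1) =
        (((k : ℝ) + 1 + 1) * bc n (k + 1 + 1) * x) * x ^ k := by ring
      _ ≤ (((k : ℝ) + 1) * bc n (k + 1)) * x ^ k := mul_le_mul_of_nonneg_right h5 (by positivity)
  have hsum : (derivative (gp n)).eval x = -∑ k ∈ Finset.range (n - 2 + 2), (-1) ^ k * d k := by
    have hdeg : (derivative (gp n)).natDegree < n - 2 + 2 := by
      have := natDegree_derivative_le (gp n)
      rw [gp_natDegree hn'] at this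
      omega
    rw [eval_eq_sum_range' hdeg, ← Finset.sum_neg_distrib]
    refine Finset.sum_congr rfl fun k _ => ?_
    rw [coeff_derivative, coeff_gp, ac_eq, hd]
    simp only
    ring
  rw [hsum, neg_lt_zero]
  refine lt_of_lt_of_le ?_ (alt_sum2 d hd0 hda (n - 2))
  rw [hd]
  simp only
  rw [zero_add, bc_one hn']
  have := bc_two hn'
  have h2 := bc_nonneg n 2
  norm_num
  nlinarith

/-- `g(4) < -1` -/
lemma gp_four {n : ℕ} (hn : 3 ≤ n) : (gp n).eval 4 < -1 := by
  have hn' : 0 < n := by omega
  rw [gp_eval]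
  set d : ℕ → ℝ := fun k => bc n (k + 1) * 4 ^ (k + 1) with hd
  have hd0 : ∀ k, 0 ≤ d k := by
    intro k
    have := bc_nonneg n (k + 1)
    rw [hd]
    positivity
  have hda : ∀ k, d (k + 1) ≤ d k := by
    intro k
    rw [hd]
    simp only
    have h1 := bc_succ hn' (k + 1)
    have h2 := bc_nonneg n (k + 1)
    have h3 := bc_nonneg n (k + 1 + 1)
    push_cast at h1
    have hk : (0 : ℝ) ≤ k := by positivity
    have h6 : 4 * bc n (k + 1 + 1) ≤ bc n (k + 1) := by
      refine le_trans ?_ h1
      have : 4 ≤ ((k : ℝ) + 1 + 1) ^ 3 := by nlinarith [sq_nonneg (k : ℝ)]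
      nlinarith
    calc bc n (k + 1 + 1) * 4 ^ (k + 1 + 1) = (4 * bc n (k + 1 + 1)) * 4 ^ (k + 1) := by ring
      _ ≤ bc n (k + 1) * 4 ^ (k + 1) := mul_le_mul_of_nonneg_right h6 (by positivity)
  rw [Finset.sum_range_succ']
  have e : ∑ k ∈ Finset.range n, ac n (k + 1) * (4 : ℝ) ^ (k + 1) =
      -∑ k ∈ Finset.range (n - 2 + 2), (-1) ^ k * d k := by
    rw [show n - 2 + 2 = n by omega, ← Finset.sum_neg_distrib]
    refine Finset.sum_congr rfl fun k _ => ?_
    rw [ac_eq, hd]
    simp only
    ring
  rw [e, ac_zero]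
  have h1 := alt_sum2 d hd0 hda (n - 2)
  have h2 := bc_two hn'
  have h3 : d 0 = 4 := by
    rw [hd]
    simp only
    rw [zero_add, bc_one hn']
    norm_num
  have h4 : d 1 < 2 := by
    rw [hd]
    simp only
    norm_num
    linarith
  rw [h3] at h1
  simp only [pow_zero, mul_one]
  linarith

/-- The critical points, with all the information that is needed. -/
theorem exists_crit {n : ℕ} (hn : 300 ≤ n) : ∃ c : ℕ → ℝ,
    (∀ j, j + 2 < n → c j < c (j + 1)) ∧ (∀ j, j + 1 < n → 4 < c j) ∧
    (∀ j, j + 1 < n → 0 < (-1) ^ (j + 1) * (gp n).eval (c j)) ∧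
    (∀ j, j + 1 < n → ∀ y, 0 ≤ y → y ≤ c j → |(gp n).eval y| ≤ |(gp n).eval (c j)|) := by
  classical
  have hn' : 0 < n := by omega
  obtain ⟨y, hymono, hyroot, hyprod⟩ := exists_zeros hn'
  have hcont : Continuous fun x => (gp n).eval x := (gp n).continuous
  have hdcont : Continuous fun x => (derivative (gp n)).eval x := (derivative (gp n)).continuous
  -- sign of `g`
  have hsign : ∀ m, 0 < m → m < n → ∀ x, y (m - 1) < x → x < y m → 0 < (-1) ^ m * (gp n).eval x := by
    intro m hm0 hm x hx1 hx2
    rw [hyprod]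
    apply prod_sign _ m n hm.le
    · intro i hi
      have h1 := (hyroot i (by omega)).2
      have h2 : y i < x := by
        rcases Nat.lt_or_ge i (m - 1) with h | h
        · exact (hymono i (m - 1) h (by omega)).trans hx1
        · have : i = m - 1 := by omega
          rw [this]; exact hx1
      rw [sub_neg, one_lt_div h1]
      exact h2
    · intro i hi hin
      have h1 := (hyroot i hin).2
      have h2 : x < y i := by
        rcases Nat.lt_or_ge m i with h | h
        · exact hx2.trans (hymono m i h hin)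
        · have : i = m := by omega
          rw [this]; exact hx2
      rw [sub_pos, div_lt_one h1]
      exact h2
  -- Rolle
  have hrolle : ∀ j, j + 1 < n → ∃ c, y j < c ∧ c < y (j + 1) ∧ (derivative (gp n)).eval c = 0 := by
    intro j hj
    obtain ⟨c, hc, hc0⟩ := exists_hasDerivAt_eq_zero (f := fun x => (gp n).eval x)
      (f' := fun x => (derivative (gp n)).eval x) (hymono j (j + 1) (by omega) hj)
      hcont.continuousOn (by
        rw [(hyroot j (by omega)).1, (hyroot (j + 1) hj).1])
      (fun x _ => (gp n).hasDerivAt x)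
    exact ⟨c, hc.1, hc.2, hc0⟩
  choose! c hc1 hc2 hc3 using hrolle
  have hcmono : ∀ j, j + 2 < n → c j < c (j + 1) := fun j hj =>
    (hc2 j (by omega)).trans (hc1 (j + 1) (by omega))
  have hcmono' : ∀ i j, i < j → j + 1 < n → c i < c j := by
    intro i j hij
    induction j with
    | zero => omega
    | succ j ih =>
      intro hj
      rcases Nat.lt_or_ge i j with h | h
      · exact (ih h (by omega)).trans (hcmono j (by omega))
      · have : i = j := by omega
        rw [this]; exact hcmono j (by omega)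
  have hcpos : ∀ j, j + 1 < n → 0 < c j := fun j hj =>
    (hyroot j (by omega)).2.trans (hc1 j hj)
  have hc4 : ∀ j, j + 1 < n → 4 < c j := by
    intro j hj
    by_contra hcon
    have := gp_deriv_neg (n := n) (by omega) (hcpos j hj).le (not_lt.1 hcon)
    rw [hc3 j hj] at this
    exact lt_irrefl _ this
  -- all critical points
  have hD0 : derivative (gp n) ≠ 0 := by
    intro h
    have := gp_deriv_neg (n := n) (by omega) le_rfl (by norm_num)
    rw [h, eval_zero] at this
    exact lt_irrefl _ this
  have hall : ∀ x, (derivative (gp n)).eval x = 0 → ∃ j, j + 1 < n ∧ x = c j := by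
    intro x hx
    set S : Finset ℝ := (Finset.range (n - 1)).image c with hS
    have hScard : S.card = n - 1 := by
      rw [hS, Finset.card_image_of_injOn, Finset.card_range]
      intro i hi j hj hij
      simp only [Finset.coe_range, mem_Iio] at hi hj
      rcases lt_trichotomy i j with h | h | h
      · have := hcmono' i j h (by omega)
        exact absurd hij this.ne
      · exact h
      · have := hcmono' j i h (by omega)
        exact absurd hij.symm this.ne
    have hSsub : S ⊆ (derivative (gp n)).roots.toFinset := by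
      intro r hr
      rw [hS, Finset.mem_image] at hr
      obtain ⟨i, hi, rfl⟩ := hr
      rw [Multiset.mem_toFinset, mem_roots hD0]
      exact hc3 i (by have := Finset.mem_range.1 hi; omega)
    have hcard : (derivative (gp n)).roots.toFinset.card ≤ n - 1 := by
      refine (Multiset.toFinset_card_le _).trans ((card_roots' _).trans ?_)
      refine (natDegree_derivative_le _).trans ?_
      rw [gp_natDegree hn']
    have heq : S = (derivative (gp n)).roots.toFinset :=
      Finset.eq_of_subset_of_card_le hSsub (by rw [hScard]; exact hcard)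
    have hxS : x ∈ S := by
      rw [heq, Multiset.mem_toFinset, mem_roots hD0]
      exact hx
    rw [hS, Finset.mem_image] at hxS
    obtain ⟨j, hj, hjx⟩ := hxS
    exact ⟨j, by have := Finset.mem_range.1 hj; omega, hjx.symm⟩
  -- constant sign of the derivative between consecutive critical points
  have hconst : ∀ a b : ℝ, a < b → (∀ x ∈ Ioo a b, (derivative (gp n)).eval x ≠ 0) →
      (∀ x ∈ Ioo a b, 0 < (derivative (gp n)).eval x) ∨
      (∀ x ∈ Ioo a b, (derivative (gp n)).eval x < 0) := by
    intro a b hab hne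
    by_contra hcon
    push Not at hcon
    obtain ⟨⟨x1, hx1, h1⟩, ⟨x2, hx2, h2⟩⟩ := hcon
    have hpre : IsPreconnected (Ioo a b) := isPreconnected_Ioo
    obtain ⟨x, hx, hx0⟩ := hpre.intermediate_value₂ hx1 hx2 hdcont.continuousOn
      (continuousOn_const (c := (0 : ℝ))) h1 h2
    exact hne x hx hx0
  have hmonoab : ∀ a b : ℝ, a < b → (∀ x ∈ Ioo a b, (derivative (gp n)).eval x ≠ 0) →
      MonotoneOn (fun x => (gp n).eval x) (Icc a b) ∨
      AntitoneOn (fun x => (gp n).eval x) (Icc a b) := by
    intro a b hab hne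
    rcases hconst a b hab hne with h | h
    · left
      apply monotoneOn_of_deriv_nonneg (convex_Icc _ _) hcont.continuousOn
        (gp n).differentiable.differentiableOn
      intro x hx
      rw [interior_Icc] at hx
      rw [Polynomial.deriv]
      exact (h x hx).le
    · right
      apply antitoneOn_of_deriv_nonpos (convex_Icc _ _) hcont.continuousOn
        (gp n).differentiable.differentiableOn
      intro x hx
      rw [interior_Icc] at hx
      rw [Polynomial.deriv]
      exact (h x hx).le
  have hbetween : ∀ a b : ℝ, a < b → (∀ x ∈ Ioo a b, (derivative (gp n)).eval x ≠ 0) →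
      ∀ x ∈ Icc a b, |(gp n).eval x| ≤ max |(gp n).eval a| |(gp n).eval b| := by
    intro a b hab hne x hx
    have ha : a ∈ Icc a b := left_mem_Icc.2 hab.le
    have hb : b ∈ Icc a b := right_mem_Icc.2 hab.le
    rcases hmonoab a b hab hne with h | h
    · exact abs_le_max_abs_abs (h ha hx hx.1) (h hx hb hx.2)
    · rw [max_comm]
      exact abs_le_max_abs_abs (h hx hb hx.2) (h ha hx hx.1)
  have hnec : ∀ j, j + 2 < n → ∀ x ∈ Ioo (c j) (c (j + 1)), (derivative (gp n)).eval x ≠ 0 := by
    intro j hj x hx h0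
    obtain ⟨i, hi, rfl⟩ := hall x h0
    rcases Nat.lt_or_ge i (j + 1) with h | h
    · rcases Nat.lt_or_ge i j with h' | h'
      · have := hcmono' i j h' (by omega)
        linarith [hx.1]
      · have : i = j := by omega
        rw [this] at hx
        exact lt_irrefl _ hx.1
    · rcases Nat.lt_or_ge (j + 1) i with h' | h'
      · have := hcmono' (j + 1) i h' hi
        linarith [hx.2]
      · have : i = j + 1 := by omega
        rw [this] at hx
        exact lt_irrefl _ hx.2
  -- the critical values increase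
  have hamp : ∀ j, j + 2 < n → |(gp n).eval (c j)| ≤ |(gp n).eval (c (j + 1))| := by
    intro j hj
    have hcj := hcpos j (by omega)
    have hcj1 := hcpos (j + 1) (by omega)
    have hlt := hcmono j hj
    have e1 := Real.exp_log hcj
    have e2 := Real.exp_log hcj1
    have hth : ∀ x, (th (gp n)).eval x = x * (derivative (gp n)).eval x := by
      intro x
      unfold th
      rw [eval_mul, eval_X]
    have h := (gp_sys hn').amp (n := (n : ℝ)) (by exact_mod_cast hn) rfl
      (α := Real.log (c j)) (β := Real.log (c (j + 1))) (Real.log_le_log hcj hlt.le)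
      (by rw [e1]; exact (hc4 j (by omega)).le)
      (by rw [e1, hth, hc3 j (by omega), mul_zero]) (by rw [e2, hth, hc3 (j + 1) (by omega), mul_zero])
      (by
        have hmem : ∀ t ∈ Ioo (Real.log (c j)) (Real.log (c (j + 1))),
            Real.exp t ∈ Ioo (c j) (c (j + 1)) := by
          intro t ht
          constructor
          · rw [← e1]; exact Real.exp_lt_exp.2 ht.1
          · rw [← e2]; exact Real.exp_lt_exp.2 ht.2
        rcases hconst _ _ hlt (hnec j hj) with h | h
        · left
          intro t ht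
          rw [hth]
          exact mul_pos (Real.exp_pos _) (h _ (hmem t ht))
        · right
          intro t ht
          rw [hth]
          exact mul_neg_of_pos_of_neg (Real.exp_pos _) (h _ (hmem t ht)))
    rw [e1, e2] at h
    exact sq_le_sq.1 h
  refine ⟨c, hcmono, hc4, fun j hj => ?_, ?_⟩
  · exact hsign (j + 1) (by omega) hj (c j) (hc1 j hj) (hc2 j hj)
  · intro j
    induction j with
    | zero =>
      intro hj x hx0 hxc
      have hne : ∀ x ∈ Ioo 0 (c 0), (derivative (gp n)).eval x ≠ 0 := by
        intro x hx h0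
        obtain ⟨i, hi, rfl⟩ := hall x h0
        rcases Nat.eq_zero_or_pos i with h | h
        · rw [h] at hx
          exact lt_irrefl _ hx.2
        · have := hcmono' 0 i h hi
          linarith [hx.2]
      have h1 := hbetween 0 (c 0) (hcpos 0 hj) hne x ⟨hx0, hxc⟩
      rw [gp_eval_zero, abs_one] at h1
      have h4 := gp_four (n := n) (by omega)
      have h5 : AntitoneOn (fun x => (gp n).eval x) (Icc 0 (c 0)) := by
        rcases hmonoab 0 (c 0) (hcpos 0 hj) hne with h | h
        · exfalso
          have h6 := h (a := 0) (b := 4) ⟨le_rfl, (hcpos 0 hj).le⟩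
            ⟨by norm_num, (hc4 0 hj).le⟩ (by norm_num)
          simp only at h6
          rw [gp_eval_zero] at h6
          linarith
        · exact h
      have h6 := h5 (a := 4) (b := c 0) ⟨by norm_num, (hc4 0 hj).le⟩
        ⟨(hcpos 0 hj).le, le_rfl⟩ (hc4 0 hj).le
      simp only at h6
      have h7 : 1 ≤ |(gp n).eval (c 0)| := by
        rw [le_abs]
        right
        linarith
      rw [max_eq_right h7] at h1
      exact h1
    | succ j ih =>
      intro hj x hx0 hxc
      rcases le_or_gt x (c j) with h | h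
      · exact (ih (by omega) x hx0 h).trans (hamp j hj)
      · have h1 := hbetween _ _ (hcmono j hj) (hnec j hj) x ⟨h.le, hxc⟩
        rw [max_eq_right (hamp j hj)] at h1
        exact h1

end Pool.Agent.Q163.LP
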