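import Pool.Agent.Q163.LP.Bern

/-!
# Two examples: `k^s` and `k! e^k / k^k - 1`
-/

open Filter Topology Set MeasureTheory Real

namespace Pool.Agent.Q163.LP

lemma one_sub_exp_nonneg {t : ℝ} (ht : 0 ≤ t) : 0 ≤ 1 - exp (-t) := by
  have : exp (-t) ≤ 1 := exp_le_one_iff.2 (by linarith)
  linarith

lemma one_sub_exp_le (t : ℝ) : 1 - exp (-t) ≤ t := by
  have := add_one_le_exp (-t)
  linarith

lemma ff_integrable {s : ℝ} (hs0 : 0 < s) (hs1 : s < 1) :
    IntegrableOn (fun t : ℝ => (1 - exp (-t)) * t ^ (-1 - s)) (Ioi 0) := by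
  rw [← Ioc_union_Ioi_eq_Ioi (zero_le_one' ℝ)]
  have hmeas : Measurable fun t : ℝ => (1 - exp (-t)) * t ^ (-1 - s) := by fun_prop
  apply IntegrableOn.union
  · have h1 : IntegrableOn (fun t : ℝ => t ^ (-s)) (Ioc 0 1) := by
      have := intervalIntegral.intervalIntegrable_rpow' (a := 0) (b := 1) (r := -s) (by linarith)
      rwa [intervalIntegrable_iff_integrableOn_Ioc_of_le zero_le_one] at this
    refine Integrable.mono' h1 hmeas.aestronglyMeasurable ?_
    rw [ae_restrict_iff' measurableSet_Ioc]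
    refine Eventually.of_forall fun t ht => ?_
    have ht0 : 0 < t := ht.1
    rw [norm_mul, norm_of_nonneg (one_sub_exp_nonneg ht0.le),
      norm_of_nonneg (rpow_nonneg ht0.le _)]
    calc (1 - exp (-t)) * t ^ (-1 - s) ≤ t * t ^ (-1 - s) :=
          mul_le_mul_of_nonneg_right (one_sub_exp_le t) (rpow_nonneg ht0.le _)
      _ = t ^ (-s) := by
          rw [← rpow_one_add' ht0.le (by linarith)]
          congr 1
          ring
  · have h1 : IntegrableOn (fun t : ℝ => t ^ (-1 - s)) (Ioi 1) :=
      integrableOn_Ioi_rpow_of_lt (by linarith) one_pos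
    refine Integrable.mono' h1 hmeas.aestronglyMeasurable ?_
    rw [ae_restrict_iff' measurableSet_Ioi]
    refine Eventually.of_forall fun t ht => ?_
    have ht0 : 0 < t := zero_lt_one.trans ht
    rw [norm_mul, norm_of_nonneg (one_sub_exp_nonneg ht0.le),
      norm_of_nonneg (rpow_nonneg ht0.le _)]
    apply mul_le_of_le_one_left (rpow_nonneg ht0.le _)
    have := exp_pos (-t)
    linarith

/-- `k^s`, `0 < s < 1`, is a Bernstein multiplier. -/
theorem bern_rpow {s : ℝ} (hs0 : 0 < s) (hs1 : s < 1) : BernPos (fun k => (k : ℝ) ^ s) := by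
  set f : ℝ → ℝ := fun t => (1 - exp (-t)) * t ^ (-1 - s) with hf
  have hfi : IntegrableOn f (Ioi 0) := ff_integrable hs0 hs1
  set Cc : ℝ := ∫ t in Ioi 0, f t with hCc
  have hCpos : 0 < Cc := by
    rw [hCc, setIntegral_pos_iff_support_of_nonneg_ae _ hfi]
    · have : Ioi 0 ⊆ Function.support f ∩ Ioi 0 := by
        intro t ht
        refine ⟨?_, ht⟩
        have ht0 : (0 : ℝ) < t := ht
        rw [Function.mem_support]
        apply mul_ne_zero
        · have : exp (-t) < exp 0 := exp_lt_exp.2 (by linarith)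
          rw [exp_zero] at this
          linarith
        · exact (rpow_pos_of_pos ht0 _).ne'
      refine lt_of_lt_of_le ?_ (measure_mono this)
      rw [volume_Ioi]
      exact ENNReal.zero_lt_top
    · rw [EventuallyLE, ae_restrict_iff' measurableSet_Ioi]
      refine Eventually.of_forall fun t ht => ?_
      have ht0 : (0 : ℝ) < t := ht
      exact mul_nonneg (one_sub_exp_nonneg ht0.le) (rpow_nonneg ht0.le _)
  -- the representation of `k^s`
  have hrep : ∀ k : ℕ, IntegrableOn (fun t : ℝ => (1 - exp (-t) ^ k) * t ^ (-1 - s)) (Ioi 0) ∧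
      ∫ t in Ioi 0, (1 - exp (-t) ^ k) * t ^ (-1 - s) = (k : ℝ) ^ s * Cc := by
    intro k
    rcases Nat.eq_zero_or_pos k with h | h
    · subst h
      simp only [pow_zero, sub_self, zero_mul, Nat.cast_zero]
      rw [zero_rpow hs0.ne']
      simp
    · have hk : (0 : ℝ) < k := by exact_mod_cast h
      have heq : ∀ t ∈ Ioi (0 : ℝ), (1 - exp (-t) ^ k) * t ^ (-1 - s) =
          (k : ℝ) ^ (1 + s) * f (k * t) := by
        intro t ht
        have ht0 : (0 : ℝ) < t := ht
        rw [hf]
        simp only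
        rw [← exp_nat_mul, mul_rpow hk.le ht0.le, show (k : ℝ) * -t = -(k * t) by ring]
        have : (k : ℝ) ^ (1 + s) * (k : ℝ) ^ (-1 - s) = 1 := by
          rw [← rpow_add hk]
          simp
        linear_combination (-(1 - exp (-(k * t))) * t ^ (-1 - s)) * this
      have hi : IntegrableOn (fun t => f (k * t)) (Ioi 0) := by
        rw [integrableOn_Ioi_comp_mul_left_iff _ _ hk, mul_zero]
        exact hfi
      constructor
      · exact IntegrableOn.congr_fun (hi.const_mul ((k : ℝ) ^ (1 + s)))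
          (fun t ht => (heq t ht).symm) measurableSet_Ioi
      · rw [setIntegral_congr_fun measurableSet_Ioi heq, integral_const_mul,
          integral_comp_mul_left_Ioi _ _ hk, mul_zero, smul_eq_mul, ← mul_assoc]
        congr 1
        rw [rpow_add hk, rpow_one]
        field_simp
  intro n a ha
  have h1 : (∑ k ∈ Finset.range (n + 1), a k * (k : ℝ) ^ s) * Cc =
      ∫ t in Ioi 0, ∑ k ∈ Finset.range (n + 1), a k * ((1 - exp (-t) ^ k) * t ^ (-1 - s)) := by
    rw [integral_finsetSum _ (fun k _ => (hrep k).1.const_mul (a k)), Finset.sum_mul]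
    refine Finset.sum_congr rfl fun k _ => ?_
    rw [integral_const_mul, (hrep k).2]
    ring
  have h2 : 0 ≤ (∑ k ∈ Finset.range (n + 1), a k * (k : ℝ) ^ s) * Cc := by
    rw [h1]
    apply setIntegral_nonneg measurableSet_Ioi
    intro t ht
    have ht0 : (0 : ℝ) < t := ht
    have h3 := ha (exp (-t)) ⟨(exp_pos _).le, exp_le_one_iff.2 (by linarith)⟩
    have h4 : ∑ k ∈ Finset.range (n + 1), a k * ((1 - exp (-t) ^ k) * t ^ (-1 - s)) =
        (∑ k ∈ Finset.range (n + 1), a k * (1 - exp (-t) ^ k)) * t ^ (-1 - s) := by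
      rw [Finset.sum_mul]
      refine Finset.sum_congr rfl fun k _ => ?_
      ring
    rw [h4]
    exact mul_nonneg h3 (rpow_nonneg ht0.le _)
  by_contra hcon
  have := mul_neg_of_neg_of_pos (not_le.1 hcon) hCpos
  linarith

/-- `u e^{1-u}` -/
noncomputable def lamf (u : ℝ) : ℝ := u * exp (1 - u)

lemma lamf_nonneg {u : ℝ} (hu : 0 ≤ u) : 0 ≤ lamf u := mul_nonneg hu (exp_pos _).le

lemma lamf_le_one (u : ℝ) : lamf u ≤ 1 := by
  unfold lamf
  have h1 := add_one_le_exp (u - 1)
  have h2 : exp (1 - u) * exp (u - 1) = 1 := by rw [← exp_add]; simp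
  calc u * exp (1 - u) ≤ exp (u - 1) * exp (1 - u) :=
        mul_le_mul_of_nonneg_right (by linarith) (exp_pos _).le
    _ = 1 := by rw [mul_comm]; exact h2

lemma lamf_cont : Continuous lamf := by unfold lamf; fun_prop

lemma lamf_deriv (u : ℝ) : HasDerivAt lamf (exp (1 - u) * (1 - u)) u := by
  unfold lamf
  have h1 : HasDerivAt (fun u : ℝ => exp (1 - u)) (exp (1 - u) * (-1)) u := by
    have : HasDerivAt (fun u : ℝ => 1 - u) (-1) u := by simpa using (hasDerivAt_id u).const_sub 1
    exact this.exp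
  refine ((hasDerivAt_id u).mul h1).congr_deriv ?_
  simp only [id]
  ring

lemma lamf_int {k : ℕ} (hk : 0 < k) : IntegrableOn (fun u => (k : ℝ) * lamf u ^ k) (Ioi 0) ∧
    ∫ u in Ioi 0, (k : ℝ) * lamf u ^ k = (k.factorial : ℝ) * exp k / (k : ℝ) ^ k := by
  have hk0 : (0 : ℝ) < k := by exact_mod_cast hk
  have h1 := Real.integral_rpow_mul_exp_neg_mul_Ioi (a := (k : ℝ) + 1) (r := k) (by positivity) hk0
  rw [add_sub_cancel_right, Real.Gamma_nat_eq_factorial] at h1
  have heq : ∀ u ∈ Ioi (0 : ℝ), (k : ℝ) * lamf u ^ k =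
      ((k : ℝ) * exp k) * (u ^ (k : ℝ) * exp (-((k : ℝ) * u))) := by
    intro u hu
    unfold lamf
    rw [mul_pow, ← exp_nat_mul, rpow_natCast]
    have : exp ((k : ℝ) * (1 - u)) = exp k * exp (-((k : ℝ) * u)) := by
      rw [← exp_add]; ring_nf
    rw [this]
    ring
  have h2 : ∫ u in Ioi 0, (k : ℝ) * lamf u ^ k = (k.factorial : ℝ) * exp k / (k : ℝ) ^ k := by
    rw [setIntegral_congr_fun measurableSet_Ioi heq, integral_const_mul, h1]
    rw [div_rpow zero_le_one hk0.le, one_rpow, rpow_add hk0, rpow_natCast, rpow_one]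
    field_simp
  refine ⟨?_, h2⟩
  by_contra hcon
  have h3 : ∫ u in Ioi 0, (k : ℝ) * lamf u ^ k = 0 := integral_undef hcon
  rw [h2] at h3
  have : 0 < (k.factorial : ℝ) * exp k / (k : ℝ) ^ k := by positivity
  linarith

/-- `k! e^k / k^k - 1` is a Bernstein multiplier. -/
theorem bern_stirling : BernPos (fun k => (k.factorial : ℝ) * exp k / (k : ℝ) ^ k - 1) := by
  intro n a ha
  set P : ℝ → ℝ := fun u => ∑ k ∈ Finset.range (n + 1), a k * (1 - lamf u ^ k) with hP
  set q : ℝ → ℝ := fun u => ∑ k ∈ Finset.range (n + 1), a k * ((k : ℝ) * lamf u ^ k) with hq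
  have hPnn : ∀ u, 0 ≤ u → 0 ≤ P u := fun u hu => ha _ ⟨lamf_nonneg hu, lamf_le_one u⟩
  have hqc : Continuous q := by
    rw [hq]
    have := lamf_cont
    fun_prop
  have hPd : ∀ u, HasDerivAt P (-∑ k ∈ Finset.range (n + 1),
      a k * ((k : ℝ) * lamf u ^ (k - 1) * (exp (1 - u) * (1 - u)))) u := by
    intro u
    rw [← Finset.sum_neg_distrib]
    apply HasDerivAt.fun_sum
    intro k _
    refine (((lamf_deriv u).pow k).const_sub 1 |>.const_mul (a k)).congr_deriv ?_
    ring
  have hPd' : ∀ u, u * (-∑ k ∈ Finset.range (n + 1),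
      a k * ((k : ℝ) * lamf u ^ (k - 1) * (exp (1 - u) * (1 - u)))) = -(1 - u) * q u := by
    intro u
    rw [hq, mul_neg, Finset.mul_sum, neg_mul, Finset.mul_sum]
    congr 1
    refine Finset.sum_congr rfl fun k _ => ?_
    rcases Nat.eq_zero_or_pos k with h | h
    · subst h; simp
    · have : lamf u ^ k = lamf u ^ (k - 1) * lamf u := by
        rw [← pow_succ]
        congr 1
        omega
      rw [this]
      unfold lamf
      ring
  have hPc : Continuous P := by
    rw [continuous_iff_continuousAt]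
    exact fun u => (hPd u).continuousAt
  set Q : ℝ → ℝ := fun u => ∫ x in (0 : ℝ)..u, q x with hQ
  have hQd : ∀ u, HasDerivAt Q (q u) u := fun u =>
    intervalIntegral.integral_hasDerivAt_right (hqc.intervalIntegrable _ _)
      (hqc.stronglyMeasurableAtFilter _ _) hqc.continuousAt
  have hQ0 : Q 0 = 0 := intervalIntegral.integral_same
  set R : ℝ → ℝ := fun u => Q u + u / (1 - u) * P u with hR
  have hRd : ∀ u, u ≠ 1 → HasDerivAt R (P u / (1 - u) ^ 2) u := by
    intro u hu
    have hu' : 1 - u ≠ 0 := sub_ne_zero.2 (Ne.symm hu)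
    have h1 : HasDerivAt (fun u : ℝ => 1 - u) (-1) u := by simpa using (hasDerivAt_id u).const_sub 1
    have h2 := (hQd u).add (((hasDerivAt_id u).div h1 hu').mul (hPd u))
    refine h2.congr_deriv ?_
    have h3 := hPd' u
    simp only [id, Pi.div_apply]
    set S := -∑ k ∈ Finset.range (n + 1),
      a k * ((k : ℝ) * lamf u ^ (k - 1) * (exp (1 - u) * (1 - u)))
    field_simp
    linear_combination (1 - u) * h3
  -- the limit at `1`
  have hP1 : P 1 = 0 := by
    rw [hP]
    unfold lamf
    simp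
  have hlim : Tendsto (fun u => u / (1 - u) * P u) (𝓝[≠] 1) (𝓝 0) := by
    have hd1 : HasDerivAt P 0 1 := by
      refine (hPd 1).congr_deriv ?_
      simp
    have h1 := hd1.tendsto_slope
    have h2 : Tendsto (fun u : ℝ => -u) (𝓝[≠] 1) (𝓝 (-1)) :=
      (continuous_neg.tendsto 1).mono_left nhdsWithin_le_nhds
    have h3 := h2.mul h1
    rw [mul_zero] at h3
    refine h3.congr' ?_
    filter_upwards [self_mem_nhdsWithin] with u hu
    have hu1 : u - 1 ≠ 0 := sub_ne_zero.2 hu
    have hu2 : 1 - u ≠ 0 := sub_ne_zero.2 (Ne.symm hu)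
    rw [slope_def_field, hP1, sub_zero]
    rw [div_mul_eq_mul_div, mul_div_assoc']
    rw [div_eq_div_iff hu1 hu2]
    ring
  have hRlim : Tendsto R (𝓝[≠] 1) (𝓝 (Q 1)) := by
    have h1 : Tendsto Q (𝓝[≠] 1) (𝓝 (Q 1)) :=
      (hQd 1).continuousAt.tendsto.mono_left nhdsWithin_le_nhds
    have := h1.add hlim
    rw [add_zero] at this
    exact this
  have hQ1 : 0 ≤ Q 1 := by
    have hmono : MonotoneOn R (Ico 0 1) := by
      apply monotoneOn_of_deriv_nonneg (convex_Ico _ _)
      · exact fun u hu => (hRd u hu.2.ne).continuousAt.continuousWithinAt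
      · intro u hu
        exact (hRd u (interior_subset hu).2.ne).differentiableAt.differentiableWithinAt
      · intro u hu
        have hu' := interior_subset hu
        rw [(hRd u hu'.2.ne).deriv]
        exact div_nonneg (hPnn u hu'.1) (sq_nonneg _)
    have h0 : R 0 = 0 := by
      rw [hR]
      simp [hQ0]
    have hlt : Tendsto R (𝓝[<] 1) (𝓝 (Q 1)) :=
      hRlim.mono_left (nhdsWithin_mono _ (fun u hu => ne_of_lt hu))
    refine ge_of_tendsto hlt ?_
    filter_upwards [Ico_mem_nhdsLT (zero_lt_one' ℝ)] with u hu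
    rw [← h0]
    exact hmono ⟨le_rfl, zero_lt_one⟩ hu hu.1
  have hQu : ∀ u, 1 < u → u / (u - 1) * P u ≤ Q u := by
    intro u hu
    have hmono : MonotoneOn R (Ioi 1) := by
      apply monotoneOn_of_deriv_nonneg (convex_Ioi _)
      · exact fun u hu => (hRd u (ne_of_gt hu)).continuousAt.continuousWithinAt
      · intro u hu
        exact (hRd u (ne_of_gt (interior_subset hu))).differentiableAt.differentiableWithinAt
      · intro u hu
        have hu' : 1 < u := interior_subset hu
        rw [(hRd u (ne_of_gt hu')).deriv]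
        exact div_nonneg (hPnn u (by linarith)) (sq_nonneg _)
    have hgt : Tendsto R (𝓝[>] 1) (𝓝 (Q 1)) :=
      hRlim.mono_left (nhdsWithin_mono _ (fun u hu => ne_of_gt hu))
    have h1 : Q 1 ≤ R u := by
      refine le_of_tendsto hgt ?_
      filter_upwards [Ioo_mem_nhdsGT hu] with v hv
      exact hmono hv.1 hu hv.2.le
    have h2 : R u = Q u - u / (u - 1) * P u := by
      rw [hR]
      simp only
      have h3 : u / (1 - u) = -(u / (u - 1)) := by
        rw [← neg_sub u 1, div_neg]
      rw [h3]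
      ring
    linarith
  -- the limit at infinity
  have hqi : IntegrableOn q (Ioi 0) := by
    rw [hq]
    apply integrable_finsetSum
    intro k _
    rcases Nat.eq_zero_or_pos k with h | h
    · subst h
      simp
    · exact (lamf_int h).1.const_mul (a k)
  have hQinf : Tendsto Q atTop (𝓝 (∫ u in Ioi 0, q u)) :=
    intervalIntegral_tendsto_integral_Ioi 0 hqi tendsto_id
  have hlam0 : Tendsto lamf atTop (𝓝 0) := by
    have h1 := Real.tendsto_pow_mul_exp_neg_atTop_nhds_zero 1
    have h2 := h1.const_mul (exp 1)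
    rw [mul_zero] at h2
    refine h2.congr fun u => ?_
    unfold lamf
    have : exp (1 - u) = exp 1 * exp (-u) := by rw [← exp_add]; ring_nf
    rw [this]
    ring
  have hPinf : Tendsto P atTop (𝓝 (∑ k ∈ Finset.range (n + 1), a k * (1 - (0 : ℝ) ^ k))) := by
    apply tendsto_finsetSum
    intro k _
    exact ((hlam0.pow k).const_sub 1).const_mul (a k)
  have hfrac : Tendsto (fun u : ℝ => u / (u - 1)) atTop (𝓝 1) := by
    have h1 : Tendsto (fun u : ℝ => 1 + (u - 1)⁻¹) atTop (𝓝 (1 + 0)) := by
      apply tendsto_const_nhds.add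
      exact tendsto_inv_atTop_zero.comp (tendsto_atTop_add_const_right _ _ tendsto_id)
    rw [add_zero] at h1
    refine h1.congr' ?_
    filter_upwards [eventually_gt_atTop 1] with u hu
    have : u - 1 ≠ 0 := by linarith
    field_simp
    ring
  have hineq : ∑ k ∈ Finset.range (n + 1), a k * (1 - (0 : ℝ) ^ k) ≤ ∫ u in Ioi 0, q u := by
    have h1 := hfrac.mul hPinf
    rw [one_mul] at h1
    refine le_of_tendsto_of_tendsto h1 hQinf ?_
    filter_upwards [eventually_gt_atTop 1] with u hu
    exact hQu u hu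
  have hint : ∫ u in Ioi 0, q u = ∑ k ∈ Finset.range (n + 1),
      a k * (if k = 0 then 0 else (k.factorial : ℝ) * exp k / (k : ℝ) ^ k) := by
    rw [hq, integral_finsetSum]
    · refine Finset.sum_congr rfl fun k _ => ?_
      rw [integral_const_mul]
      rcases Nat.eq_zero_or_pos k with h | h
      · subst h
        simp
      · rw [(lamf_int h).2, if_neg (by omega)]
    · intro k _
      rcases Nat.eq_zero_or_pos k with h | h
      · subst h
        simp
      · exact (lamf_int h).1.const_mul (a k)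
  rw [hint] at hineq
  have hfin : ∑ k ∈ Finset.range (n + 1), a k * ((k.factorial : ℝ) * exp k / (k : ℝ) ^ k - 1) =
      ∑ k ∈ Finset.range (n + 1),
        a k * (if k = 0 then 0 else (k.factorial : ℝ) * exp k / (k : ℝ) ^ k) -
      ∑ k ∈ Finset.range (n + 1), a k * (1 - (0 : ℝ) ^ k) := by
    rw [← Finset.sum_sub_distrib]
    refine Finset.sum_congr rfl fun k _ => ?_
    rcases Nat.eq_zero_or_pos k with h | h
    · subst h
      simp
    · rw [if_neg (by omega), zero_pow (by omega)]
      ring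
  rw [hfin]
  linarith

end Pool.Agent.Q163.LP
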