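import Mathlib

/-!
# Growth of the critical values for `y''' = -eᵗ y + ν eᵗ y'`
-/

open Real Set

namespace Pool.Agent.Q163.LP

/-- the system -/
structure Sys (ν : ℝ) (A0 A1 A2 : ℝ → ℝ) : Prop where
  h0 : ∀ t, HasDerivAt A0 (A1 t) t
  h1 : ∀ t, HasDerivAt A1 (A2 t) t
  h2 : ∀ t, HasDerivAt A2 (-exp t * A0 t + ν * exp t * A1 t) t

variable {ν : ℝ} {A0 A1 A2 : ℝ → ℝ}

lemma Sys.neg (h : Sys ν A0 A1 A2) : Sys ν (fun t => -A0 t) (fun t => -A1 t) (fun t => -A2 t) where
  h0 t := (h.h0 t).neg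
  h1 t := (h.h1 t).neg
  h2 t := by
    refine (h.h2 t).neg.congr_deriv ?_
    ring

/-- Two consecutive critical points are at distance less than `2π`. -/
lemma Sys.gap (h : Sys ν A0 A1 A2) {n : ℝ} (hn : 1 ≤ n) (hν : ν = 1 / n) {α : ℝ}
    (hα : 4 ≤ exp α) (hend : exp (α + 2 * π) ≤ n ^ 2) (hz : A1 α = 0)
    (hpos : ∀ t ∈ Ioo α (α + 2 * π), 0 < A1 t) : False := by
  set β := α + 2 * π with hβ
  have hαβ : α < β := by rw [hβ]; linarith [pi_pos]
  set W : ℝ → ℝ := fun t => -(exp β * ((1 - cos (β - t)) * A0 t)) +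
    exp (β - t) * (sin (β - t) * A2 t + (cos (β - t) + sin (β - t)) * A1 t) with hW
  have hder : ∀ t, HasDerivAt W (-(exp (β - t) * (exp t * (1 - cos (β - t)) + 2 * cos (β - t) -
      ν * exp t * sin (β - t)) * A1 t)) t := by
    intro t
    have hs : HasDerivAt (fun t => β - t) (-1) t := by
      simpa using (hasDerivAt_id t).const_sub β
    have hE : HasDerivAt (fun t => exp (β - t)) (exp (β - t) * (-1)) t := hs.exp
    have hc : HasDerivAt (fun t => cos (β - t)) (-sin (β - t) * (-1)) t := hs.cos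
    have hsn : HasDerivAt (fun t => sin (β - t)) (cos (β - t) * (-1)) t := hs.sin
    have d1 := (((hc.const_sub 1).mul (h.h0 t)).const_mul (exp β)).neg
    have d2 := hE.mul ((hsn.mul (h.h2 t)).add ((hc.add hsn).mul (h.h1 t)))
    have d3 := d1.add d2
    refine d3.congr_deriv ?_
    have e1 : exp β = exp (β - t) * exp t := by rw [← exp_add]; ring_nf
    rw [e1]
    simp only [Pi.mul_apply, Pi.add_apply]
    ring
  have hanti : StrictAntiOn W (Icc α β) := by
    apply strictAntiOn_of_deriv_neg (convex_Icc _ _)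
    · exact fun t _ => (hder t).continuousAt.continuousWithinAt
    · intro t ht
      rw [interior_Icc] at ht
      rw [(hder t).deriv, neg_lt_zero]
      apply mul_pos _ (hpos t ht)
      apply mul_pos (exp_pos _)
      -- the sign of the test expression
      have hκ4 : 4 ≤ exp t := hα.trans (exp_le_exp.2 ht.1.le)
      have hκn : exp t ≤ n ^ 2 := (exp_le_exp.2 ht.2.le).trans hend
      set κ := exp t
      set c := cos (β - t)
      set s := sin (β - t)
      have hcs : s ^ 2 + c ^ 2 = 1 := sin_sq_add_cos_sq _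
      have hc1 : c ≤ 1 := cos_le_one _
      have hν0 : 0 < ν := by rw [hν]; positivity
      have hνκ : ν ^ 2 * κ ≤ 1 := by
        rw [hν, div_pow, one_pow, one_div, inv_mul_le_iff₀ (by positivity)]
        linarith
      have h1 : ν * s ≤ ν ^ 2 + s ^ 2 / 4 := by nlinarith [sq_nonneg (ν - s / 2)]
      have h2 : s ^ 2 ≤ 2 * (1 - c) := by nlinarith
      have h3 : ν * κ * s ≤ 1 + κ * (1 - c) / 2 := by
        have h4 : κ * (ν * s) ≤ κ * (ν ^ 2 + (1 - c) / 2) :=
          mul_le_mul_of_nonneg_left (by linarith) (by linarith)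
        nlinarith
      nlinarith
  have hWα : W α = 0 := by
    rw [hW]
    simp only
    have e : β - α = 2 * π := by rw [hβ]; ring
    rw [e, cos_two_pi, sin_two_pi, hz]
    ring
  have hWβ : W β = A1 β := by
    rw [hW]
    simp only
    rw [sub_self, cos_zero, sin_zero, exp_zero]
    ring
  have h1 := hanti (left_mem_Icc.2 hαβ.le) (right_mem_Icc.2 hαβ.le) hαβ
  rw [hWα, hWβ] at h1
  have h2 : 0 ≤ A1 β := by
    by_contra hcon
    have h3 := (h.h1 β).continuousAt.eventually (gt_mem_nhds (not_le.1 hcon))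
    have h4 := h3.filter_mono (nhdsWithin_le_nhds (s := Iio β))
    obtain ⟨t, ht1, ht2⟩ := (h4.and (Ioo_mem_nhdsLT hαβ)).exists
    have := hpos t ht2
    linarith
  linarith

/-- the energy -/
noncomputable def Psi (A0 A1 A2 : ℝ → ℝ) (t : ℝ) : ℝ := exp (-t) * (A1 t * A2 t) + A0 t ^ 2 / 2

lemma Sys.psi_deriv (h : Sys ν A0 A1 A2) (t : ℝ) : HasDerivAt (Psi A0 A1 A2)
    (exp (-t) * (A2 t ^ 2 - A1 t * A2 t) + ν * A1 t ^ 2) t := by
  have hE : HasDerivAt (fun t => exp (-t)) (exp (-t) * (-1)) t := (hasDerivAt_neg t).exp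
  have d := (hE.mul ((h.h1 t).mul (h.h2 t))).add (((h.h0 t).pow 2).div_const 2)
  refine d.congr_deriv ?_
  have e1 : exp (-t) * exp t = 1 := by rw [← exp_add]; simp
  simp only [Pi.mul_apply]
  push_cast
  linear_combination (-A1 t * A0 t + ν * A1 t ^ 2) * e1

/-- where `ν eᵗ ≥ 1/4` the energy increases -/
lemma Sys.energy_far (h : Sys ν A0 A1 A2) {α β : ℝ} (hαβ : α ≤ β) (hα : 1 / 4 ≤ ν * exp α)
    (hzα : A1 α = 0) (hzβ : A1 β = 0) : A0 α ^ 2 ≤ A0 β ^ 2 := by
  have hν : 0 < ν := by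
    by_contra hcon
    have : ν * exp α ≤ 0 := mul_nonpos_of_nonpos_of_nonneg (not_lt.1 hcon) (exp_pos α).le
    linarith
  have hm : MonotoneOn (Psi A0 A1 A2) (Icc α β) := by
    apply monotoneOn_of_deriv_nonneg (convex_Icc _ _)
    · exact fun t _ => (h.psi_deriv t).continuousAt.continuousWithinAt
    · exact fun t _ => (h.psi_deriv t).differentiableAt.differentiableWithinAt
    · intro t ht
      rw [interior_Icc] at ht
      rw [(h.psi_deriv t).deriv]
      have e1 : exp (-t) * exp t = 1 := by rw [← exp_add]; simp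
      have e2 : exp (-t) * (A2 t ^ 2 - A1 t * A2 t) + ν * A1 t ^ 2 =
          exp (-t) * ((A2 t - A1 t / 2) ^ 2 + (ν * exp t - 1 / 4) * A1 t ^ 2) := by
        linear_combination (-ν * A1 t ^ 2) * e1
      rw [e2]
      have h1 : ν * exp α ≤ ν * exp t := mul_le_mul_of_nonneg_left (exp_le_exp.2 ht.1.le) hν.le
      have h2 : 0 ≤ ν * exp t - 1 / 4 := by linarith
      have h3 := mul_nonneg h2 (sq_nonneg (A1 t))
      exact mul_nonneg (exp_pos _).le (add_nonneg (sq_nonneg _) h3)
  have h1 := hm (left_mem_Icc.2 hαβ) (right_mem_Icc.2 hαβ) hαβ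
  unfold Psi at h1
  rw [hzα, hzβ] at h1
  linarith

/-- on intervals shorter than `2π` the energy increases between critical points -/
lemma Sys.energy_near (h : Sys ν A0 A1 A2) (hν : 0 ≤ ν) {α β : ℝ} (hαβ : α ≤ β)
    (hlen : β - α < 2 * π) (hzα : A1 α = 0) (hzβ : A1 β = 0) : A0 α ^ 2 ≤ A0 β ^ 2 := by
  set γ := α - (2 * π - (β - α)) / 2 with hγ
  have hsin : ∀ t ∈ Icc α β, 0 < sin ((t - γ) / 2) := by
    intro t ht
    apply sin_pos_of_pos_of_lt_pi
    · have := ht.1
      rw [hγ]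
      linarith
    · have := ht.2
      rw [hγ]
      linarith
  set φ : ℝ → ℝ := fun t => 1 / 2 * (cos ((t - γ) / 2) / sin ((t - γ) / 2)) with hφ
  have hφd : ∀ t ∈ Icc α β, HasDerivAt φ (-(1 / 4) - φ t ^ 2) t := by
    intro t ht
    have hs0 := (hsin t ht).ne'
    have hx : HasDerivAt (fun t => (t - γ) / 2) (1 / 2) t := by
      have := ((hasDerivAt_id t).sub_const γ).div_const 2
      simpa using this
    have d := (hx.cos.div hx.sin hs0).const_mul (1 / 2)
    refine d.congr_deriv ?_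
    rw [hφ]
    simp only
    have hcs := sin_sq_add_cos_sq ((t - γ) / 2)
    field_simp
    ring
  set Θ : ℝ → ℝ := fun t => Psi A0 A1 A2 t - φ t * (exp (-t) * A1 t ^ 2) with hΘ
  have hΘd : ∀ t ∈ Icc α β, HasDerivAt Θ
      (exp (-t) * (A2 t - (1 / 2 + φ t) * A1 t) ^ 2 + ν * A1 t ^ 2) t := by
    intro t ht
    have hE : HasDerivAt (fun t => exp (-t)) (exp (-t) * (-1)) t := (hasDerivAt_neg t).exp
    have d := (h.psi_deriv t).sub ((hφd t ht).mul (hE.mul ((h.h1 t).pow 2)))
    refine d.congr_deriv ?_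
    simp only [Pi.mul_apply, Pi.pow_apply]
    push_cast
    ring
  have hm : MonotoneOn Θ (Icc α β) := by
    apply monotoneOn_of_deriv_nonneg (convex_Icc _ _)
    · exact fun t ht => (hΘd t ht).continuousAt.continuousWithinAt
    · rw [interior_Icc]
      exact fun t ht => (hΘd t (Ioo_subset_Icc_self ht)).differentiableAt.differentiableWithinAt
    · intro t ht
      rw [interior_Icc] at ht
      rw [(hΘd t (Ioo_subset_Icc_self ht)).deriv]
      have := exp_pos (-t)
      positivity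
  have h1 := hm (left_mem_Icc.2 hαβ) (right_mem_Icc.2 hαβ) hαβ
  rw [hΘ] at h1
  unfold Psi at h1
  simp only at h1
  rw [hzα, hzβ] at h1
  linarith

lemma exp_two_pi_lt : exp (2 * π) < 1100 := by
  have h1 : exp (2 * π) ≤ exp 7 := by
    apply exp_le_exp.2
    linarith [pi_lt_d2]
  have h2 : exp 7 = exp 1 ^ 7 := by
    rw [← exp_nat_mul]
    norm_num
  have h3 : exp 1 ^ 7 < (2.7182818286 : ℝ) ^ 7 :=
    pow_lt_pow_left₀ exp_one_lt_d9 (exp_pos _).le (by norm_num)
  have h4 : (2.7182818286 : ℝ) ^ 7 < 1100 := by norm_num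
  linarith

/-- The critical values increase. -/
theorem Sys.amp (h : Sys ν A0 A1 A2) {n : ℝ} (hn : 300 ≤ n) (hν : ν = 1 / n) {α β : ℝ}
    (hαβ : α ≤ β) (hα : 4 ≤ exp α) (hzα : A1 α = 0) (hzβ : A1 β = 0)
    (hs : (∀ t ∈ Ioo α β, 0 < A1 t) ∨ (∀ t ∈ Ioo α β, A1 t < 0)) : A0 α ^ 2 ≤ A0 β ^ 2 := by
  have hν0 : 0 < ν := by rw [hν]; positivity
  rcases lt_or_ge (β - α) (2 * π) with hlen | hlen
  · exact h.energy_near hν0.le hαβ hlen hzα hzβ
  · have hsub : Ioo α (α + 2 * π) ⊆ Ioo α β := Ioo_subset_Ioo_right (by linarith)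
    rcases le_or_gt (exp (α + 2 * π)) (n ^ 2) with hend | hend
    · exfalso
      rcases hs with hs | hs
      · exact h.gap (by linarith) hν hα hend hzα (fun t ht => hs t (hsub ht))
      · refine h.neg.gap (by linarith) hν hα hend ?_ (fun t ht => ?_)
        · simp [hzα]
        · have := hs t (hsub ht)
          simpa using this
    · apply h.energy_far hαβ _ hzα hzβ
      rw [exp_add] at hend
      have h1 := exp_two_pi_lt
      have h2 : n ^ 2 < exp α * 1100 :=
        hend.trans (mul_lt_mul_of_pos_left h1 (exp_pos _))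
      have h3 : (1 / 4 : ℝ) ≤ exp α / n := by
        rw [le_div_iff₀ (by linarith)]
        nlinarith
      rw [hν]
      calc (1 / 4 : ℝ) ≤ exp α / n := h3
        _ = 1 / n * exp α := by ring

end Pool.Agent.Q163.LP
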