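import Pool.Agent.Q163.LP.Ex

/-!
# From multiplier sequences to the Laguerre-Polya class
-/

open Polynomial Filter Topology Set
open Pool.Agent.Helper771.MultSeq

namespace Pool.Agent.Q163.LP

lemma choose_tendsto (k : ℕ) : Tendsto (fun n : ℕ => (n.choose k : ℝ) / (n : ℝ) ^ k) atTop
    (𝓝 (1 / (k.factorial : ℝ))) := by
  induction k with
  | zero => simp
  | succ k ih =>
    have h1 : Tendsto (fun n : ℕ => (1 - (k : ℝ) * (1 / (n : ℝ))) / ((k : ℝ) + 1)) atTop
        (𝓝 ((1 - (k : ℝ) * 0) / ((k : ℝ) + 1))) :=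
      ((tendsto_one_div_atTop_nhds_zero_nat.const_mul (k : ℝ)).const_sub 1).div_const _
    have h2 := ih.mul h1
    have e : 1 / (k.factorial : ℝ) * ((1 - (k : ℝ) * 0) / ((k : ℝ) + 1)) =
        1 / ((k + 1).factorial : ℝ) := by
      rw [Nat.factorial_succ]
      push_cast
      have : (k.factorial : ℝ) ≠ 0 := by exact_mod_cast k.factorial_ne_zero
      field_simp
      ring
    rw [e] at h2
    refine h2.congr' ?_
    filter_upwards [eventually_gt_atTop k] with n hn
    have hn0 : (n : ℝ) ≠ 0 := by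
      have : 0 < n := by omega
      exact_mod_cast this.ne'
    have h3 := Nat.choose_succ_right_eq n k
    have h4 : ((n.choose (k + 1) * (k + 1) : ℕ) : ℝ) = ((n.choose k * (n - k) : ℕ) : ℝ) := by
      rw [h3]
    push_cast [Nat.cast_sub hn.le] at h4
    have hk1 : (k : ℝ) + 1 ≠ 0 := by positivity
    have e2 : (n.choose (k + 1) : ℝ) = n.choose k * (n - k) / (k + 1) := by
      rw [eq_div_iff hk1]
      exact h4
    rw [e2, pow_succ]
    field_simp

/-- the approximating polynomials -/
noncomputable def ap (γ : ℕ → ℝ) (n : ℕ) : ℝ[X] :=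
  ∑ k ∈ Finset.range (n + 1), monomial k (γ k * ((n.choose k : ℝ) / (n : ℝ) ^ k))

lemma coeff_ap (γ : ℕ → ℝ) (n k : ℕ) :
    (ap γ n).coeff k = γ k * ((n.choose k : ℝ) / (n : ℝ) ^ k) := by
  unfold ap
  rw [finsetSum_coeff]
  simp only [coeff_monomial]
  rw [Finset.sum_ite_eq' (Finset.range (n + 1)) k]
  split_ifs with h
  · rfl
  · rw [Nat.choose_eq_zero_of_lt (by simpa using h)]
    simp

lemma ap_orz {γ : ℕ → ℝ} (h : IsMultiplierSequence γ) {n : ℕ} (hn : 0 < n) :
    OnlyRealZeros (ap γ n) := by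
  have hn0 : (n : ℝ) ≠ 0 := by exact_mod_cast hn.ne'
  have h1 : OnlyRealZeros (((1 + X : ℝ[X]) ^ n).comp (C (1 / (n : ℝ)) * X)) := by
    right
    intro z hz
    rw [pow_comp, add_comp, one_comp, X_comp, map_pow, map_add, map_one, map_mul, aeval_C,
      aeval_X] at hz
    have h2 := pow_eq_zero_iff'.1 hz
    have h3 := congrArg Complex.im h2.1
    rw [Complex.add_im, Complex.one_im, zero_add, Complex.zero_im, Complex.coe_algebraMap,
      Complex.im_ofReal_mul] at h3
    rcases mul_eq_zero.1 h3 with h | h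
    · exfalso
      rcases div_eq_zero_iff.1 h with h | h
      · norm_num at h
      · exact hn0 h
    · exact h
  have h2 := h _ h1
  convert h2 using 1
  ext k
  rw [act_eq, comp_C_mul_X_coeff, coeff_one_add_X_pow, coeff_ap, div_pow, one_pow]
  ring

lemma ap_natDegree (γ : ℕ → ℝ) (n : ℕ) : (ap γ n).natDegree ≤ n := by
  rw [natDegree_le_iff_coeff_eq_zero]
  intro k hk
  rw [coeff_ap, Nat.choose_eq_zero_of_lt hk]
  simp

lemma ap_aeval (γ : ℕ → ℝ) (n : ℕ) (z : ℂ) : aeval z (ap γ n) =
    ∑' k, ((γ k * ((n.choose k : ℝ) / (n : ℝ) ^ k) : ℝ) : ℂ) * z ^ k := by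
  rw [tsum_eq_sum (s := Finset.range (n + 1))]
  · rw [aeval_def, eval₂_eq_sum_range' _ (Nat.lt_succ_of_le (ap_natDegree γ n))]
    refine Finset.sum_congr rfl fun k _ => ?_
    rw [coeff_ap]
    rfl
  · intro k hk
    rw [Nat.choose_eq_zero_of_lt (by simpa using hk)]
    simp

/-- The generating function of a nonnegative multiplier sequence is a limit of polynomials with
real nonpositive zeros and nonnegative coefficients. -/
theorem lp_of_ms {γ : ℕ → ℝ} (h : IsMultiplierSequence γ) (h0 : ∀ k, 0 ≤ γ k)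
    (hne : ∃ k, γ k ≠ 0) (hsum : ∀ R : ℝ, 0 < R → Summable fun k => γ k / (k.factorial : ℝ) * R ^ k) :
    ∃ P : ℕ → ℝ[X], (∀ n (z : ℂ), aeval z (P n) = 0 → z.im = 0 ∧ z.re ≤ 0) ∧
      (∀ n k, 0 ≤ (P n).coeff k) ∧
      TendstoLocallyUniformly (fun n (z : ℂ) => aeval z (P n))
        (fun z => ∑' k, ((γ k / (k.factorial : ℝ) : ℝ) : ℂ) * z ^ k) atTop := by
  obtain ⟨N, hN⟩ := hne
  set m : ℕ → ℕ := fun n => n + N + 1 with hm
  have hcoeff : ∀ n k, 0 ≤ (ap γ n).coeff k := by
    intro n k
    rw [coeff_ap]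
    have := h0 k
    positivity
  refine ⟨fun n => ap γ (m n), ?_, fun n k => hcoeff _ _, ?_⟩
  · intro n z hz
    have hc : 0 < (ap γ (m n)).coeff N := by
      rw [coeff_ap]
      have h1 : 0 < γ N := lt_of_le_of_ne (h0 N) (Ne.symm hN)
      have h2 : (0 : ℝ) < (m n).choose N := by
        exact_mod_cast Nat.choose_pos (by rw [hm]; simp only; omega)
      have h3 : (0 : ℝ) < m n := by
        rw [hm]; positivity
      positivity
    have hne : ap γ (m n) ≠ 0 := by
      intro h
      rw [h, coeff_zero] at hc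
      exact lt_irrefl _ hc
    have him := (ap_orz h (by rw [hm]; simp only; omega)).resolve_left hne z hz
    refine ⟨him, ?_⟩
    by_contra hcon
    push Not at hcon
    have hz' : z = ((z.re : ℝ) : ℂ) := by
      apply Complex.ext <;> simp [him]
    have h1 : 0 < (ap γ (m n)).eval z.re := by
      rw [eval_eq_sum_range]
      apply Finset.sum_pos'
      · intro k _
        exact mul_nonneg (hcoeff _ _) (pow_nonneg hcon.le _)
      · refine ⟨N, Finset.mem_range.2 ?_, mul_pos hc (pow_pos hcon _)⟩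
        exact Nat.lt_succ_of_le (le_natDegree_of_ne_zero hc.ne')
    rw [hz'] at hz
    have h2 : aeval ((z.re : ℝ) : ℂ) (ap γ (m n)) = (((ap γ (m n)).eval z.re : ℝ) : ℂ) := by
      have := aeval_algebraMap_apply_eq_algebraMap_eval (A := ℂ) z.re (ap γ (m n))
      exact this
    rw [h2] at hz
    have h3 : (ap γ (m n)).eval z.re = 0 := by exact_mod_cast hz
    linarith
  · rw [tendstoLocallyUniformly_iff_forall_isCompact]
    intro K hK
    obtain ⟨R, hR, hKR⟩ : ∃ R : ℝ, 0 < R ∧ ∀ z ∈ K, ‖z‖ ≤ R := by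
      obtain ⟨R, hR⟩ := hK.isBounded.subset_closedBall 0
      refine ⟨max R 1, lt_of_lt_of_le one_pos (le_max_right _ _), fun z hz => ?_⟩
      have := hR hz
      rw [mem_closedBall_zero_iff] at this
      exact this.trans (le_max_left _ _)
    have hle : ∀ n k : ℕ, (n.choose k : ℝ) / (n : ℝ) ^ k ≤ 1 / (k.factorial : ℝ) := by
      intro n k
      rcases Nat.eq_zero_or_pos n with h | h
      · subst h
        rcases Nat.eq_zero_or_pos k with h' | h'
        · subst h'; simp
        · rw [Nat.choose_eq_zero_of_lt h']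
          simp
      · have hn0 : (0 : ℝ) < (n : ℝ) ^ k := by
          have : (0 : ℝ) < n := by exact_mod_cast h
          positivity
        rw [div_le_iff₀ hn0, one_div_mul_eq_div]
        exact Nat.choose_le_pow_div k n
    have hb0 : ∀ n k : ℕ, 0 ≤ (n.choose k : ℝ) / (n : ℝ) ^ k := fun n k => by positivity
    -- the error
    set er : ℕ → ℕ → ℝ := fun n k =>
      (1 / (k.factorial : ℝ) - (n.choose k : ℝ) / (n : ℝ) ^ k) * γ k * R ^ k with her
    have her0 : ∀ n k, 0 ≤ er n k := fun n k => by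
      rw [her]
      have h1 := hle n k
      have h2 := h0 k
      have h3 : 0 ≤ 1 / (k.factorial : ℝ) - (n.choose k : ℝ) / (n : ℝ) ^ k := by linarith
      positivity
    have herle : ∀ n k, er n k ≤ γ k / (k.factorial : ℝ) * R ^ k := fun n k => by
      rw [her]
      have h1 := hb0 n k
      have h2 := h0 k
      have h3 : 1 / (k.factorial : ℝ) - (n.choose k : ℝ) / (n : ℝ) ^ k ≤ 1 / (k.factorial : ℝ) := by
        linarith
      calc _ ≤ 1 / (k.factorial : ℝ) * γ k * R ^ k :=
            mul_le_mul_of_nonneg_right (mul_le_mul_of_nonneg_right h3 h2) (by positivity)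
        _ = _ := by ring
    have hersum : ∀ n, Summable (er n) := fun n =>
      Summable.of_nonneg_of_le (her0 n) (herle n) (hsum R hR)
    have hlim : Tendsto (fun n => ∑' k, er n k) atTop (𝓝 (∑' _ : ℕ, (0 : ℝ))) := by
      apply tendsto_tsum_of_dominated_convergence (hsum R hR)
      · intro k
        have h1 := (((choose_tendsto k).const_sub (1 / (k.factorial : ℝ))).mul_const (γ k)).mul_const
          (R ^ k)
        rw [sub_self, zero_mul, zero_mul] at h1
        exact h1
      · refine Eventually.of_forall fun n k => ?_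
        rw [Real.norm_of_nonneg (her0 n k)]
        exact herle n k
    rw [tsum_zero] at hlim
    have hlim' : Tendsto (fun n => ∑' k, er (m n) k) atTop (𝓝 0) := by
      apply hlim.comp
      rw [hm]
      exact tendsto_atTop_mono (f := fun n => n) (fun n => by show n ≤ n + N + 1; omega) tendsto_id
    rw [Metric.tendstoUniformlyOn_iff]
    intro ε hε
    filter_upwards [hlim'.eventually (gt_mem_nhds hε)] with n hn z hz
    refine lt_of_le_of_lt ?_ hn
    have hzR := hKR z hz
    rw [dist_eq_norm, ap_aeval]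
    have hs1 : Summable fun k => ((γ k / (k.factorial : ℝ) : ℝ) : ℂ) * z ^ k := by
      apply Summable.of_norm_bounded (hsum R hR)
      intro k
      rw [norm_mul, norm_pow, Complex.norm_real, Real.norm_of_nonneg (div_nonneg (h0 k) (by positivity))]
      exact mul_le_mul_of_nonneg_left (pow_le_pow_left₀ (norm_nonneg _) hzR k)
        (div_nonneg (h0 k) (by positivity))
    have hs2 : Summable fun k =>
        ((γ k * (((m n).choose k : ℝ) / ((m n : ℕ) : ℝ) ^ k) : ℝ) : ℂ) * z ^ k := by
      apply Summable.of_norm_bounded (hsum R hR)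
      intro k
      have h1 := hle (m n) k
      have h2 := hb0 (m n) k
      have h3 := h0 k
      rw [norm_mul, norm_pow, Complex.norm_real, Real.norm_of_nonneg (mul_nonneg h3 h2)]
      calc _ ≤ (γ k * (1 / (k.factorial : ℝ))) * R ^ k :=
            mul_le_mul (mul_le_mul_of_nonneg_left h1 h3) (pow_le_pow_left₀ (norm_nonneg _) hzR k)
              (by positivity) (by positivity)
        _ = _ := by ring
    rw [← hs1.tsum_sub hs2]
    refine tsum_of_norm_bounded (hersum (m n)).hasSum fun k => ?_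
    have h1 := hle (m n) k
    have h3 := h0 k
    rw [← sub_mul, ← Complex.ofReal_sub, norm_mul, norm_pow, Complex.norm_real, her]
    have e : γ k / (k.factorial : ℝ) - γ k * (((m n).choose k : ℝ) / ((m n : ℕ) : ℝ) ^ k) =
        (1 / (k.factorial : ℝ) - ((m n).choose k : ℝ) / ((m n : ℕ) : ℝ) ^ k) * γ k := by ring
    rw [e, Real.norm_of_nonneg (mul_nonneg (by linarith) h3)]
    exact mul_le_mul_of_nonneg_left (pow_le_pow_left₀ (norm_nonneg _) hzR k)
      (mul_nonneg (by linarith) h3)

/-- `k^s/(k!)²` is a multiplier sequence for every `s > 0`. -/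
theorem ms_rpow {s : ℝ} (hs : 0 < s) :
    IsMultiplierSequence (fun k => (k : ℝ) ^ s / (k.factorial : ℝ) ^ 2) := by
  set m := ⌊s⌋₊ with hm
  have hfl := Nat.floor_le hs.le
  have hlt := Nat.lt_floor_add_one s
  have hlin : IsMultiplierSequence (fun k : ℕ => (k : ℝ) ^ m) := by
    have := ms_pow (ms_lin (a := 0) (b := 1) le_rfl zero_le_one) m
    simpa using this
  rcases eq_or_lt_of_le hfl with h | h
  · have h1 := ms_mul hlin (ms_mul ms_invfact ms_invfact)
    convert h1 using 2 with k
    rw [← h, Real.rpow_natCast]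
    ring
  · have hs0 : 0 < s - m := by linarith
    have hs1 : s - m < 1 := by linarith
    have h1 := ms_mul hlin (ms_bern (bern_rpow hs0 hs1) (A := 0) le_rfl)
    convert h1 using 2 with k
    rw [zero_add, mul_div_assoc']
    congr 1
    rcases Nat.eq_zero_or_pos k with hk | hk
    · subst hk
      rw [Nat.cast_zero, Real.zero_rpow hs.ne', Real.zero_rpow hs0.ne', mul_zero]
    · have hk0 : (0 : ℝ) < k := by exact_mod_cast hk
      rw [← Real.rpow_natCast, ← Real.rpow_add hk0]
      congr 1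
      ring

lemma orz_X_pow_mul {m : ℕ} {p : ℝ[X]} (h : OnlyRealZeros p) : OnlyRealZeros (X ^ m * p) := by
  rcases h with h | h
  · left; rw [h, mul_zero]
  · right
    intro z hz
    rw [map_mul, map_pow, aeval_X] at hz
    rcases mul_eq_zero.1 hz with h1 | h1
    · rw [pow_eq_zero_iff'] at h1
      rw [h1.1]
      simp
    · exact h z h1

theorem ms_shift {γ : ℕ → ℝ} (h : IsMultiplierSequence γ) (m : ℕ) :
    IsMultiplierSequence (fun k => γ (m + k)) := by
  intro p hp
  have h1 := h _ (orz_X_pow_mul (m := m) hp)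
  have h2 : act γ (X ^ m * p) = X ^ m * act (fun k => γ (m + k)) p := by
    ext k
    rw [act_eq, coeff_X_pow_mul', coeff_X_pow_mul']
    split_ifs with hk
    · rw [act_eq, Nat.add_sub_cancel' hk]
    · simp
  rw [h2] at h1
  exact orz_of_X_pow_mul h1

/-- `1/((k+1)^{k+1} k!)` is a multiplier sequence. -/
theorem ms_ss : IsMultiplierSequence
    (fun k => 1 / (((k : ℝ) + 1) ^ (k + 1) * (k.factorial : ℝ))) := by
  have h1 := ms_shift (ms_bern bern_stirling (A := 1) zero_le_one) 1
  have h2 := ms_mul (ms_mul (ms_lin (a := 1) (b := 1) zero_le_one zero_le_one) h1)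
    (ms_geom (Real.exp (-1)) (Real.exp_pos (-1)))
  convert h2 using 2 with k
  have hf : (k.factorial : ℝ) ≠ 0 := by exact_mod_cast k.factorial_ne_zero
  have hk : (k : ℝ) + 1 ≠ 0 := by positivity
  rw [show 1 + k = k + 1 by ring, Nat.factorial_succ]
  push_cast
  have e1 : Real.exp (-1) * Real.exp (-1) ^ k * Real.exp ((k : ℝ) + 1) = 1 := by
    rw [← Real.exp_nat_mul, ← Real.exp_add, ← Real.exp_add]
    have : -1 + (k : ℝ) * -1 + ((k : ℝ) + 1) = 0 := by ring
    rw [this, Real.exp_zero]
  have e2 : (1 + 1 * (k : ℝ)) * ((1 + (((k : ℝ) + 1) * (k.factorial : ℝ) * Real.exp ((k : ℝ) + 1) /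
      ((k : ℝ) + 1) ^ (k + 1) - 1)) / (((k : ℝ) + 1) * (k.factorial : ℝ)) ^ 2) *
      (Real.exp (-1) * Real.exp (-1) ^ k) =
      1 / (((k : ℝ) + 1) ^ (k + 1) * (k.factorial : ℝ)) *
        (Real.exp (-1) * Real.exp (-1) ^ k * Real.exp ((k : ℝ) + 1)) := by
    field_simp
    ring
  rw [e2, e1, mul_one]

end Pool.Agent.Q163.LP
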