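import Pool.Agent.Q163.LP.Tools

/-!
# Polya and Schur: real-rooted Jensen polynomials give multiplier sequences
-/

open Polynomial Filter Topology
open Pool.Agent.Helper771.MultSeq

namespace Pool.Agent.Q163.LP

/-- no zeros in the open upper half plane -/
def ZF (p : ℂ[X]) : Prop := ∀ z : ℂ, 0 < z.im → p.eval z ≠ 0

lemma disc_le {y : ℝ} (hy : 0 < y) {ζ : ℂ} (h : y ≤ ζ.im) :
    ‖1 / ζ + Complex.I / (2 * y)‖ ≤ 1 / (2 * y) := by
  have hζ : ζ ≠ 0 := by
    intro h0
    rw [h0, Complex.zero_im] at h
    linarith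
  have hyc : (y : ℂ) ≠ 0 := by exact_mod_cast hy.ne'
  have e : 1 / ζ + Complex.I / (2 * y) = (2 * y + Complex.I * ζ) / ζ / (2 * y) := by
    field_simp
  rw [e, norm_div, norm_mul, Complex.norm_real, Real.norm_of_nonneg hy.le, Complex.norm_ofNat]
  apply div_le_div_of_nonneg_right _ (by positivity)
  rw [norm_div, div_le_one (norm_pos_iff.2 hζ)]
  rw [Complex.norm_def, Complex.norm_def]
  apply Real.sqrt_le_sqrt
  rw [Complex.normSq_apply, Complex.normSq_apply]
  simp
  nlinarith

lemma disc_gt {y : ℝ} (hy : 0 < y) {ζ : ℂ} (hζ : ζ ≠ 0) (h : ζ.im < y) :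
    1 / (2 * y) < ‖1 / ζ + Complex.I / (2 * y)‖ := by
  have hyc : (y : ℂ) ≠ 0 := by exact_mod_cast hy.ne'
  have e : 1 / ζ + Complex.I / (2 * y) = (2 * y + Complex.I * ζ) / ζ / (2 * y) := by
    field_simp
  rw [e, norm_div, norm_mul, Complex.norm_real, Real.norm_of_nonneg hy.le, Complex.norm_ofNat]
  apply div_lt_div_of_pos_right _ (by positivity)
  rw [norm_div, one_lt_div (norm_pos_iff.2 hζ)]
  rw [Complex.norm_def, Complex.norm_def]
  apply Real.sqrt_lt_sqrt (Complex.normSq_nonneg _)
  rw [Complex.normSq_apply, Complex.normSq_apply]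
  simp
  nlinarith

/-- Laguerre's theorem for the upper half plane. -/
theorem laguerre {p : ℂ[X]} {n : ℕ} (hn : 1 ≤ n) (hdeg : p.natDegree ≤ n) (hp : ZF p) {w : ℂ}
    (hw : 0 < w.im) : ZF (C (n : ℂ) * p + (C w - X) * derivative p) := by
  intro z hz h0
  have hpz := hp z hz
  have hsplit : p.Splits := IsAlgClosed.splits p
  have hder := hsplit.eval_derivative_eq_eval_mul_sum hpz
  set S : ℂ := (p.roots.map fun r => 1 / (z - r)).sum with hS
  rw [eval_add, eval_mul, eval_C, eval_mul, eval_sub, eval_C, eval_X, hder] at h0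
  have h1 : (n : ℂ) + (w - z) * S = 0 := by
    have : p.eval z * ((n : ℂ) + (w - z) * S) = 0 := by linear_combination h0
    exact (mul_eq_zero.1 this).resolve_left hpz
  set y := z.im with hy
  have hn0 : (n : ℂ) ≠ 0 := by exact_mod_cast (by omega : n ≠ 0)
  have hzw : z - w ≠ 0 := by
    intro h
    have : w - z = 0 := by linear_combination -h
    rw [this, zero_mul, add_zero] at h1
    exact hn0 h1
  have hSu : S = n * (1 / (z - w)) := by
    field_simp
    linear_combination -h1
  have hcard : p.roots.card ≤ n := (card_roots' p).trans hdeg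
  -- the sum lies in a disc
  have hsum : ∀ s : Multiset ℂ, (∀ r ∈ s, r.im ≤ 0) →
      ‖(s.map fun r => 1 / (z - r)).sum + s.card * (Complex.I / (2 * y))‖ ≤
        s.card * (1 / (2 * y)) := by
    intro s
    induction s using Multiset.induction_on with
    | empty => intro _; simp
    | cons r s ih =>
      intro hr
      have h2 := ih (fun r' hr' => hr r' (Multiset.mem_cons_of_mem hr'))
      have h3 := disc_le (ζ := z - r) hz (by
        rw [Complex.sub_im]
        have := hr r (Multiset.mem_cons_self _ _)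
        linarith)
      rw [Multiset.map_cons, Multiset.sum_cons, Multiset.card_cons]
      push_cast
      have e : 1 / (z - r) + (s.map fun r => 1 / (z - r)).sum +
          ((s.card : ℂ) + 1) * (Complex.I / (2 * y)) =
          (1 / (z - r) + Complex.I / (2 * y)) +
          ((s.map fun r => 1 / (z - r)).sum + s.card * (Complex.I / (2 * y))) := by ring
      rw [e]
      refine (norm_add_le _ _).trans ?_
      linarith
  have hroots : ∀ r ∈ p.roots, r.im ≤ 0 := by
    intro r hr
    by_contra hcon
    exact hp r (not_le.1 hcon) (isRoot_of_mem_roots hr)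
  have h4 := hsum p.roots hroots
  rw [← hS, hSu] at h4
  have h5 := disc_gt (ζ := z - w) hz hzw (by rw [Complex.sub_im]; linarith)
  have h6 : ‖(n : ℂ) * (1 / (z - w) + Complex.I / (2 * y))‖ ≤ n * (1 / (2 * y)) := by
    have e : (n : ℂ) * (1 / (z - w) + Complex.I / (2 * y)) =
        ((n : ℂ) * (1 / (z - w)) + p.roots.card * (Complex.I / (2 * y))) +
          ((n - p.roots.card : ℝ) : ℂ) * (Complex.I / (2 * y)) := by
      push_cast
      ring
    rw [e]
    refine (norm_add_le _ _).trans ?_
    have hI : ‖(Complex.I / (2 * y) : ℂ)‖ = 1 / (2 * y) := by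
      rw [norm_div, norm_mul, Complex.norm_I, Complex.norm_real, Real.norm_of_nonneg hz.le,
        Complex.norm_ofNat]
    have hc : (p.roots.card : ℝ) ≤ n := by exact_mod_cast hcard
    rw [norm_mul, hI, Complex.norm_real, Real.norm_of_nonneg (by linarith)]
    calc _ ≤ (p.roots.card : ℝ) * (1 / (2 * y)) + (n - p.roots.card : ℝ) * (1 / (2 * y)) := by
            linarith
      _ = n * (1 / (2 * y)) := by ring
  rw [norm_mul, Complex.norm_natCast] at h6
  have hnpos : (0 : ℝ) < n := by exact_mod_cast (by omega : 0 < n)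
  have := mul_lt_mul_of_pos_left h5 hnpos
  linarith

/-- the shift on sequences -/
def sh : Module.End ℂ (ℕ → ℂ) where
  toFun a := fun k => a (k + 1)
  map_add' _ _ := rfl
  map_smul' _ _ := rfl

/-- `∑ C(n,k) a_k X^k` -/
noncomputable def JJ (a : ℕ → ℂ) (n : ℕ) : ℂ[X] :=
  ∑ k ∈ Finset.range (n + 1), monomial k ((n.choose k : ℂ) * a k)

lemma coeff_JJ (a : ℕ → ℂ) (n k : ℕ) : (JJ a n).coeff k = (n.choose k : ℂ) * a k := by
  unfold JJ
  rw [finsetSum_coeff]
  simp only [coeff_monomial]
  rw [Finset.sum_ite_eq' (Finset.range (n + 1)) k]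
  split_ifs with h
  · rfl
  · rw [Nat.choose_eq_zero_of_lt (by simpa using h)]
    simp

lemma JJ_natDegree (a : ℕ → ℂ) (n : ℕ) : (JJ a n).natDegree ≤ n := by
  rw [natDegree_le_iff_coeff_eq_zero]
  intro k hk
  rw [coeff_JJ, Nat.choose_eq_zero_of_lt hk]
  simp

lemma JJ_polar (a : ℕ → ℂ) (n : ℕ) (w : ℂ) :
    C ((n + 1 : ℕ) : ℂ) * JJ a (n + 1) + (C w - X) * derivative (JJ a (n + 1)) =
      C ((n + 1 : ℕ) : ℂ) * JJ (fun k => a k + w * a (k + 1)) n := by
  ext k
  have h1 : ∀ k : ℕ, ((n + 1).choose (k + 1) : ℂ) * (k + 1) = (n + 1) * (n.choose k : ℂ) := by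
    intro k
    have := Nat.add_one_mul_choose_eq n k
    exact_mod_cast this.symm
  rw [coeff_add, coeff_C_mul, coeff_C_mul, sub_mul, coeff_sub, coeff_C_mul, coeff_derivative,
    coeff_JJ, coeff_JJ, coeff_JJ]
  cases k with
  | zero =>
    rw [mul_coeff_zero, coeff_X_zero, zero_mul, sub_zero]
    have := h1 0
    simp only [Nat.cast_zero, zero_add, Nat.choose_zero_right, Nat.cast_one, mul_one] at this ⊢
    push_cast
    rw [this]
    ring
  | succ k =>
    rw [coeff_X_mul, coeff_derivative, coeff_JJ]
    have e1 := h1 k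
    have e2 := h1 (k + 1)
    have e3 : ((n + 1).choose (k + 1) : ℂ) = n.choose k + n.choose (k + 1) := by
      rw [Nat.choose_succ_succ]
      push_cast
      ring
    push_cast at e2 ⊢
    linear_combination w * a (k + 1 + 1) * e2 - a (k + 1) * e1 + (n + 1) * a (k + 1) * e3

theorem szego_aux (ws : List ℂ) (hws : ∀ w ∈ ws, 0 < w.im) : ∀ a : ℕ → ℂ, ZF (JJ a ws.length) →
    aeval sh (ws.map fun w => (1 + C w * X : ℂ[X])).prod a 0 ≠ 0 := by
  induction ws with
  | nil =>
    intro a h
    have := h Complex.I (by simp)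
    simp [JJ] at this
    simpa using this
  | cons w ws ih =>
    intro a h
    rw [List.map_cons, List.prod_cons, mul_comm, map_mul, Module.End.mul_apply]
    apply ih (fun w' hw' => hws w' (List.mem_cons_of_mem _ hw'))
    have hlen : (w :: ws).length = ws.length + 1 := rfl
    rw [hlen] at h
    have h2 := laguerre (n := ws.length + 1) (by omega) (JJ_natDegree _ _) h
      (hws w List.mem_cons_self)
    rw [JJ_polar] at h2
    have e : (aeval sh (1 + C w * X : ℂ[X])) a = fun k => a k + w * a (k + 1) := by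
      funext k
      rw [map_add, map_one, map_mul, aeval_C, aeval_X]
      rfl
    rw [e]
    intro z hz h0
    apply h2 z hz
    rw [eval_mul, h0, mul_zero]

lemma aeval_sh (B : ℂ[X]) (a : ℕ → ℂ) :
    aeval sh B a 0 = ∑ k ∈ Finset.range (B.natDegree + 1), B.coeff k * a k := by
  have hpow : ∀ (k : ℕ) (a : ℕ → ℂ) (m : ℕ), (sh ^ k) a m = a (m + k) := by
    intro k
    induction k with
    | zero => intro a m; rfl
    | succ k ih =>
      intro a m
      rw [pow_succ, Module.End.mul_apply, ih]
      show a (m + k + 1) = _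
      rfl
  rw [aeval_eq_sum_range]
  rw [LinearMap.sum_apply, Finset.sum_apply]
  refine Finset.sum_congr rfl fun k _ => ?_
  rw [LinearMap.smul_apply, Pi.smul_apply, hpow, zero_add, smul_eq_mul]

lemma real_conj (p : ℝ[X]) (z : ℂ) : aeval ((starRingEnd ℂ) z) p = (starRingEnd ℂ) (aeval z p) := by
  rw [aeval_conj]

/-- The theorem of Polya and Schur for positive sequences. -/
theorem polya_schur_pos {γ : ℕ → ℝ} (hγ : ∀ k, 0 < γ k) (hJ : ∀ n, OnlyRealZeros (jen γ 0 n)) :
    IsMultiplierSequence γ := by
  intro p hp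
  by_cases hp0 : p = 0
  · left
    rw [hp0]
    ext k
    rw [act_eq, coeff_zero, mul_zero]
  right
  set n := p.natDegree with hn
  have hpreal : ∀ z : ℂ, aeval z p = 0 → z.im = 0 := hp.resolve_left hp0
  -- the factorisation of the Jensen polynomial
  have hJc : ∀ k, (jen γ 0 n).coeff k = (n.choose k : ℝ) * γ k := by
    intro k
    rw [coeff_jen, zero_add]
  have hJ0 : jen γ 0 n ≠ 0 := by
    intro h
    have := hJc 0
    rw [h, coeff_zero, Nat.choose_zero_right, Nat.cast_one, one_mul] at this
    exact (hγ 0).ne this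
  have hJdeg : (jen γ 0 n).natDegree = n := by
    apply le_antisymm (jen_natDegree γ 0 n)
    apply le_natDegree_of_ne_zero
    rw [hJc, Nat.choose_self, Nat.cast_one, one_mul]
    exact (hγ n).ne'
  obtain ⟨s, hscard, hsprod, _⟩ := orz_roots hJ0 (hJ n)
  rw [hJdeg] at hscard
  have hneg : ∀ r ∈ s, r < 0 := by
    intro r hr
    by_contra hcon
    push Not at hcon
    have h1 : (jen γ 0 n).eval r = 0 := by
      rw [hsprod, eval_mul, eval_multiset_prod, Multiset.map_map]
      apply mul_eq_zero_of_right
      rw [Multiset.prod_eq_zero_iff]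
      rw [Multiset.mem_map]
      exact ⟨r, hr, by simp⟩
    have h2 : 0 < (jen γ 0 n).eval r := by
      rw [eval_eq_sum_range, hJdeg]
      apply Finset.sum_pos'
      · intro k _
        rw [hJc]
        have := (hγ k).le
        positivity
      · refine ⟨0, Finset.mem_range.2 (by omega), ?_⟩
        rw [hJc, Nat.choose_zero_right, pow_zero]
        simpa using hγ 0
    linarith
  have hcoeff : ∀ z : ℂ, ∀ k, ((s.toList.map fun r : ℝ => ((-1 / r : ℝ) : ℂ) * z).map
      fun w => (1 + C w * X : ℂ[X])).prod.coeff k =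
      ((γ 0 : ℂ))⁻¹ * ((n.choose k : ℂ) * γ k) * z ^ k := by
    intro z k
    -- real factorisation
    have h1 : ∀ t : Multiset ℝ, (∀ r ∈ t, r < 0) → (t.map fun r => (X - C r : ℝ[X])).prod =
        C ((t.map fun r => -r).prod) * (t.map fun r => (1 + C (-1 / r) * X : ℝ[X])).prod := by
      intro t
      induction t using Multiset.induction_on with
      | empty => intro _; simp
      | cons r t ih =>
        intro ht
        rw [Multiset.map_cons, Multiset.prod_cons, Multiset.map_cons, Multiset.prod_cons,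
          Multiset.map_cons, Multiset.prod_cons, ih (fun r' hr' => ht r' (Multiset.mem_cons_of_mem hr'))]
        have hr := ht r (Multiset.mem_cons_self _ _)
        have e : (X - C r : ℝ[X]) = C (-r) * (1 + C (-1 / r) * X) := by
          rw [mul_add, mul_one, ← mul_assoc, ← C_mul]
          have : -r * (-1 / r) = 1 := by
            have := hr.ne
            field_simp
          rw [this, C_1, one_mul, C_neg]
          ring
        rw [e, C_mul]
        ring
    have h2 := h1 s hneg
    set Q : ℝ[X] := (s.map fun r => (1 + C (-1 / r) * X : ℝ[X])).prod with hQ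
    set c : ℝ := (jen γ 0 n).leadingCoeff * (s.map fun r => -r).prod with hc
    have h3 : jen γ 0 n = C c * Q := by
      rw [hsprod, h2, hc, C_mul]
      ring
    have hQ0 : Q.coeff 0 = 1 := by
      rw [coeff_zero_eq_eval_zero, hQ, eval_multiset_prod, Multiset.map_map]
      simp
    have hcγ : c = γ 0 := by
      have := hJc 0
      rw [h3, coeff_C_mul, hQ0, mul_one, Nat.choose_zero_right, Nat.cast_one, one_mul] at this
      exact this
    have hQk : Q.coeff k = (γ 0)⁻¹ * ((n.choose k : ℝ) * γ k) := by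
      have := hJc k
      rw [h3, coeff_C_mul, hcγ] at this
      rw [← this, inv_mul_cancel_left₀ (hγ 0).ne']
    have h4 : ((s.toList.map fun r : ℝ => ((-1 / r : ℝ) : ℂ) * z).map
        fun w => (1 + C w * X : ℂ[X])).prod = (Q.map (algebraMap ℝ ℂ)).comp (C z * X) := by
      rw [hQ, ← Multiset.coe_toList s, Multiset.map_coe, Multiset.prod_coe]
      rw [Multiset.coe_toList]
      generalize s.toList = l
      induction l with
      | nil => simp
      | cons r l ih =>
        rw [List.map_cons, List.map_cons, List.prod_cons, ih, List.map_cons, List.prod_cons,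
          Polynomial.map_mul, mul_comp]
        congr 1
        rw [Polynomial.map_add, Polynomial.map_one, Polynomial.map_mul, map_C, map_X, add_comp,
          one_comp, mul_comp, C_comp, X_comp, C_mul, mul_assoc]
        rfl
    rw [h4, comp_C_mul_X_coeff, coeff_map, hQk]
    simp
  have hnat : ∀ z : ℂ, ((s.toList.map fun r : ℝ => ((-1 / r : ℝ) : ℂ) * z).map
      fun w => (1 + C w * X : ℂ[X])).prod.natDegree ≤ n := by
    intro z
    rw [natDegree_le_iff_coeff_eq_zero]
    intro k hk
    rw [hcoeff, Nat.choose_eq_zero_of_lt hk]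
    simp
  have key : ∀ z : ℂ, 0 < z.im → aeval z (act γ p) ≠ 0 := by
    intro z hz h0
    set ws : List ℂ := s.toList.map fun r : ℝ => ((-1 / r : ℝ) : ℂ) * z with hws
    have hlen : ws.length = n := by
      rw [hws, List.length_map, Multiset.length_toList, hscard]
    have him : ∀ w ∈ ws, 0 < w.im := by
      intro w hw
      rw [hws, List.mem_map] at hw
      obtain ⟨r, hr, rfl⟩ := hw
      have hr0 := hneg r (Multiset.mem_toList.1 hr)
      rw [Complex.im_ofReal_mul]
      apply mul_pos _ hz
      exact div_pos_of_neg_of_neg (by norm_num) hr0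
    set a : ℕ → ℂ := fun k => (p.coeff k : ℂ) / (n.choose k : ℂ) with ha
    have hJa : JJ a n = p.map (algebraMap ℝ ℂ) := by
      ext k
      rw [coeff_JJ, coeff_map, ha]
      by_cases hk : k ≤ n
      · have : ((n.choose k : ℕ) : ℂ) ≠ 0 := by exact_mod_cast (Nat.choose_pos hk).ne'
        simp only
        rw [mul_div_cancel₀ _ this]
        rfl
      · rw [Nat.choose_eq_zero_of_lt (not_le.1 hk), coeff_eq_zero_of_natDegree_lt (not_le.1 hk)]
        simp
    have hZF : ZF (JJ a ws.length) := by
      rw [hlen, hJa]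
      intro w hw h
      rw [eval_map_algebraMap] at h
      have := hpreal w h
      linarith
    apply szego_aux ws him a hZF
    rw [aeval_sh]
    have hnatz : (ws.map fun w => (1 + C w * X : ℂ[X])).prod.natDegree ≤ n := hnat z
    have h5 : ∑ k ∈ Finset.range ((ws.map fun w => (1 + C w * X : ℂ[X])).prod.natDegree + 1),
        (ws.map fun w => (1 + C w * X : ℂ[X])).prod.coeff k * a k =
        ∑ k ∈ Finset.range (n + 1), (ws.map fun w => (1 + C w * X : ℂ[X])).prod.coeff k * a k := by
      apply Finset.sum_subset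
      · intro k hk
        rw [Finset.mem_range] at hk ⊢
        omega
      · intro k _ hk
        rw [Finset.mem_range, not_lt] at hk
        rw [coeff_eq_zero_of_natDegree_lt (by omega), zero_mul]
    rw [h5]
    have h6 : aeval z (act γ p) = ∑ k ∈ Finset.range (n + 1), ((γ k * p.coeff k : ℝ) : ℂ) * z ^ k := by
      rw [aeval_def, eval₂_eq_sum_range' _ (Nat.lt_succ_of_le (act_natDegree γ p))]
      refine Finset.sum_congr rfl fun k _ => ?_
      rw [act_eq]
      rfl
    have h7 : ∑ k ∈ Finset.range (n + 1), (ws.map fun w => (1 + C w * X : ℂ[X])).prod.coeff k * a k =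
        ((γ 0 : ℂ))⁻¹ * aeval z (act γ p) := by
      rw [h6, Finset.mul_sum]
      refine Finset.sum_congr rfl fun k hk => ?_
      rw [hcoeff, ha]
      have : ((n.choose k : ℕ) : ℂ) ≠ 0 := by
        exact_mod_cast (Nat.choose_pos (Nat.lt_succ_iff.1 (Finset.mem_range.1 hk))).ne'
      simp only
      push_cast
      field_simp
    rw [h7, h0, mul_zero]
  intro z hz
  by_contra hne
  rcases lt_or_gt_of_ne hne with h | h
  · apply key ((starRingEnd ℂ) z) (by rw [Complex.conj_im]; linarith)
    rw [real_conj, hz, map_zero]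
  · exact key z h hz

/-- It is enough to know large degrees. -/
theorem jen_descent {γ : ℕ → ℝ} {n : ℕ} (h : OnlyRealZeros (jen γ 0 (n + 1))) :
    OnlyRealZeros (jen γ 0 n) := by
  have hpol := fun u => orz_polar (N := n + 1) (by omega) (jen_natDegree γ 0 (n + 1)) h u
  -- divide by `u` and let `u` tend to infinity
  set G := jen γ 0 (n + 1) with hG
  have h1 : ∀ M : ℕ, OnlyRealZeros ((C (1 / ((M : ℝ) + 1)) + X) * derivative G -
      C (((n + 1 : ℕ) : ℝ)) * G) := by
    intro M
    have h2 := orz_C_mul (c := 1 / ((M : ℝ) + 1)) (hpol ((M : ℝ) + 1))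
    convert h2 using 1
    have hM : ((M : ℝ) + 1) ≠ 0 := by positivity
    have e1 : (C (1 / ((M : ℝ) + 1)) : ℝ[X]) * C ((M : ℝ) + 1) = 1 := by
      rw [← C_mul, one_div_mul_cancel hM, C_1]
    rw [C_mul (a := ((n + 1 : ℕ) : ℝ))]
    linear_combination (C (((n + 1 : ℕ) : ℝ)) * G - X * derivative G) * e1
  have h3 : OnlyRealZeros (X * derivative G - C (((n + 1 : ℕ) : ℝ)) * G) := by
    have hd : ∀ r : ℝ, ((C r + X) * derivative G - C (((n + 1 : ℕ) : ℝ)) * G).natDegree ≤ n + 1 := by
      intro r
      apply (natDegree_sub_le _ _).trans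
      apply max_le
      · apply natDegree_mul_le.trans
        have h4 : (C r + X : ℝ[X]).natDegree ≤ 1 := by
          rw [add_comm]
          exact natDegree_X_add_C r |>.le
        have h5 := natDegree_derivative_le G
        have h6 := jen_natDegree γ 0 (n + 1)
        rw [← hG] at h6
        omega
      · exact (natDegree_C_mul_le _ _).trans (jen_natDegree γ 0 (n + 1))
    refine orz_of_tendsto (N := n + 1) (p := fun M : ℕ => (C (1 / ((M : ℝ) + 1)) + X) * derivative G -
      C (((n + 1 : ℕ) : ℝ)) * G) (fun M => hd _) ?_ h1 ?_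
    · have := hd 0
      simpa using this
    · intro k
      have h4 : ∀ r : ℝ, ((C r + X) * derivative G - C (((n + 1 : ℕ) : ℝ)) * G).coeff k =
          r * (derivative G).coeff k + (X * derivative G - C (((n + 1 : ℕ) : ℝ)) * G).coeff k := by
        intro r
        rw [add_mul, add_sub_assoc, coeff_add, coeff_C_mul]
      simp_rw [h4]
      have h5 := (tendsto_one_div_add_atTop_nhds_zero_nat (𝕜 := ℝ)).mul_const ((derivative G).coeff k)
      have h6 := h5.add_const ((X * derivative G - C (((n + 1 : ℕ) : ℝ)) * G).coeff k)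
      rw [zero_mul, zero_add] at h6
      exact h6
  have h4 := orz_C_mul (c := -(1 / ((n : ℝ) + 1))) h3
  convert h4 using 1
  ext k
  rw [coeff_C_mul, coeff_sub, coeff_C_mul, hG, coeff_jen, coeff_jen]
  have h5 : (X * derivative (jen γ 0 (n + 1))).coeff k =
      k * (((n + 1).choose k : ℝ) * γ (0 + k)) := by
    cases k with
    | zero => simp
    | succ k =>
      rw [coeff_X_mul, coeff_derivative, coeff_jen]
      push_cast
      ring
  rw [h5]
  have h6 : ((n + 1).choose k : ℝ) * ((n : ℝ) + 1 - k) = (n + 1) * (n.choose k : ℝ) := by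
    by_cases hk : k ≤ n + 1
    · have := Nat.choose_mul_succ_eq n k
      have h7 : ((n.choose k * (n + 1) : ℕ) : ℝ) = (((n + 1).choose k * (n + 1 - k) : ℕ) : ℝ) := by
        rw [this]
      push_cast [Nat.cast_sub hk] at h7
      linarith
    · rw [Nat.choose_eq_zero_of_lt (by omega), Nat.choose_eq_zero_of_lt (by omega)]
      simp
  have h8 : (n : ℝ) + 1 ≠ 0 := by positivity
  field_simp
  push_cast
  linear_combination γ (0 + k) * (-h6)

theorem jen_all {γ : ℕ → ℝ} {n0 : ℕ} (h : ∀ n, n0 ≤ n → OnlyRealZeros (jen γ 0 n)) (n : ℕ) :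
    OnlyRealZeros (jen γ 0 n) := by
  have key : ∀ d m : ℕ, OnlyRealZeros (jen γ 0 (m + d)) → OnlyRealZeros (jen γ 0 m) := by
    intro d
    induction d with
    | zero => intro m h; exact h
    | succ d ih => intro m h; exact ih m (jen_descent h)
  exact key n0 n (h _ (by omega))

end Pool.Agent.Q163.LP
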