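import Pool.Agent.Q163.LP.PS
import Pool.Agent.Q163.LP.Key

/-!
# The polynomials `∑ C(n,k) (-x/n)^k / (k!)²` and their critical points
-/

open Polynomial Filter Topology Set
open Pool.Agent.Helper771.MultSeq

namespace Pool.Agent.Q163.LP

/-- the coefficients -/
noncomputable def ac (n k : ℕ) : ℝ := (-1) ^ k * (n.choose k : ℝ) / n ^ k / (k.factorial : ℝ) ^ 2

/-- the polynomial -/
noncomputable def gp (n : ℕ) : ℝ[X] := ∑ k ∈ Finset.range (n + 1), monomial k (ac n k)

lemma coeff_gp (n k : ℕ) : (gp n).coeff k = ac n k := by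
  unfold gp
  rw [finsetSum_coeff]
  simp only [coeff_monomial]
  rw [Finset.sum_ite_eq' (Finset.range (n + 1)) k]
  split_ifs with h
  · rfl
  · unfold ac
    rw [Nat.choose_eq_zero_of_lt (by simpa using h)]
    simp

lemma ac_zero (n : ℕ) : ac n 0 = 1 := by simp [ac]

lemma ac_pos {n k : ℕ} (hn : 0 < n) (hk : k ≤ n) : 0 < (-1) ^ k * ac n k := by
  unfold ac
  have h1 : ((-1 : ℝ) ^ k) * (-1) ^ k = 1 := by rw [← mul_pow]; simp
  have h2 : (0 : ℝ) < n.choose k := by exact_mod_cast Nat.choose_pos hk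
  have h3 : (0 : ℝ) < n := by exact_mod_cast hn
  have e : (-1 : ℝ) ^ k * ((-1) ^ k * (n.choose k : ℝ) / n ^ k / (k.factorial : ℝ) ^ 2) =
      ((-1 : ℝ) ^ k * (-1) ^ k) * ((n.choose k : ℝ) / n ^ k / (k.factorial : ℝ) ^ 2) := by ring
  rw [e, h1, one_mul]
  positivity

lemma gp_natDegree {n : ℕ} (hn : 0 < n) : (gp n).natDegree = n := by
  apply le_antisymm
  · rw [natDegree_le_iff_coeff_eq_zero]
    intro k hk
    rw [coeff_gp]
    unfold ac
    rw [Nat.choose_eq_zero_of_lt hk]
    simp
  · apply le_natDegree_of_ne_zero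
    rw [coeff_gp]
    intro h
    have := ac_pos hn (le_refl n)
    rw [h, mul_zero] at this
    exact lt_irrefl _ this

lemma ac_succ {n : ℕ} (hn : 0 < n) (k : ℕ) :
    ((k : ℝ) + 1) ^ 3 * ac n (k + 1) = -(1 - (k : ℝ) / n) * ac n k := by
  unfold ac
  have h1 : (n.choose (k + 1) : ℝ) * (k + 1) = n.choose k * (n - k) := by
    by_cases hk : k ≤ n
    · have := Nat.choose_succ_right_eq n k
      have h2 : ((n.choose (k + 1) * (k + 1) : ℕ) : ℝ) = ((n.choose k * (n - k) : ℕ) : ℝ) := by
        rw [this]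
      push_cast [Nat.cast_sub hk] at h2
      exact h2
    · rw [Nat.choose_eq_zero_of_lt (by omega), Nat.choose_eq_zero_of_lt (by omega)]
      simp
  have hn0 : (n : ℝ) ≠ 0 := by exact_mod_cast hn.ne'
  have hf : (k.factorial : ℝ) ≠ 0 := by exact_mod_cast k.factorial_ne_zero
  have hk1 : (k : ℝ) + 1 ≠ 0 := by positivity
  rw [Nat.factorial_succ]
  push_cast
  have e : (n.choose (k + 1) : ℝ) = n.choose k * (n - k) / (k + 1) := by
    rw [eq_div_iff hk1]
    exact h1
  rw [e, pow_succ (-1 : ℝ) k, pow_succ (n : ℝ) k]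
  field_simp

/-- `θ = X d/dX` -/
noncomputable def th (p : ℝ[X]) : ℝ[X] := X * derivative p

lemma coeff_th (p : ℝ[X]) (k : ℕ) : (th p).coeff k = k * p.coeff k := by
  unfold th
  cases k with
  | zero => simp
  | succ k =>
    rw [coeff_X_mul, coeff_derivative]
    push_cast
    ring

lemma gp_ode {n : ℕ} (hn : 0 < n) :
    th (th (th (gp n))) = -(X * gp n) + C (1 / (n : ℝ)) * (X * th (gp n)) := by
  ext k
  rw [coeff_th, coeff_th, coeff_th, coeff_add, coeff_neg, coeff_C_mul]
  cases k with
  | zero => simp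
  | succ k =>
    rw [coeff_X_mul, coeff_X_mul, coeff_th, coeff_gp, coeff_gp]
    have := ac_succ hn k
    push_cast
    linear_combination this

lemma eval_th_deriv (p : ℝ[X]) (t : ℝ) :
    HasDerivAt (fun t => p.eval (Real.exp t)) ((th p).eval (Real.exp t)) t := by
  have h1 := (p.hasDerivAt (Real.exp t)).comp t (Real.hasDerivAt_exp t)
  refine h1.congr_deriv ?_
  unfold th
  rw [eval_mul, eval_X, mul_comm]

lemma gp_sys {n : ℕ} (hn : 0 < n) : Sys (1 / (n : ℝ)) (fun t => (gp n).eval (Real.exp t))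
    (fun t => (th (gp n)).eval (Real.exp t)) (fun t => (th (th (gp n))).eval (Real.exp t)) where
  h0 t := eval_th_deriv _ t
  h1 t := eval_th_deriv _ t
  h2 t := by
    refine (eval_th_deriv _ t).congr_deriv ?_
    rw [gp_ode hn, eval_add, eval_neg, eval_mul, eval_X, eval_mul, eval_C, eval_mul, eval_X]
    ring

/-- real-rootedness -/
lemma gp_orz (n : ℕ) (hn : 0 < n) : OnlyRealZeros (gp n) := by
  have hn0 : (n : ℝ) ≠ 0 := by exact_mod_cast hn.ne'
  have h1 : OnlyRealZeros (((1 + X : ℝ[X]) ^ n).comp (C (-1 / (n : ℝ)) * X)) := by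
    right
    intro z hz
    rw [pow_comp, add_comp, one_comp, X_comp, map_pow, map_add, map_one, map_mul, aeval_C,
      aeval_X] at hz
    have h2 := pow_eq_zero_iff'.1 hz
    have h3 := congrArg Complex.im h2.1
    rw [Complex.add_im, Complex.one_im, zero_add, Complex.zero_im, Complex.coe_algebraMap,
      Complex.im_ofReal_mul] at h3
    rcases mul_eq_zero.1 h3 with h | h
    · exfalso
      rcases div_eq_zero_iff.1 h with h | h
      · norm_num at h
      · exact hn0 h
    · exact h
  have h2 := ms_invfact _ (ms_invfact _ h1)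
  convert h2 using 1
  ext k
  rw [act_eq, act_eq, comp_C_mul_X_coeff, coeff_one_add_X_pow, coeff_gp]
  unfold ac
  have hf : (k.factorial : ℝ) ≠ 0 := by exact_mod_cast k.factorial_ne_zero
  have hnk : (n : ℝ) ^ k ≠ 0 := pow_ne_zero _ hn0
  rw [div_pow]
  field_simp

lemma gp_eval_zero (n : ℕ) : (gp n).eval 0 = 1 := by
  rw [← coeff_zero_eq_eval_zero, coeff_gp, ac_zero]

lemma gp_ne_zero (n : ℕ) : gp n ≠ 0 := by
  intro h
  have := gp_eval_zero n
  rw [h, eval_zero] at this
  norm_num at this

lemma gp_eval (n : ℕ) (x : ℝ) : (gp n).eval x = ∑ k ∈ Finset.range (n + 1), ac n k * x ^ k := by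
  unfold gp
  rw [eval_finsetSum]
  simp only [eval_monomial]

lemma gp_pos_of_nonpos {n : ℕ} (hn : 0 < n) {x : ℝ} (hx : x ≤ 0) : 0 < (gp n).eval x := by
  rw [gp_eval]
  apply Finset.sum_pos'
  · intro k hk
    have h1 := ac_pos hn (Nat.lt_succ_iff.1 (Finset.mem_range.1 hk))
    have h2 : (0 : ℝ) ≤ (-x) ^ k := pow_nonneg (by linarith) k
    have h3 : ac n k * x ^ k = ((-1) ^ k * ac n k) * (-x) ^ k := by
      rw [neg_pow x k]
      have : ((-1 : ℝ) ^ k) * (-1) ^ k = 1 := by rw [← mul_pow]; simp
      linear_combination (-ac n k * x ^ k) * this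
    rw [h3]
    positivity
  · refine ⟨0, Finset.mem_range.2 (by omega), ?_⟩
    rw [ac_zero]
    simp

/-- the polynomial `θg θ²g + x g²/2` -/
noncomputable def phi (n : ℕ) : ℝ[X] :=
  th (gp n) * th (th (gp n)) + C (1 / 2) * (X * gp n ^ 2)

lemma phi_deriv {n : ℕ} (hn : 0 < n) (x : ℝ) : x * (derivative (phi n)).eval x =
    (th (th (gp n))).eval x ^ 2 + 1 / (n : ℝ) * x * (th (gp n)).eval x ^ 2 +
      x * (gp n).eval x ^ 2 / 2 := by
  have h1 : ∀ p : ℝ[X], x * (derivative p).eval x = (th p).eval x := by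
    intro p
    unfold th
    rw [eval_mul, eval_X]
  have h2 : (th (th (th (gp n)))).eval x = -(x * (gp n).eval x) +
      1 / (n : ℝ) * (x * (th (gp n)).eval x) := by
    rw [gp_ode hn, eval_add, eval_neg, eval_mul, eval_X, eval_mul, eval_C, eval_mul, eval_X]
  unfold phi
  rw [derivative_add, derivative_mul, derivative_C_mul, derivative_mul, derivative_X,
    derivative_pow]
  simp only [eval_add, eval_mul, eval_pow, eval_C, eval_X, eval_one, eval_natCast]
  have e1 := h1 (th (gp n))
  have e2 := h1 (th (th (gp n)))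
  have e3 := h1 (gp n)
  rw [h2] at e2
  push_cast
  linear_combination (th (th (gp n))).eval x * e1 + (th (gp n)).eval x * e2 +
    x * (gp n).eval x * e3

lemma phi_pos {n : ℕ} (hn : 0 < n) {x : ℝ} (hx : 0 < x) : 0 < (phi n).eval x := by
  have hn0 : (0 : ℝ) < n := by exact_mod_cast hn
  have hd : ∀ y, 0 < y → 0 ≤ (derivative (phi n)).eval y := by
    intro y hy
    have h1 := phi_deriv hn y
    have h2 : 0 ≤ y * (derivative (phi n)).eval y := by
      rw [h1]
      positivity
    by_contra hcon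
    push Not at hcon
    have := mul_neg_of_pos_of_neg hy hcon
    linarith
  have hmono : MonotoneOn (fun y => (phi n).eval y) (Ici 0) := by
    apply monotoneOn_of_deriv_nonneg (convex_Ici 0)
    · exact (phi n).continuous.continuousOn
    · exact (phi n).differentiable.differentiableOn
    · intro y hy
      rw [interior_Ici] at hy
      rw [Polynomial.deriv]
      exact hd y hy
  -- positivity near `0`
  have h0 : (phi n).eval 0 = 0 := by
    unfold phi th
    simp
  have h1 : (derivative (phi n)).eval 0 = 1 / 2 := by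
    have : (phi n).coeff 1 = 1 / 2 := by
      unfold phi
      rw [coeff_add, coeff_C_mul]
      have e1 : (th (gp n) * th (th (gp n))).coeff 1 = 0 := by
        unfold th
        rw [show X * derivative (gp n) * (X * derivative (X * derivative (gp n))) =
          X * (X * (derivative (gp n) * derivative (X * derivative (gp n)))) by ring]
        rw [coeff_X_mul, coeff_X_mul_zero]
      have e2 : (X * gp n ^ 2).coeff 1 = 1 := by
        rw [coeff_X_mul, coeff_zero_eq_eval_zero, eval_pow, gp_eval_zero]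
        norm_num
      rw [e1, e2]
      norm_num
    rw [← coeff_zero_eq_eval_zero, coeff_derivative, this]
    norm_num
  have h2 : HasDerivAt (fun y => (phi n).eval y) (1 / 2) 0 := by
    have := (phi n).hasDerivAt 0
    rw [h1] at this
    exact this
  obtain ⟨y, hy0, hyx, hyp⟩ : ∃ y, 0 < y ∧ y ≤ x ∧ 0 < (phi n).eval y := by
    have h3 := h2.tendsto_slope
    have h4 : ∀ᶠ y in 𝓝[≠] (0 : ℝ), 0 < slope (fun y => (phi n).eval y) 0 y :=
      h3.eventually (lt_mem_nhds (by norm_num))
    have h5 : ∀ᶠ y in 𝓝[>] (0 : ℝ), 0 < slope (fun y => (phi n).eval y) 0 y :=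
      h4.filter_mono (nhdsWithin_mono _ (fun y hy => ne_of_gt hy))
    obtain ⟨y, hy1, hy2⟩ := (h5.and (Ioo_mem_nhdsGT hx)).exists
    refine ⟨y, hy2.1, hy2.2.le, ?_⟩
    rw [slope_def_field, h0, sub_zero, sub_zero] at hy1
    by_contra hcon
    have := div_nonpos_of_nonpos_of_nonneg (not_lt.1 hcon) hy2.1.le
    linarith
  exact lt_of_lt_of_le hyp (hmono (mem_Ici.2 hy0.le) (mem_Ici.2 hx.le) hyx)

/-- simple zeros -/
lemma gp_simple {n : ℕ} (hn : 0 < n) {x : ℝ} (hx : (gp n).eval x = 0) :
    (derivative (gp n)).eval x ≠ 0 := by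
  intro h
  have hx0 : 0 < x := by
    by_contra hcon
    have := gp_pos_of_nonpos hn (not_lt.1 hcon)
    linarith
  have h1 := phi_pos hn hx0
  unfold phi at h1
  have h2 : (th (gp n)).eval x = 0 := by
    unfold th
    rw [eval_mul, h, mul_zero]
  rw [eval_add, eval_mul, h2, eval_mul, eval_mul, eval_pow, hx] at h1
  simp at h1

lemma gp_roots_card {n : ℕ} (hn : 0 < n) : (gp n).roots.card = n := by
  obtain ⟨s, hs, hprod, _⟩ := orz_roots (gp_ne_zero n) (gp_orz n hn)
  have h1 : (gp n).roots = s := by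
    rw [hprod, roots_C_mul, roots_multiset_prod_X_sub_C]
    exact leadingCoeff_ne_zero.2 (gp_ne_zero n)
  rw [h1, hs, gp_natDegree hn]

lemma gp_roots_nodup {n : ℕ} (hn : 0 < n) : (gp n).roots.Nodup := by
  rw [Multiset.nodup_iff_count_le_one]
  intro a
  by_contra hcon
  push Not at hcon
  rw [count_roots, one_lt_rootMultiplicity_iff_isRoot (gp_ne_zero n)] at hcon
  exact gp_simple hn hcon.1 hcon.2

lemma gp_roots_toFinset_card {n : ℕ} (hn : 0 < n) : (gp n).roots.toFinset.card = n := by
  rw [Multiset.toFinset_card_of_nodup (gp_roots_nodup hn), gp_roots_card hn]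

/-- the ordered zeros -/
lemma exists_zeros {n : ℕ} (hn : 0 < n) : ∃ y : ℕ → ℝ, (∀ i j, i < j → j < n → y i < y j) ∧
    (∀ i < n, (gp n).eval (y i) = 0 ∧ 0 < y i) ∧
    (∀ x, (gp n).eval x = ∏ i ∈ Finset.range n, (1 - x / y i)) := by
  set e := (gp n).roots.toFinset.orderEmbOfFin (gp_roots_toFinset_card hn) with he
  set y : ℕ → ℝ := fun i => if h : i < n then e ⟨i, h⟩ else 0 with hy
  have hyi : ∀ i (h : i < n), y i = e ⟨i, h⟩ := fun i h => dif_pos h
  have hroot : ∀ i < n, (gp n).eval (y i) = 0 := by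
    intro i hi
    rw [hyi i hi]
    have := Finset.orderEmbOfFin_mem (gp n).roots.toFinset (gp_roots_toFinset_card hn) ⟨i, hi⟩
    rw [Multiset.mem_toFinset, mem_roots (gp_ne_zero n)] at this
    exact this
  have hpos : ∀ i < n, 0 < y i := by
    intro i hi
    by_contra hcon
    have := gp_pos_of_nonpos hn (not_lt.1 hcon)
    linarith [hroot i hi]
  refine ⟨y, ?_, fun i hi => ⟨hroot i hi, hpos i hi⟩, ?_⟩
  · intro i j hij hj
    rw [hyi i (hij.trans hj), hyi j hj]
    exact e.strictMono hij
  · intro x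
    have himg : Finset.univ.image (fun i : Fin n => e i) = (gp n).roots.toFinset := by
      rw [he]
      ext r
      rw [Finset.mem_image]
      constructor
      · rintro ⟨i, _, rfl⟩
        exact Finset.orderEmbOfFin_mem _ _ _
      · intro hr
        have := Finset.range_orderEmbOfFin (gp n).roots.toFinset (gp_roots_toFinset_card hn)
        have h2 : r ∈ Set.range ((gp n).roots.toFinset.orderEmbOfFin (gp_roots_toFinset_card hn)) := by
          rw [this]
          exact hr
        obtain ⟨i, hi⟩ := h2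
        exact ⟨i, Finset.mem_univ _, hi⟩
    have hfac : gp n = C (gp n).leadingCoeff * ∏ i ∈ Finset.range n, (X - C (y i)) := by
      have h1 := C_leadingCoeff_mul_prod_multiset_X_sub_C (p := gp n)
        (by rw [gp_roots_card hn, gp_natDegree hn])
      rw [← h1]
      congr 1
      · rw [h1]
      · have h2 : (gp n).roots = (gp n).roots.toFinset.val := by
          rw [Multiset.toFinset_val, Multiset.dedup_eq_self.2 (gp_roots_nodup hn)]
        rw [h2]
        show ∏ a ∈ (gp n).roots.toFinset, (X - C a) = _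
        rw [← himg, Finset.prod_image (fun a _ b _ hab => e.injective hab)]
        rw [Finset.prod_range]
        refine Finset.prod_congr rfl fun i _ => ?_
        rw [hyi i i.2]
    have h0 := gp_eval_zero n
    have h1 : ∀ x, (gp n).eval x = (gp n).leadingCoeff * ∏ i ∈ Finset.range n, (x - y i) := by
      intro x
      conv_lhs => rw [hfac]
      rw [eval_mul, eval_C, eval_prod]
      simp only [eval_sub, eval_X, eval_C]
    rw [h1 0] at h0
    have h2 : (∏ i ∈ Finset.range n, (0 - y i)) ≠ 0 := by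
      intro h
      rw [h, mul_zero] at h0
      norm_num at h0
    have h3 : ∏ i ∈ Finset.range n, (1 - x / y i) =
        (∏ i ∈ Finset.range n, (x - y i)) / ∏ i ∈ Finset.range n, (0 - y i) := by
      rw [← Finset.prod_div_distrib]
      refine Finset.prod_congr rfl fun i hi => ?_
      have := (hpos i (Finset.mem_range.1 hi)).ne'
      field_simp
      ring
    rw [h1, h3, eq_div_iff h2]
    linear_combination (∏ i ∈ Finset.range n, (x - y i)) * h0

end Pool.Agent.Q163.LP
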