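import Pool.Agent.Q163.LP.Lim

/-!
# Bernstein multipliers over the confluent series `∑ (-x)^k / (k! (α+1)_k)`

If `μ` is a positive mixture of the sequences `k ↦ 1 - λ^k`, then `(A + μ(k+c))/(α+1)_k` is a
multiplier sequence for `A ≥ 0`, `α > -1`, `c ≥ α`, `4c ≥ 2α+1`.
-/

open Polynomial Filter Topology Set
open Pool.Agent.Helper771.MultSeq

namespace Pool.Agent.Q163.LP

/-- `(α+1)_k` -/
noncomputable def po (α : ℝ) (k : ℕ) : ℝ := ∏ i ∈ Finset.range k, (α + 1 + i)

lemma po_pos {α : ℝ} (hα : -1 < α) (k : ℕ) : 0 < po α k := by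
  unfold po
  apply Finset.prod_pos
  intro i _
  have : (0 : ℝ) ≤ i := by positivity
  linarith

lemma po_succ (α : ℝ) (k : ℕ) : po α (k + 1) = po α k * (α + 1 + k) := by
  unfold po
  rw [Finset.prod_range_succ]

lemma po_zero (α : ℝ) : po α 0 = 1 := by simp [po]

lemma po_add (α : ℝ) (M k : ℕ) :
    po α (M + k) = po α M * ∏ j ∈ Finset.range k, (α + 1 + M + j) := by
  unfold po
  rw [Finset.prod_range_add]
  congr 1
  refine Finset.prod_congr rfl fun j _ => ?_
  push_cast
  ring

theorem ms_invpo {α : ℝ} (hα : -1 < α) : IsMultiplierSequence (fun k => 1 / po α k) := by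
  have hpos : ∀ M : ℕ, 0 < α + 1 + M := fun M => by
    have : (0 : ℝ) ≤ M := by positivity
    linarith
  refine ms_of_tendsto (γ := fun M k =>
    (1 / po α M * (1 / (α + 1 + M)) ^ k) * ∏ i ∈ Finset.range M, ((α + 1 + i) + 1 * k)) ?_ ?_
  · intro M
    apply ms_mul
    · exact ms_geom _ (by have := hpos M; positivity)
    · exact ms_prod M (fun i k => (α + 1 + i) + 1 * k) (fun i => ms_lin (hpos i).le zero_le_one)
  · intro k
    have h1 : ∀ M : ℕ, ∏ i ∈ Finset.range M, ((α + 1 + i) + 1 * (k : ℝ)) =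
        po α (M + k) / po α k := by
      intro M
      rw [add_comm M k, po_add, mul_div_cancel_left₀ _ (po_pos hα k).ne']
      refine Finset.prod_congr rfl fun i _ => ?_
      ring
    have h2 : ∀ M : ℕ, (1 / po α M * (1 / (α + 1 + M)) ^ k) *
        ∏ i ∈ Finset.range M, ((α + 1 + i) + 1 * (k : ℝ)) =
        (∏ j ∈ Finset.range k, ((α + 1 + M + j) / (α + 1 + M))) * (1 / po α k) := by
      intro M
      rw [h1, po_add, Finset.prod_div_distrib, Finset.prod_const, Finset.card_range, one_div_pow]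
      have h3 := (po_pos hα M).ne'
      have h4 := (hpos M).ne'
      field_simp
    simp_rw [h2]
    have h4 : Tendsto (fun M : ℕ => ∏ j ∈ Finset.range k, ((α + 1 + M + j) / (α + 1 + M))) atTop
        (𝓝 (∏ j ∈ Finset.range k, (1 : ℝ))) := by
      apply tendsto_finsetProd
      intro j _
      have h6 : Tendsto (fun M : ℕ => (α + 1 + (M : ℝ))⁻¹) atTop (𝓝 0) := by
        apply tendsto_inv_atTop_zero.comp
        apply tendsto_atTop_add_const_left
        exact tendsto_natCast_atTop_atTop
      have h5 : Tendsto (fun M : ℕ => 1 + (j : ℝ) * (α + 1 + (M : ℝ))⁻¹) atTop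
          (𝓝 (1 + (j : ℝ) * 0)) := tendsto_const_nhds.add (h6.const_mul _)
      rw [mul_zero, add_zero] at h5
      refine h5.congr fun M => ?_
      have := (hpos M).ne'
      field_simp
    rw [Finset.prod_const_one] at h4
    have h6 := h4.mul_const (1 / po α k)
    rwa [one_mul] at h6

/-- the coefficients -/
noncomputable def lc (α : ℝ) (n k : ℕ) : ℝ := (-1) ^ k * (n.choose k : ℝ) / po α k

/-- a multiple of the Laguerre polynomial -/
noncomputable def Lq (α : ℝ) (n : ℕ) : ℝ[X] := ∑ k ∈ Finset.range (n + 1), monomial k (lc α n k)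

lemma coeff_Lq (α : ℝ) (n k : ℕ) : (Lq α n).coeff k = lc α n k := by
  unfold Lq
  rw [finsetSum_coeff]
  simp only [coeff_monomial]
  rw [Finset.sum_ite_eq' (Finset.range (n + 1)) k]
  split_ifs with h
  · rfl
  · unfold lc
    rw [Nat.choose_eq_zero_of_lt (by simpa using h)]
    simp

lemma lc_zero (α : ℝ) (n : ℕ) : lc α n 0 = 1 := by simp [lc, po]

lemma lc_pos {α : ℝ} (hα : -1 < α) {n k : ℕ} (hk : k ≤ n) : 0 < (-1) ^ k * lc α n k := by
  unfold lc
  have h1 : ((-1 : ℝ) ^ k) * (-1) ^ k = 1 := by rw [← mul_pow]; simp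
  have h2 : (0 : ℝ) < n.choose k := by exact_mod_cast Nat.choose_pos hk
  have h3 := po_pos hα k
  have e : (-1 : ℝ) ^ k * ((-1) ^ k * (n.choose k : ℝ) / po α k) =
      ((-1 : ℝ) ^ k * (-1) ^ k) * ((n.choose k : ℝ) / po α k) := by ring
  rw [e, h1, one_mul]
  positivity

lemma Lq_natDegree {α : ℝ} (hα : -1 < α) (n : ℕ) : (Lq α n).natDegree = n := by
  apply le_antisymm
  · rw [natDegree_le_iff_coeff_eq_zero]
    intro k hk
    rw [coeff_Lq]
    unfold lc
    rw [Nat.choose_eq_zero_of_lt hk]
    simp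
  · apply le_natDegree_of_ne_zero
    rw [coeff_Lq]
    intro h
    have := lc_pos hα (le_refl n)
    rw [h, mul_zero] at this
    exact lt_irrefl _ this

lemma lc_succ {α : ℝ} (hα : -1 < α) (n k : ℕ) :
    ((k : ℝ) + 1) * (α + 1 + k) * lc α n (k + 1) = -((n : ℝ) - k) * lc α n k := by
  unfold lc
  have h1 : (n.choose (k + 1) : ℝ) * (k + 1) = n.choose k * (n - k) := by
    by_cases hk : k ≤ n
    · have := Nat.choose_succ_right_eq n k
      have h2 : ((n.choose (k + 1) * (k + 1) : ℕ) : ℝ) = ((n.choose k * (n - k) : ℕ) : ℝ) := by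
        rw [this]
      push_cast [Nat.cast_sub hk] at h2
      exact h2
    · rw [Nat.choose_eq_zero_of_lt (by omega), Nat.choose_eq_zero_of_lt (by omega)]
      simp
  have hk1 : (k : ℝ) + 1 ≠ 0 := by positivity
  have hk2 : α + 1 + k ≠ 0 := by
    have : (0 : ℝ) ≤ k := by positivity
    linarith
  have hp := (po_pos hα k).ne'
  rw [po_succ]
  have e : (n.choose (k + 1) : ℝ) = n.choose k * (n - k) / (k + 1) := by
    rw [eq_div_iff hk1]
    exact h1
  rw [e, pow_succ (-1 : ℝ) k]
  field_simp

lemma Lq_ode {α : ℝ} (hα : -1 < α) (n : ℕ) :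
    th (th (Lq α n)) + C α * th (Lq α n) = X * (th (Lq α n) - C (n : ℝ) * Lq α n) := by
  ext k
  rw [coeff_add, coeff_C_mul, coeff_th, coeff_th]
  cases k with
  | zero => simp
  | succ k =>
    rw [coeff_X_mul, coeff_sub, coeff_C_mul, coeff_th, coeff_Lq, coeff_Lq]
    have := lc_succ hα n k
    push_cast
    linear_combination this

lemma Lq_orz {α : ℝ} (hα : -1 < α) (n : ℕ) : OnlyRealZeros (Lq α n) := by
  have h1 : OnlyRealZeros (((1 + X : ℝ[X]) ^ n).comp (C (-1) * X)) := by
    right
    intro z hz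
    rw [pow_comp, add_comp, one_comp, X_comp, map_pow, map_add, map_one, map_mul, aeval_C,
      aeval_X] at hz
    have h2 := pow_eq_zero_iff'.1 hz
    have h3 := congrArg Complex.im h2.1
    rw [Complex.add_im, Complex.one_im, zero_add, Complex.zero_im, Complex.coe_algebraMap,
      Complex.im_ofReal_mul] at h3
    linarith
  have h2 := ms_invpo hα _ h1
  convert h2 using 1
  ext k
  rw [act_eq, comp_C_mul_X_coeff, coeff_one_add_X_pow, coeff_Lq]
  unfold lc
  ring

lemma Lq_eval_zero (α : ℝ) (n : ℕ) : (Lq α n).eval 0 = 1 := by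
  rw [← coeff_zero_eq_eval_zero, coeff_Lq, lc_zero]

lemma Lq_ne_zero (α : ℝ) (n : ℕ) : Lq α n ≠ 0 := by
  intro h
  have := Lq_eval_zero α n
  rw [h, eval_zero] at this
  norm_num at this

lemma Lq_eval (α : ℝ) (n : ℕ) (x : ℝ) :
    (Lq α n).eval x = ∑ k ∈ Finset.range (n + 1), lc α n k * x ^ k := by
  unfold Lq
  rw [eval_finsetSum]
  simp only [eval_monomial]

lemma Lq_pos_of_nonpos {α : ℝ} (hα : -1 < α) (n : ℕ) {x : ℝ} (hx : x ≤ 0) :
    0 < (Lq α n).eval x := by
  rw [Lq_eval]
  apply Finset.sum_pos'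
  · intro k hk
    have h1 := lc_pos hα (Nat.lt_succ_iff.1 (Finset.mem_range.1 hk))
    have h2 : (0 : ℝ) ≤ (-x) ^ k := pow_nonneg (by linarith) k
    have h3 : lc α n k * x ^ k = ((-1) ^ k * lc α n k) * (-x) ^ k := by
      rw [neg_pow x k]
      have : ((-1 : ℝ) ^ k) * (-1) ^ k = 1 := by rw [← mul_pow]; simp
      linear_combination (-lc α n k * x ^ k) * this
    rw [h3]
    positivity
  · refine ⟨0, Finset.mem_range.2 (by omega), ?_⟩
    rw [lc_zero]
    simp

/-- `X^c L` -/
noncomputable def Gq (α : ℝ) (c n : ℕ) : ℝ[X] := X ^ c * Lq α n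

lemma th_X_pow_mul (c : ℕ) (p : ℝ[X]) : th (X ^ c * p) = X ^ c * (th p + C (c : ℝ) * p) := by
  ext k
  rw [coeff_th, coeff_X_pow_mul', coeff_X_pow_mul']
  split_ifs with h
  · rw [coeff_add, coeff_th, coeff_C_mul, Nat.cast_sub h]
    ring
  · simp

lemma th_add (p q : ℝ[X]) : th (p + q) = th p + th q := by
  unfold th; rw [derivative_add, mul_add]

lemma th_C_mul (a : ℝ) (p : ℝ[X]) : th (C a * p) = C a * th p := by
  unfold th; rw [derivative_C_mul]; ring

lemma Gq_ode {α : ℝ} (hα : -1 < α) (c n : ℕ) :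
    th (th (Gq α c n)) = (C (2 * c - α) + X) * th (Gq α c n) -
      (C (c * (c - α)) + C ((n : ℝ) + c) * X) * Gq α c n := by
  unfold Gq
  rw [th_X_pow_mul, th_X_pow_mul, th_add, th_C_mul]
  have h := Lq_ode hα n
  have e1 : (C (2 * (c : ℝ) - α) : ℝ[X]) = 2 * C (c : ℝ) - C α := by
    have h2 : (C (2 : ℝ) : ℝ[X]) = 2 := by
      rw [show (2 : ℝ) = ((2 : ℕ) : ℝ) by norm_num, C_eq_natCast]; norm_num
    rw [C_sub, C_mul, h2]
  have e2 : (C ((c : ℝ) * (c - α)) : ℝ[X]) = C (c : ℝ) * (C (c : ℝ) - C α) := by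
    rw [C_mul, C_sub]
  have e3 : (C ((n : ℝ) + c) : ℝ[X]) = C (n : ℝ) + C (c : ℝ) := by rw [C_add]
  rw [e1, e2, e3]
  linear_combination X ^ c * h

/-- Sonin's function -/
noncomputable def Sf (α : ℝ) (c n : ℕ) (y : ℝ) : ℝ :=
  (Gq α c n).eval y ^ 2 + (th (Gq α c n)).eval y ^ 2 / (c * (c - α) + ((n : ℝ) + c) * y)

lemma Sf_mono {α : ℝ} (hα : -1 < α) {c n : ℕ} (hn : 0 < n) (hc1 : α ≤ c) (hc2 : 2 * α + 1 ≤ 4 * c) :
    MonotoneOn (Sf α c n) (Ioi 0) := by
  have hn0 : (0 : ℝ) < n := by exact_mod_cast hn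
  have hc0 : (0 : ℝ) ≤ c := by positivity
  have hcc : 0 ≤ (c : ℝ) * (c - α) := mul_nonneg hc0 (by linarith)
  have hK : ∀ y, 0 < y → 0 < (c : ℝ) * (c - α) + ((n : ℝ) + c) * y := fun y hy => by positivity
  have hder : ∀ y, 0 < y → HasDerivAt (Sf α c n)
      (2 * (Gq α c n).eval y * (derivative (Gq α c n)).eval y +
        (2 * (th (Gq α c n)).eval y * (derivative (th (Gq α c n))).eval y *
          (c * (c - α) + ((n : ℝ) + c) * y) - (th (Gq α c n)).eval y ^ 2 * ((n : ℝ) + c)) /
          (c * (c - α) + ((n : ℝ) + c) * y) ^ 2) y := by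
    intro y hy
    have h1 := (Gq α c n).hasDerivAt y
    have h2 := (th (Gq α c n)).hasDerivAt y
    have h3 : HasDerivAt (fun y : ℝ => c * (c - α) + ((n : ℝ) + c) * y) ((n : ℝ) + c) y := by
      have := ((hasDerivAt_id y).const_mul ((n : ℝ) + c)).const_add (c * (c - α))
      simpa using this
    have h4 := (h1.pow 2).add ((h2.pow 2).div h3 (hK y hy).ne')
    refine h4.congr_deriv ?_
    simp only [Pi.pow_apply]
    push_cast
    ring
  apply monotoneOn_of_deriv_nonneg (convex_Ioi 0)
  · exact fun y hy => (hder y hy).continuousAt.continuousWithinAt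
  · intro y hy
    exact (hder y (interior_subset hy)).differentiableAt.differentiableWithinAt
  · intro y hy
    have hy0 : 0 < y := interior_subset hy
    rw [(hder y hy0).deriv]
    have e0 : ∀ p : ℝ[X], (th p).eval y = y * (derivative p).eval y := by
      intro p
      unfold th
      rw [eval_mul, eval_X]
    have hode := congrArg (fun p => eval y p) (Gq_ode hα c n)
    simp only [eval_sub, eval_mul, eval_add, eval_C, eval_X] at hode
    rw [e0 (th (Gq α c n))] at hode
    set G := (Gq α c n).eval y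
    set G1 := (th (Gq α c n)).eval y with hG1
    set D0 := (derivative (Gq α c n)).eval y
    set D1 := (derivative (th (Gq α c n))).eval y
    set K := (c : ℝ) * (c - α) + ((n : ℝ) + c) * y with hKd
    have hG1' : G1 = y * D0 := e0 _
    have hKy := hK y hy0
    -- multiply by `y`
    have key : y * (2 * G * D0 + (2 * G1 * D1 * K - G1 ^ 2 * ((n : ℝ) + c)) / K ^ 2) =
        G1 ^ 2 * (2 * (2 * c - α) * (c * (c - α)) + ((n : ℝ) + c) * y * (4 * c - 2 * α - 1) +
          2 * (c * (c - α)) * y + 2 * ((n : ℝ) + c) * y ^ 2) / K ^ 2 := by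
      have e1 : y * (2 * G * D0) = 2 * G * G1 := by rw [hG1']; ring
      have e2 : y * D1 = (2 * c - α + y) * G1 - K * G := by rw [hKd]; linear_combination hode
      rw [mul_add, e1, mul_div_assoc', eq_div_iff (by positivity), add_mul,
        div_mul_cancel₀ _ (by positivity)]
      have e3 : y * (2 * G1 * D1 * K - G1 ^ 2 * ((n : ℝ) + c)) =
          2 * G1 * K * ((2 * c - α + y) * G1 - K * G) - y * G1 ^ 2 * ((n : ℝ) + c) := by
        linear_combination (2 * G1 * K) * e2
      rw [e3, hKd]
      ring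
    have hnn : 0 ≤ G1 ^ 2 * (2 * (2 * c - α) * (c * (c - α)) +
        ((n : ℝ) + c) * y * (4 * c - 2 * α - 1) + 2 * (c * (c - α)) * y +
          2 * ((n : ℝ) + c) * y ^ 2) / K ^ 2 := by
      have h1 : (0 : ℝ) ≤ 2 * c - α := by linarith
      have h2 : (0 : ℝ) ≤ 4 * c - 2 * α - 1 := by linarith
      have a1 : 0 ≤ 2 * (2 * (c : ℝ) - α) * (c * (c - α)) := by positivity
      have a2 : 0 ≤ ((n : ℝ) + c) * y * (4 * c - 2 * α - 1) := by positivity
      have a3 : 0 ≤ 2 * ((c : ℝ) * (c - α)) * y := by positivity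
      have a4 : 0 ≤ 2 * ((n : ℝ) + c) * y ^ 2 := by positivity
      apply div_nonneg _ (by positivity)
      apply mul_nonneg (sq_nonneg _)
      linarith
    rw [← key] at hnn
    by_contra hcon
    have := mul_neg_of_pos_of_neg hy0 (not_le.1 hcon)
    linarith

lemma Gq_le_Sf {α : ℝ} {c n : ℕ} (hn : 0 < n) (hc1 : α ≤ c) {y : ℝ} (hy : 0 < y) :
    (Gq α c n).eval y ^ 2 ≤ Sf α c n y := by
  have hn0 : (0 : ℝ) < n := by exact_mod_cast hn
  have hc0 : (0 : ℝ) ≤ c := by positivity
  have hcc : 0 ≤ (c : ℝ) * (c - α) := mul_nonneg hc0 (by linarith)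
  unfold Sf
  have : 0 ≤ (th (Gq α c n)).eval y ^ 2 / (c * (c - α) + ((n : ℝ) + c) * y) := by positivity
  linarith

/-- at a critical point the modulus is maximal so far -/
lemma crit_max {α : ℝ} (hα : -1 < α) {c n : ℕ} (hn : 0 < n) (hc1 : α ≤ c)
    (hc2 : 2 * α + 1 ≤ 4 * c) {x : ℝ} (hx : 0 < x) (hcrit : (derivative (Gq α c n)).eval x = 0)
    {y : ℝ} (hy0 : 0 ≤ y) (hyx : y ≤ x) : |(Gq α c n).eval y| ≤ |(Gq α c n).eval x| := by
  have hSx : Sf α c n x = (Gq α c n).eval x ^ 2 := by
    unfold Sf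
    have : (th (Gq α c n)).eval x = 0 := by
      unfold th
      rw [eval_mul, hcrit, mul_zero]
    rw [this]
    simp
  have hpos : ∀ y, 0 < y → y ≤ x → (Gq α c n).eval y ^ 2 ≤ (Gq α c n).eval x ^ 2 := by
    intro y hy hyx
    rw [← hSx]
    exact (Gq_le_Sf hn hc1 hy).trans (Sf_mono hα hn hc1 hc2 hy hx hyx)
  apply sq_le_sq.1
  rcases eq_or_lt_of_le hy0 with h | h
  · -- continuity at `0`
    rw [← h]
    have hcont : ContinuousWithinAt (fun y => (Gq α c n).eval y ^ 2) (Ioi 0) 0 :=
      ((Gq α c n).continuous.pow 2).continuousWithinAt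
    refine le_of_tendsto hcont ?_
    filter_upwards [Ioc_mem_nhdsGT hx] with y hy
    exact hpos y hy.1 hy.2
  · exact hpos y h hyx

lemma Lq_simple {α : ℝ} (hα : -1 < α) {c n : ℕ} (hn : 0 < n) (hc1 : α ≤ c)
    (hc2 : 2 * α + 1 ≤ 4 * c) {x : ℝ} (hx : (Lq α n).eval x = 0) :
    (derivative (Lq α n)).eval x ≠ 0 := by
  intro h
  have hx0 : 0 < x := by
    by_contra hcon
    have := Lq_pos_of_nonpos hα n (not_lt.1 hcon)
    linarith
  have hG : (Gq α c n).eval x = 0 := by
    unfold Gq
    rw [eval_mul, hx, mul_zero]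
  have hG' : (derivative (Gq α c n)).eval x = 0 := by
    unfold Gq
    rw [derivative_mul, eval_add, eval_mul, eval_mul, hx, h, mul_zero, mul_zero, add_zero]
  have hzero : ∀ y, 0 < y → y ≤ x → (Lq α n).eval y = 0 := by
    intro y hy hyx
    have h1 := crit_max hα hn hc1 hc2 hx0 hG' hy.le hyx
    rw [hG, abs_zero] at h1
    have h2 : (Gq α c n).eval y = 0 := abs_eq_zero.1 (le_antisymm h1 (abs_nonneg _))
    unfold Gq at h2
    rw [eval_mul, eval_pow, eval_X] at h2
    exact (mul_eq_zero.1 h2).resolve_left (pow_ne_zero _ hy.ne')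
  apply Lq_ne_zero α n
  apply Polynomial.eq_zero_of_infinite_isRoot
  refine (Ioc_infinite hx0).mono ?_
  intro y hy
  exact hzero y hy.1 hy.2

/-- the ordered zeros of a real-rooted polynomial with simple positive zeros -/
lemma exists_zeros' {p : ℝ[X]} {n : ℕ} (hdeg : p.natDegree = n) (h0 : p.eval 0 = 1)
    (horz : OnlyRealZeros p) (hsimple : ∀ x, p.eval x = 0 → (derivative p).eval x ≠ 0)
    (hposr : ∀ x, x ≤ 0 → 0 < p.eval x) :
    ∃ y : ℕ → ℝ, (∀ i j, i < j → j < n → y i < y j) ∧
    (∀ i < n, p.eval (y i) = 0 ∧ 0 < y i) ∧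
    (∀ x, p.eval x = ∏ i ∈ Finset.range n, (1 - x / y i)) := by
  have hp0 : p ≠ 0 := by
    intro h
    rw [h, eval_zero] at h0
    norm_num at h0
  have hrc : p.roots.card = n := by
    obtain ⟨s, hs, hprod, _⟩ := orz_roots hp0 horz
    have h1 : p.roots = s := by
      rw [hprod, roots_C_mul, roots_multiset_prod_X_sub_C]
      exact leadingCoeff_ne_zero.2 hp0
    rw [h1, hs, hdeg]
  have hnd : p.roots.Nodup := by
    rw [Multiset.nodup_iff_count_le_one]
    intro a
    by_contra hcon
    push Not at hcon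
    rw [count_roots, one_lt_rootMultiplicity_iff_isRoot hp0] at hcon
    exact hsimple a hcon.1 hcon.2
  have hcardf : p.roots.toFinset.card = n := by
    rw [Multiset.toFinset_card_of_nodup hnd, hrc]
  set e := p.roots.toFinset.orderEmbOfFin hcardf with he
  set y : ℕ → ℝ := fun i => if h : i < n then e ⟨i, h⟩ else 0 with hy
  have hyi : ∀ i (h : i < n), y i = e ⟨i, h⟩ := fun i h => dif_pos h
  have hroot : ∀ i < n, p.eval (y i) = 0 := by
    intro i hi
    rw [hyi i hi]
    have := Finset.orderEmbOfFin_mem p.roots.toFinset hcardf ⟨i, hi⟩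
    rw [Multiset.mem_toFinset, mem_roots hp0] at this
    exact this
  have hpos : ∀ i < n, 0 < y i := by
    intro i hi
    by_contra hcon
    have := hposr _ (not_lt.1 hcon)
    linarith [hroot i hi]
  refine ⟨y, ?_, fun i hi => ⟨hroot i hi, hpos i hi⟩, ?_⟩
  · intro i j hij hj
    rw [hyi i (hij.trans hj), hyi j hj]
    exact e.strictMono hij
  · intro x
    have himg : Finset.univ.image (fun i : Fin n => e i) = p.roots.toFinset := by
      rw [he]
      ext r
      rw [Finset.mem_image]
      constructor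
      · rintro ⟨i, _, rfl⟩
        exact Finset.orderEmbOfFin_mem _ _ _
      · intro hr
        have := Finset.range_orderEmbOfFin p.roots.toFinset hcardf
        have h2 : r ∈ Set.range (p.roots.toFinset.orderEmbOfFin hcardf) := by
          rw [this]
          exact hr
        obtain ⟨i, hi⟩ := h2
        exact ⟨i, Finset.mem_univ _, hi⟩
    have hfac : p = C p.leadingCoeff * ∏ i ∈ Finset.range n, (X - C (y i)) := by
      have h1 := C_leadingCoeff_mul_prod_multiset_X_sub_C (p := p) (by rw [hrc, hdeg])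
      rw [← h1]
      congr 1
      · rw [h1]
      · have h2 : p.roots = p.roots.toFinset.val := by
          rw [Multiset.toFinset_val, Multiset.dedup_eq_self.2 hnd]
        rw [h2]
        show ∏ a ∈ p.roots.toFinset, (X - C a) = _
        rw [← himg, Finset.prod_image (fun a _ b _ hab => e.injective hab)]
        rw [Finset.prod_range]
        refine Finset.prod_congr rfl fun i _ => ?_
        rw [hyi i i.2]
    have h1 : ∀ x, p.eval x = p.leadingCoeff * ∏ i ∈ Finset.range n, (x - y i) := by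
      intro x
      conv_lhs => rw [hfac]
      rw [eval_mul, eval_C, eval_prod]
      simp only [eval_sub, eval_X, eval_C]
    rw [h1 0] at h0
    have h2 : (∏ i ∈ Finset.range n, (0 - y i)) ≠ 0 := by
      intro h
      rw [h, mul_zero] at h0
      norm_num at h0
    have h3 : ∏ i ∈ Finset.range n, (1 - x / y i) =
        (∏ i ∈ Finset.range n, (x - y i)) / ∏ i ∈ Finset.range n, (0 - y i) := by
      rw [← Finset.prod_div_distrib]
      refine Finset.prod_congr rfl fun i hi => ?_
      have := (hpos i (Finset.mem_range.1 hi)).ne'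
      field_simp
      ring
    rw [h1, h3, eq_div_iff h2]
    linear_combination (∏ i ∈ Finset.range n, (x - y i)) * h0

lemma BernPos.shift {μ : ℕ → ℝ} (h : BernPos μ) (c n : ℕ) (a : ℕ → ℝ)
    (ha : ∀ lam ∈ Icc (0 : ℝ) 1, 0 ≤ ∑ k ∈ Finset.range (n + 1), a k * (1 - lam ^ (k + c))) :
    0 ≤ ∑ k ∈ Finset.range (n + 1), a k * μ (k + c) := by
  have key : ∀ f : ℕ → ℝ, ∑ j ∈ Finset.range (c + n + 1),
      (if j < c then 0 else a (j - c)) * f j = ∑ k ∈ Finset.range (n + 1), a k * f (k + c) := by
    intro f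
    rw [add_assoc, Finset.sum_range_add]
    have h1 : ∑ j ∈ Finset.range c, (if j < c then 0 else a (j - c)) * f j = 0 := by
      apply Finset.sum_eq_zero
      intro j hj
      rw [if_pos (Finset.mem_range.1 hj), zero_mul]
    rw [h1, zero_add]
    refine Finset.sum_congr rfl fun k _ => ?_
    rw [if_neg (by omega), show c + k - c = k by omega, add_comm c k]
  have h1 := h (c + n) (fun j => if j < c then 0 else a (j - c)) (by
    intro lam hlam
    rw [key (fun j => 1 - lam ^ j)]
    exact ha lam hlam)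
  rw [key μ] at h1
  exact h1

/-- the perturbed polynomial -/
noncomputable def pq (α : ℝ) (n : ℕ) (δ : ℕ → ℝ) : ℝ[X] :=
  ∑ k ∈ Finset.range (n + 1), monomial k (lc α n k * δ k)

lemma coeff_pq (α : ℝ) (n : ℕ) (δ : ℕ → ℝ) (k : ℕ) : (pq α n δ).coeff k = lc α n k * δ k := by
  unfold pq
  rw [finsetSum_coeff]
  simp only [coeff_monomial]
  rw [Finset.sum_ite_eq' (Finset.range (n + 1)) k]
  split_ifs with h
  · rfl
  · unfold lc
    rw [Nat.choose_eq_zero_of_lt (by simpa using h)]
    simp

lemma pq_eval (α : ℝ) (n : ℕ) (δ : ℕ → ℝ) (x : ℝ) :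
    (pq α n δ).eval x = ∑ k ∈ Finset.range (n + 1), lc α n k * δ k * x ^ k := by
  unfold pq
  rw [eval_finsetSum]
  simp only [eval_monomial]

lemma pq_natDegree_le (α : ℝ) (n : ℕ) (δ : ℕ → ℝ) : (pq α n δ).natDegree ≤ n := by
  rw [natDegree_le_iff_coeff_eq_zero]
  intro k hk
  rw [coeff_pq]
  unfold lc
  rw [Nat.choose_eq_zero_of_lt hk]
  simp

theorem pq_orz {α : ℝ} (hα : -1 < α) {c n : ℕ} (hn : 0 < n) (hc1 : α ≤ c)
    (hc2 : 2 * α + 1 ≤ 4 * c) {μ : ℕ → ℝ} (hμ : BernPos μ) {A : ℝ} (hA : 0 < A) :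
    OnlyRealZeros (pq α n (fun k => A + μ (k + c))) := by
  classical
  obtain ⟨y, hymono, hyroot, hyprod⟩ := exists_zeros' (Lq_natDegree hα n) (Lq_eval_zero α n)
    (Lq_orz hα n) (fun x hx => Lq_simple hα hn hc1 hc2 hx) (fun x hx => Lq_pos_of_nonpos hα n hx)
  -- sign of `L`
  have hsign : ∀ m, m < n → ∀ x, (∀ i < m, y i < x) → x < y m → 0 < (-1) ^ m * (Lq α n).eval x := by
    intro m hm x hx1 hx2
    rw [hyprod]
    apply prod_sign _ m n hm.le
    · intro i hi
      have h1 := (hyroot i (by omega)).2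
      rw [sub_neg, one_lt_div h1]
      exact hx1 i hi
    · intro i hi hin
      have h1 := (hyroot i hin).2
      have h2 : x < y i := by
        rcases Nat.lt_or_ge m i with h | h
        · exact hx2.trans (hymono m i h hin)
        · have : i = m := by omega
          rw [this]; exact hx2
      rw [sub_pos, div_lt_one h1]
      exact h2
  have hcont : Continuous fun x => (Gq α c n).eval x := (Gq α c n).continuous
  have hGroot : ∀ i < n, (Gq α c n).eval (y i) = 0 := by
    intro i hi
    unfold Gq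
    rw [eval_mul, (hyroot i hi).1, mul_zero]
  -- the critical points `w m`, `m < n`
  have hrolle : ∀ m, m < n → ∃ w, (∀ i < m, y i < w) ∧ w < y m ∧ 0 ≤ w ∧
      ((c = 0 ∧ m = 0 ∧ w = 0) ∨ (0 < w ∧ (derivative (Gq α c n)).eval w = 0)) := by
    intro m hm
    rcases Nat.eq_zero_or_pos m with h | h
    · subst h
      rcases Nat.eq_zero_or_pos c with h' | h'
      · exact ⟨0, fun i hi => by omega, (hyroot 0 hm).2, le_rfl, Or.inl ⟨h', rfl, rfl⟩⟩
      · obtain ⟨w, hw, hw0⟩ := exists_hasDerivAt_eq_zero (f := fun x => (Gq α c n).eval x)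
          (f' := fun x => (derivative (Gq α c n)).eval x) (hyroot 0 hm).2
          hcont.continuousOn (by
            rw [hGroot 0 hm]
            unfold Gq
            rw [eval_mul, eval_pow, eval_X, zero_pow (by omega), zero_mul])
          (fun x _ => (Gq α c n).hasDerivAt x)
        exact ⟨w, fun i hi => by omega, hw.2, hw.1.le, Or.inr ⟨hw.1, hw0⟩⟩
    · obtain ⟨w, hw, hw0⟩ := exists_hasDerivAt_eq_zero (f := fun x => (Gq α c n).eval x)
        (f' := fun x => (derivative (Gq α c n)).eval x) (hymono (m - 1) m (by omega) hm)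
        hcont.continuousOn (by
          rw [hGroot (m - 1) (by omega), hGroot m hm])
        (fun x _ => (Gq α c n).hasDerivAt x)
      have h1 := (hyroot (m - 1) (by omega)).2
      have hw1 := hw.1
      refine ⟨w, fun i hi => ?_, hw.2, by linarith, Or.inr ⟨by linarith, hw0⟩⟩
      rcases Nat.lt_or_ge i (m - 1) with h2 | h2
      · exact (hymono i (m - 1) h2 (by omega)).trans hw1
      · have : i = m - 1 := by omega
        rw [this]; exact hw1
  choose! w hw1 hw2 hw3 hw4 using hrolle
  set δ : ℕ → ℝ := fun k => A + μ (k + c) with hδ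
  have hδpos : ∀ k, 0 < δ k := fun k => by
    have := hμ.nonneg (k + c)
    rw [hδ]
    simp only
    linarith
  -- a far point
  have hlead : 0 < (-1) ^ n * (pq α n δ).coeff n := by
    rw [coeff_pq, ← mul_assoc]
    exact mul_pos (lc_pos hα le_rfl) (hδpos n)
  have hnd : (pq α n δ).natDegree = n := by
    apply le_antisymm (pq_natDegree_le _ _ _)
    apply le_natDegree_of_ne_zero
    intro h
    rw [h, mul_zero] at hlead
    exact lt_irrefl _ hlead
  obtain ⟨R, hR1, hR2⟩ : ∃ R, w (n - 1) < R ∧ 0 < (-1) ^ n * (pq α n δ).eval R := by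
    set q : ℝ[X] := C ((-1) ^ n) * pq α n δ with hq
    have hq1 : q.leadingCoeff = (-1) ^ n * (pq α n δ).coeff n := by
      rw [hq, leadingCoeff_mul, leadingCoeff_C, leadingCoeff, hnd]
    have hqd : 0 < q.degree := by
      rw [hq, degree_C_mul (by positivity : ((-1 : ℝ) ^ n) ≠ 0)]
      rw [← natDegree_pos_iff_degree_pos, hnd]
      exact hn
    have ht := q.tendsto_atTop_of_leadingCoeff_nonneg hqd (by rw [hq1]; exact hlead.le)
    obtain ⟨R, hR⟩ := ((ht.eventually_gt_atTop 0).and (eventually_gt_atTop (w (n - 1)))).exists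
    refine ⟨R, hR.2, ?_⟩
    have := hR.1
    rw [hq, eval_mul, eval_C] at this
    exact this
  apply orz_of_alt (pq_natDegree_le _ _ _) (fun i => if i < n then w i else R)
  · intro i hi
    rw [if_pos hi]
    rcases Nat.lt_or_ge (i + 1) n with h | h
    · rw [if_pos h]
      exact (hw2 i hi).trans (hw1 (i + 1) h i (by omega))
    · rw [if_neg (by omega)]
      have : i = n - 1 := by omega
      rw [this]
      exact hR1
  · intro i hi
    rcases Nat.lt_or_ge i n with h | h
    · rw [if_pos h]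
      rcases hw4 i h with ⟨_, hi0, hwi⟩ | ⟨hwpos, hwcrit⟩
      · rw [hwi, hi0, pow_zero, one_mul, ← coeff_zero_eq_eval_zero, coeff_pq, lc_zero, one_mul]
        exact hδpos 0
      · set x := w i with hx
        set σ : ℝ := (-1) ^ i with hσ
        have hs : 0 < σ * (Lq α n).eval x := hsign i h x (hw1 i h) (hw2 i h)
        have hxc : 0 < x ^ c := pow_pos hwpos c
        have hG : (Gq α c n).eval x = x ^ c * (Lq α n).eval x := by
          unfold Gq
          rw [eval_mul, eval_pow, eval_X]
        have hsG : 0 < σ * (Gq α c n).eval x := by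
          rw [hG]
          have := mul_pos hxc hs
          linarith
        have hσ1 : |σ| = 1 := by rw [hσ, abs_pow, abs_neg, abs_one, one_pow]
        have hb := hμ.shift c n (fun k => σ * (lc α n k * x ^ (k + c))) (by
          intro lam hlam
          have h1 : ∑ k ∈ Finset.range (n + 1), σ * (lc α n k * x ^ (k + c)) * (1 - lam ^ (k + c)) =
              σ * (Gq α c n).eval x - σ * (Gq α c n).eval (lam * x) := by
            have hG2 : ∀ t, (Gq α c n).eval t = ∑ k ∈ Finset.range (n + 1), lc α n k * t ^ (k + c) := by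
              intro t
              unfold Gq
              rw [eval_mul, eval_pow, eval_X, Lq_eval, Finset.mul_sum]
              refine Finset.sum_congr rfl fun k _ => ?_
              rw [pow_add]
              ring
            rw [hG2, hG2, Finset.mul_sum, Finset.mul_sum, ← Finset.sum_sub_distrib]
            refine Finset.sum_congr rfl fun k _ => ?_
            rw [mul_pow]
            ring
          rw [h1]
          have h2 := crit_max hα hn hc1 hc2 hwpos hwcrit (y := lam * x)
            (mul_nonneg hlam.1 hwpos.le) (by nlinarith [hlam.2])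
          have h3 : |(Gq α c n).eval x| = σ * (Gq α c n).eval x := by
            have : |σ * (Gq α c n).eval x| = |(Gq α c n).eval x| := by rw [abs_mul, hσ1, one_mul]
            rw [← this, abs_of_pos hsG]
          have h4 : σ * (Gq α c n).eval (lam * x) ≤ |(Gq α c n).eval (lam * x)| := by
            calc σ * (Gq α c n).eval (lam * x) ≤ |σ * (Gq α c n).eval (lam * x)| := le_abs_self _
              _ = |(Gq α c n).eval (lam * x)| := by rw [abs_mul, hσ1, one_mul]
          linarith)
        have h5 : x ^ c * (σ * (pq α n δ).eval x) = A * (x ^ c * (σ * (Lq α n).eval x)) +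
            ∑ k ∈ Finset.range (n + 1), σ * (lc α n k * x ^ (k + c)) * μ (k + c) := by
          rw [pq_eval, Lq_eval, Finset.mul_sum, Finset.mul_sum, Finset.mul_sum, Finset.mul_sum,
            Finset.mul_sum, ← Finset.sum_add_distrib]
          refine Finset.sum_congr rfl fun k _ => ?_
          rw [hδ, pow_add]
          ring
        have h6 : 0 < A * (x ^ c * (σ * (Lq α n).eval x)) := by positivity
        have h7 : 0 < x ^ c * (σ * (pq α n δ).eval x) := by
          rw [h5]
          linarith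
        exact (mul_pos_iff_of_pos_left hxc).1 h7
    · have : i = n := by omega
      rw [if_neg (by omega), this]
      exact hR2

/-- Bernstein type multipliers over `∑ (-x)^k/(k! (α+1)_k)`. -/
theorem ms_bern2 {α : ℝ} (hα : -1 < α) {c : ℕ} (hc1 : α ≤ c) (hc2 : 2 * α + 1 ≤ 4 * c)
    {μ : ℕ → ℝ} (hμ : BernPos μ) {A : ℝ} (hA : 0 ≤ A) :
    IsMultiplierSequence (fun k => (A + μ (k + c)) / po α k) := by
  have key : ∀ A : ℝ, 0 < A → IsMultiplierSequence (fun k => (A + μ (k + c)) / po α k) := by
    intro A hA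
    apply polya_schur_pos
    · intro k
      have h1 := hμ.nonneg (k + c)
      have h2 := po_pos hα k
      positivity
    · apply jen_all (n0 := 1)
      intro n hn
      have h := pq_orz hα (n := n) (by omega) hc1 hc2 hμ hA
      have he : jen (fun k => (A + μ (k + c)) / po α k) 0 n =
          (pq α n (fun k => A + μ (k + c))).comp (C (-1) * X) := by
        ext k
        rw [coeff_jen, comp_C_mul_X_coeff, coeff_pq, zero_add]
        unfold lc
        have h1 : ((-1 : ℝ) ^ k) * (-1) ^ k = 1 := by rw [← mul_pow]; simp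
        have hp := (po_pos hα k).ne'
        field_simp
        linear_combination (-(n.choose k : ℝ) * (A + μ (k + c))) * h1
      rw [he]
      rcases h with h | h
      · left
        rw [h, zero_comp]
      · right
        intro z hz
        rw [aeval_comp] at hz
        have h2 := h _ hz
        rw [map_mul, aeval_C, aeval_X, Complex.coe_algebraMap, Complex.im_ofReal_mul] at h2
        linarith
  refine ms_of_tendsto (γ := fun M k => (A + 1 / ((M : ℝ) + 1) + μ (k + c)) / po α k)
    (fun M => key _ (by positivity)) ?_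
  intro k
  have h1 : Tendsto (fun M : ℕ => A + 1 / ((M : ℝ) + 1) + μ (k + c)) atTop
      (𝓝 (A + 0 + μ (k + c))) :=
    (tendsto_const_nhds.add tendsto_one_div_add_atTop_nhds_zero_nat).add_const _
  rw [add_zero] at h1
  exact h1.div_const _

/-! ### Closure properties -/

lemma BernPos.limit {μ : ℕ → ℕ → ℝ} {ν : ℕ → ℝ} (h : ∀ M, BernPos (μ M))
    (hlim : ∀ k, Tendsto (fun M => μ M k) atTop (𝓝 (ν k))) : BernPos ν := by
  intro n a ha
  have h1 : Tendsto (fun M => ∑ k ∈ Finset.range (n + 1), a k * μ M k) atTop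
      (𝓝 (∑ k ∈ Finset.range (n + 1), a k * ν k)) :=
    tendsto_finsetSum _ fun k _ => (hlim k).const_mul _
  exact ge_of_tendsto' h1 fun M => h M n a ha

lemma BernPos.smul {μ : ℕ → ℝ} (h : BernPos μ) {t : ℝ} (ht : 0 ≤ t) :
    BernPos (fun k => t * μ k) := by
  intro n a ha
  have h1 := mul_nonneg ht (h n a ha)
  rw [Finset.mul_sum] at h1
  refine h1.trans_eq (Finset.sum_congr rfl fun k _ => ?_)
  ring

/-- `μ(k+1) - μ(1)` -/
lemma BernPos.sub_one {μ : ℕ → ℝ} (h : BernPos μ) : BernPos (fun k => μ (k + 1) - μ 1) := by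
  intro n a ha
  set s : ℝ := ∑ k ∈ Finset.range (n + 1), a k with hs
  -- coefficients `a'` with `a'_{k+1} = a_k` and an extra `-s` at `1`
  have h1 := h.shift 1 n (fun k => a k - (if k = 0 then s else 0)) (by
    intro lam hlam
    have h2 := mul_nonneg hlam.1 (ha lam hlam)
    have h3 : ∑ k ∈ Finset.range (n + 1), (a k - (if k = 0 then s else 0)) * (1 - lam ^ (k + 1)) =
        lam * ∑ k ∈ Finset.range (n + 1), a k * (1 - lam ^ k) := by
      simp only [sub_mul, ite_mul, zero_mul]
      rw [Finset.sum_sub_distrib, Finset.sum_ite_eq' (Finset.range (n + 1)) 0,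
        if_pos (Finset.mem_range.2 (by omega)), hs, Finset.sum_mul, ← Finset.sum_sub_distrib,
        Finset.mul_sum]
      refine Finset.sum_congr rfl fun k _ => ?_
      ring
    rw [h3]
    exact h2)
  have h4 : ∑ k ∈ Finset.range (n + 1), (a k - (if k = 0 then s else 0)) * μ (k + 1) =
      ∑ k ∈ Finset.range (n + 1), a k * (μ (k + 1) - μ 1) := by
    simp only [sub_mul, ite_mul, zero_mul]
    rw [Finset.sum_sub_distrib, Finset.sum_ite_eq' (Finset.range (n + 1)) 0,
      if_pos (Finset.mem_range.2 (by omega)), hs, Finset.sum_mul, ← Finset.sum_sub_distrib]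
    refine Finset.sum_congr rfl fun k _ => ?_
    ring
  rw [h4] at h1
  exact h1

/-- `log(k+1)` -/
theorem bern_log : BernPos (fun k => Real.log ((k : ℝ) + 1)) := by
  refine BernPos.limit (μ := fun M k => (M + 2 : ℝ) * ((((k + 1 : ℕ) : ℝ)) ^ (1 / ((M : ℝ) + 2)) -
    (((1 : ℕ) : ℝ)) ^ (1 / ((M : ℝ) + 2)))) ?_ ?_
  · intro M
    apply BernPos.smul _ (by positivity)
    have h1 : 1 / ((M : ℝ) + 2) < 1 := by
      rw [div_lt_one (by positivity)]
      have : (0 : ℝ) ≤ M := by positivity
      linarith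
    exact (bern_rpow (s := 1 / ((M : ℝ) + 2)) (by positivity) h1).sub_one
  · intro k
    have hk : (0 : ℝ) < (k : ℝ) + 1 := by positivity
    -- derivative of `t ↦ (k+1)^t` at `0`
    have h1 : HasDerivAt (fun t : ℝ => ((k : ℝ) + 1) ^ t) (Real.log ((k : ℝ) + 1)) 0 := by
      have := (hasDerivAt_id (0 : ℝ)).const_rpow hk
      simpa using this
    have h2 := h1.tendsto_slope_zero
    have h3 : Tendsto (fun M : ℕ => 1 / ((M : ℝ) + 2)) atTop (𝓝[≠] 0) := by
      rw [tendsto_nhdsWithin_iff]
      constructor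
      · have := (tendsto_one_div_add_atTop_nhds_zero_nat (𝕜 := ℝ)).comp (tendsto_add_atTop_nat 1)
        refine this.congr fun M => ?_
        simp only [Function.comp]
        push_cast
        ring_nf
      · refine Eventually.of_forall fun M => ?_
        have : 1 / ((M : ℝ) + 2) ≠ 0 := by positivity
        exact this
    have h4 := h2.comp h3
    refine h4.congr fun M => ?_
    simp only [Function.comp, zero_add, smul_eq_mul, Real.rpow_zero]
    push_cast
    rw [one_div, inv_inv, Real.one_rpow]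

/-- `log(k+2)/k!` is a multiplier sequence. -/
theorem ms_log : IsMultiplierSequence (fun k => Real.log ((k : ℝ) + 2) / (k.factorial : ℝ)) := by
  have h := ms_bern2 (α := 0) (by norm_num) (c := 1) (by norm_num) (by norm_num) bern_log
    (A := 0) le_rfl
  convert h using 2 with k
  have h1 : po 0 k = k.factorial := by
    induction k with
    | zero => simp [po]
    | succ k ih =>
      rw [po_succ, ih, Nat.factorial_succ]
      push_cast
      ring
  rw [h1, zero_add]
  push_cast
  congr 2
  ring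

end Pool.Agent.Q163.LP
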