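import Pool.Agent.Q163.LP.Son

/-!
# `√k / k!` is a multiplier sequence
-/

open Filter Topology Set MeasureTheory Real
open Pool.Agent.Helper771.MultSeq

namespace Pool.Agent.Q163.LP

/-- `(e^y - 1)^{-1/2}` -/
noncomputable def ps (y : ℝ) : ℝ := (√(exp y - 1))⁻¹

lemma ps_nonneg (y : ℝ) : 0 ≤ ps y := by unfold ps; positivity

lemma expm1_pos {y : ℝ} (hy : 0 < y) : 0 < exp y - 1 := by
  have := add_one_lt_exp hy.ne'
  linarith

lemma ps_meas : Measurable ps := by unfold ps; fun_prop

lemma ps_int : IntegrableOn ps (Ioi 0) := by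
  have h1 : ∀ y ∈ Ioi (0 : ℝ), HasDerivAt (fun y => 2 * arctan (√(exp y - 1))) (ps y) y := by
    intro y hy
    have hy1 := expm1_pos hy
    have h2 : HasDerivAt (fun y => exp y - 1) (exp y) y := (Real.hasDerivAt_exp y).sub_const 1
    have h3 := (h2.sqrt hy1.ne').arctan.const_mul 2
    refine h3.congr_deriv ?_
    unfold ps
    have h4 : √(exp y - 1) ^ 2 = exp y - 1 := Real.sq_sqrt hy1.le
    have h5 : 0 < √(exp y - 1) := Real.sqrt_pos.2 hy1
    have h6 := exp_pos y
    rw [h4]
    field_simp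
    ring
  refine integrableOn_Ioi_deriv_of_nonneg (g := fun y => 2 * arctan (√(exp y - 1))) (g' := ps)
    (l := 2 * (π / 2)) ?_ h1 (fun y _ => ps_nonneg y) ?_
  · apply Continuous.continuousWithinAt
    fun_prop
  · apply Tendsto.const_mul
    refine (tendsto_arctan_atTop.mono_right nhdsWithin_le_nhds).comp ?_
    apply Real.tendsto_sqrt_atTop.comp
    exact tendsto_atTop_add_const_right _ _ tendsto_exp_atTop

lemma eps_int (k : ℕ) : IntegrableOn (fun y => exp (-(k * y)) * ps y) (Ioi 0) := by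
  refine Integrable.mono' ps_int (by
    have := ps_meas
    exact (by fun_prop : Measurable fun y : ℝ => exp (-(k * y)) * ps y).aestronglyMeasurable) ?_
  rw [ae_restrict_iff' measurableSet_Ioi]
  refine Eventually.of_forall fun y hy => ?_
  have hy0 : (0 : ℝ) < y := hy
  rw [norm_mul, norm_of_nonneg (exp_pos _).le, norm_of_nonneg (ps_nonneg y)]
  apply mul_le_of_le_one_left (ps_nonneg y)
  apply exp_le_one_iff.2
  have : (0 : ℝ) ≤ k * y := by positivity
  linarith

/-- the moments -/
noncomputable def Wk (k : ℕ) : ℝ := ∫ y in Ioi (0 : ℝ), exp (-(k * y)) * ps y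

lemma Wk_zero_pos : 0 < Wk 0 := by
  unfold Wk
  rw [setIntegral_pos_iff_support_of_nonneg_ae _ (eps_int 0)]
  · have : Ioi 0 ⊆ Function.support (fun y : ℝ => exp (-(((0 : ℕ) : ℝ) * y)) * ps y) ∩ Ioi 0 := by
      intro t ht
      refine ⟨?_, ht⟩
      rw [Function.mem_support]
      have h1 : 0 < ps t := by
        unfold ps
        exact inv_pos.2 (Real.sqrt_pos.2 (expm1_pos ht))
      positivity
    refine lt_of_lt_of_le ?_ (measure_mono this)
    rw [volume_Ioi]
    exact ENNReal.zero_lt_top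
  · exact Eventually.of_forall fun y => mul_nonneg (exp_pos _).le (ps_nonneg y)

lemma Wk_succ (k : ℕ) : ((k : ℝ) + 1) * Wk (k + 1) = ((k : ℝ) + 1 / 2) * Wk k := by
  have h1 : ∀ y ∈ Ioi (0 : ℝ), HasDerivAt (fun y => exp (-(((k : ℝ) + 1) * y)) * √(exp y - 1))
      (((k : ℝ) + 1) * (exp (-(((k + 1 : ℕ) : ℝ) * y)) * ps y) -
        ((k : ℝ) + 1 / 2) * (exp (-((k : ℝ) * y)) * ps y)) y := by
    intro y hy
    have hy1 := expm1_pos hy
    have h2 : HasDerivAt (fun y => exp y - 1) (exp y) y := (Real.hasDerivAt_exp y).sub_const 1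
    have h3 : HasDerivAt (fun y : ℝ => exp (-(((k : ℝ) + 1) * y)))
        (exp (-(((k : ℝ) + 1) * y)) * (-(((k : ℝ) + 1) * 1))) y :=
      (((hasDerivAt_id y).const_mul ((k : ℝ) + 1)).neg).exp
    refine (h3.mul (h2.sqrt hy1.ne')).congr_deriv ?_
    unfold ps
    have h4 : √(exp y - 1) * √(exp y - 1) = exp y - 1 := Real.mul_self_sqrt hy1.le
    have h5 : 0 < √(exp y - 1) := Real.sqrt_pos.2 hy1
    have h7 : exp (-((k : ℝ) * y)) = exp (-(((k : ℝ) + 1) * y)) * exp y := by
      rw [← exp_add]; ring_nf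
    push_cast
    rw [h7]
    field_simp
    linear_combination (-((k : ℝ) + 1) * 2) * h4
  have h2 := integral_Ioi_of_hasDerivAt_of_tendsto (m := 0)
    (a := 0) (f := fun y => exp (-(((k : ℝ) + 1) * y)) * √(exp y - 1)) ?_ h1 ?_ ?_
  · rw [integral_sub ((eps_int (k + 1)).const_mul _) ((eps_int k).const_mul _), integral_const_mul,
      integral_const_mul] at h2
    simp only [mul_zero, neg_zero, exp_zero, sub_self, Real.sqrt_zero] at h2
    unfold Wk
    linarith
  · apply Continuous.continuousWithinAt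
    fun_prop
  · exact ((eps_int (k + 1)).const_mul _).sub ((eps_int k).const_mul _)
  · have h3 : Tendsto (fun y : ℝ => exp (-(y / 2))) atTop (𝓝 0) := by
      apply tendsto_exp_neg_atTop_nhds_zero.comp
      exact tendsto_id.atTop_div_const (by norm_num)
    refine squeeze_zero' ?_ ?_ h3
    · exact Eventually.of_forall fun y => by positivity
    · filter_upwards [eventually_gt_atTop 0] with y hy
      have h4 : √(exp y - 1) ≤ exp (y / 2) := by
        rw [Real.sqrt_le_left (exp_pos _).le, ← exp_nat_mul]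
        push_cast
        have : (2 : ℝ) * (y / 2) = y := by ring
        rw [this]
        linarith
      have h5 : exp (-(((k : ℝ) + 1) * y)) ≤ exp (-y) := by
        apply exp_le_exp.2
        have : 0 ≤ (k : ℝ) * y := by positivity
        linarith
      calc exp (-(((k : ℝ) + 1) * y)) * √(exp y - 1) ≤ exp (-y) * exp (y / 2) := by
            apply mul_le_mul h5 h4 (Real.sqrt_nonneg _) (exp_pos _).le
        _ = exp (-(y / 2)) := by rw [← exp_add]; ring_nf

lemma Wk_eq (k : ℕ) : Wk k = Wk 0 * (po (-(1 / 2)) k / (k.factorial : ℝ)) := by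
  induction k with
  | zero => simp [po]
  | succ k ih =>
    have h1 := Wk_succ k
    have hk : (0 : ℝ) < (k : ℝ) + 1 := by positivity
    have h2 : Wk (k + 1) = ((k : ℝ) + 1 / 2) * Wk k / ((k : ℝ) + 1) := by
      field_simp
      linarith
    rw [h2, ih, po_succ, Nat.factorial_succ]
    push_cast
    field_simp
    ring

/-! ### the integrand -/

/-- the kernel -/
noncomputable def Kk (k : ℕ) (t r : ℝ) : ℝ := exp (-(k * (t * (1 + r)))) * (√t * ps (t * r))

lemma Kk_nonneg (k : ℕ) (t r : ℝ) : 0 ≤ Kk k t r := by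
  have := ps_nonneg (t * r)
  unfold Kk
  positivity

lemma Kk_meas (k : ℕ) : Measurable (Function.uncurry (Kk k)) := by
  unfold Kk Function.uncurry
  have := ps_meas
  fun_prop

lemma Kk_inner {k : ℕ} {t : ℝ} (ht : 0 < t) : IntegrableOn (fun r => Kk k t r) (Ioi 0) ∧
    ∫ r in Ioi 0, Kk k t r = t ^ ((1 / 2 : ℝ) - 1) * exp (-(k * t)) * Wk k := by
  have h0 : ∀ r, Kk k t r = (exp (-(k * t)) * √t) * (exp (-(k * (t * r))) * ps (t * r)) := by
    intro r
    unfold Kk
    have : exp (-(k * (t * (1 + r)))) = exp (-(k * t)) * exp (-(k * (t * r))) := by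
      rw [← exp_add]; ring_nf
    rw [this]
    ring
  have h1 : IntegrableOn (fun r => exp (-(k * (t * r))) * ps (t * r)) (Ioi 0) := by
    have := (integrableOn_Ioi_comp_mul_left_iff (fun y => exp (-(k * y)) * ps y) 0 ht).2 (by
      rw [mul_zero]; exact eps_int k)
    exact this
  constructor
  · simp_rw [h0]
    exact h1.const_mul _
  · simp_rw [h0]
    rw [integral_const_mul]
    have h2 := integral_comp_mul_left_Ioi (fun y => exp (-(k * y)) * ps y) 0 ht
    simp only [mul_zero, smul_eq_mul] at h2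
    rw [h2]
    unfold Wk
    have h3 : √t * t⁻¹ = t ^ ((1 / 2 : ℝ) - 1) := by
      rw [Real.sqrt_eq_rpow, rpow_sub_one ht.ne']
      rfl
    rw [← h3]
    ring

lemma gam_int {k : ℕ} (hk : 0 < k) : IntegrableOn (fun t : ℝ => t ^ ((1 / 2 : ℝ) - 1) *
    exp (-(k * t))) (Ioi 0) ∧ ∫ t in Ioi 0, t ^ ((1 / 2 : ℝ) - 1) * exp (-(k * t)) =
      (1 / (k : ℝ)) ^ (1 / 2 : ℝ) * Gamma (1 / 2) := by
  have hk0 : (0 : ℝ) < k := by exact_mod_cast hk
  have h1 := Real.integral_rpow_mul_exp_neg_mul_Ioi (a := 1 / 2) (r := k) (by norm_num) hk0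
  refine ⟨?_, h1⟩
  by_contra hcon
  have h3 : ∫ t in Ioi (0 : ℝ), t ^ ((1 / 2 : ℝ) - 1) * exp (-(k * t)) = 0 := integral_undef hcon
  rw [h1] at h3
  have h4 : 0 < Gamma (1 / 2 : ℝ) := Gamma_pos_of_pos (by norm_num)
  have : 0 < (1 / (k : ℝ)) ^ (1 / 2 : ℝ) * Gamma (1 / 2) := by positivity
  linarith

lemma Kk_prod {k : ℕ} (hk : 0 < k) : Integrable (Function.uncurry (Kk k))
    ((volume.restrict (Ioi 0)).prod (volume.restrict (Ioi 0))) := by
  rw [integrable_prod_iff (Kk_meas k).aestronglyMeasurable]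
  constructor
  · rw [ae_restrict_iff' measurableSet_Ioi]
    exact Eventually.of_forall fun t ht => (Kk_inner ht).1
  · refine ((gam_int hk).1.mul_const (Wk k)).congr ?_
    rw [EventuallyEq, ae_restrict_iff' measurableSet_Ioi]
    refine Eventually.of_forall fun t ht => ?_
    have h1 := (Kk_inner (k := k) ht).2
    rw [← h1]
    apply integral_congr_ae
    refine Eventually.of_forall fun r => ?_
    simp only [Function.uncurry]
    rw [norm_of_nonneg (Kk_nonneg k t r)]

lemma Kk_val {k : ℕ} (hk : 0 < k) : ∫ r in Ioi 0, ∫ t in Ioi 0, Kk k t r =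
    (1 / (k : ℝ)) ^ (1 / 2 : ℝ) * Gamma (1 / 2) * Wk k := by
  have h1 := integral_integral_swap (Kk_prod hk)
  rw [← h1, ← (gam_int hk).2, ← integral_mul_const]
  apply setIntegral_congr_fun measurableSet_Ioi
  intro t ht
  exact (Kk_inner ht).2

/-! ### positivity on each ray -/

/-- `√(t/(e^{rt}-1))` -/
noncomputable def ph (r t : ℝ) : ℝ := √t * ps (t * r)

lemma ph_eq {r t : ℝ} (hr : 0 < r) (ht : 0 < t) : ph r t = √(t / (exp (t * r) - 1)) := by
  unfold ph ps
  rw [Real.sqrt_div ht.le]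
  rfl

lemma ph_nonneg (r t : ℝ) : 0 ≤ ph r t := mul_nonneg (Real.sqrt_nonneg _) (ps_nonneg _)

lemma ph_le {r t : ℝ} (hr : 0 < r) (ht : 0 < t) : ph r t ≤ √(1 / r) := by
  rw [ph_eq hr ht]
  apply Real.sqrt_le_sqrt
  have h1 := expm1_pos (mul_pos ht hr)
  have h2 := add_one_le_exp (t * r)
  rw [div_le_div_iff₀ h1 hr]
  linarith

lemma ph_deriv {r t : ℝ} (hr : 0 < r) (ht : 0 < t) : ∃ d ≤ 0, HasDerivAt (ph r) d t := by
  have h1 := expm1_pos (mul_pos ht hr)
  have h2 : HasDerivAt (fun t : ℝ => exp (t * r) - 1) (exp (t * r) * (1 * r)) t :=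
    (((hasDerivAt_id t).mul_const r).exp).sub_const 1
  have h3 := (hasDerivAt_id t).div h2 h1.ne'
  have h4 : 0 < t / (exp (t * r) - 1) := by positivity
  have h5 := h3.sqrt (by simpa using h4.ne')
  refine ⟨_, ?_, h5.congr_of_eventuallyEq ?_⟩
  · apply div_nonpos_of_nonpos_of_nonneg
    · apply div_nonpos_of_nonpos_of_nonneg
      · simp only [id, one_mul]
        -- `e^u - 1 ≤ u e^u`
        have h6 := add_one_le_exp (-(t * r))
        have h7 : exp (-(t * r)) * exp (t * r) = 1 := by rw [← exp_add]; simp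
        have h8 := exp_pos (t * r)
        nlinarith
      · positivity
    · positivity
  · filter_upwards [lt_mem_nhds ht] with u hu
    exact ph_eq hr hu

lemma ph_meas (r : ℝ) : Measurable (ph r) := by
  unfold ph
  have := ps_meas
  fun_prop

lemma ray_pos {r : ℝ} (hr : 0 < r) {n : ℕ} {a : ℕ → ℝ}
    (ha : ∀ lam ∈ Icc (0 : ℝ) 1, 0 ≤ ∑ k ∈ Finset.range (n + 1), a k * (1 - lam ^ k))
    (hint : IntegrableOn (fun t => (∑ k ∈ Finset.range (n + 1),
      a k * (k * exp (-(k * (t * (1 + r)))))) * ph r t) (Ioi 0)) :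
    0 ≤ ∫ t in Ioi 0, (∑ k ∈ Finset.range (n + 1), a k * (k * exp (-(k * (t * (1 + r)))))) *
      ph r t := by
  set q : ℝ → ℝ := fun t => ∑ k ∈ Finset.range (n + 1), a k * (k * exp (-(k * (t * (1 + r)))))
    with hq
  set G : ℝ → ℝ := fun t => ∑ k ∈ Finset.range (n + 1), a k * (1 - exp (-(k * (t * (1 + r)))))
    with hG
  have hqc : Continuous q := by rw [hq]; fun_prop
  have hGc : Continuous G := by rw [hG]; fun_prop
  have hG0 : G 0 = 0 := by rw [hG]; simp
  have hGnn : ∀ t, 0 ≤ t → 0 ≤ G t := by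
    intro t ht
    have h1 := ha (exp (-(t * (1 + r)))) ⟨(exp_pos _).le, exp_le_one_iff.2 (by
      have : 0 ≤ t * (1 + r) := by positivity
      linarith)⟩
    rw [hG]
    refine h1.trans_eq (Finset.sum_congr rfl fun k _ => ?_)
    rw [← exp_nat_mul]
    congr 3
    ring
  have hGd : ∀ t, HasDerivAt G ((1 + r) * q t) t := by
    intro t
    rw [hG, hq]
    simp only
    rw [Finset.mul_sum]
    apply HasDerivAt.fun_sum
    intro k _
    have h1 : HasDerivAt (fun t : ℝ => exp (-(k * (t * (1 + r)))))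
        (exp (-(k * (t * (1 + r)))) * (-(k * (1 * (1 + r))))) t :=
      ((((hasDerivAt_id t).mul_const (1 + r)).const_mul (k : ℝ)).neg).exp
    refine ((h1.const_sub 1).const_mul (a k)).congr_deriv ?_
    ring
  have hii : ∀ T, 0 ≤ T → IntervalIntegrable (fun t => q t * ph r t) volume 0 T := by
    intro T hT
    rw [intervalIntegrable_iff_integrableOn_Ioc_of_le hT]
    exact hint.mono_set Ioc_subset_Ioi_self
  set F : ℝ → ℝ := fun T => ∫ t in (0 : ℝ)..T, q t * ph r t with hF
  have hphc : ∀ t, 0 < t → ContinuousAt (ph r) t := by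
    intro t ht
    obtain ⟨d, _, hd⟩ := ph_deriv hr ht
    exact hd.continuousAt
  have hFd : ∀ T, 0 < T → HasDerivAt F (q T * ph r T) T := by
    intro T hT
    apply intervalIntegral.integral_hasDerivAt_right (hii T hT.le)
    · exact ((hqc.measurable.mul (ph_meas r)).stronglyMeasurable).stronglyMeasurableAtFilter
    · exact hqc.continuousAt.mul (hphc T hT)
  set R : ℝ → ℝ := fun T => F T - (1 / (1 + r)) * (G T * ph r T) with hR
  have h1r : (0 : ℝ) < 1 + r := by linarith
  have hRd : ∀ T, 0 < T → ∃ e, 0 ≤ e ∧ HasDerivAt R e T := by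
    intro T hT
    obtain ⟨d, hd0, hd⟩ := ph_deriv hr hT
    have h2 := (hFd T hT).sub (((hGd T).mul hd).const_mul (1 / (1 + r)))
    refine ⟨-(1 / (1 + r)) * (G T * d), ?_, h2.congr_deriv ?_⟩
    · have h3 := mul_nonneg (hGnn T hT.le) (neg_nonneg.2 hd0)
      have h4 : 0 ≤ 1 / (1 + r) := by positivity
      have h5 := mul_nonneg h4 h3
      linarith
    · field_simp
      ring
  have hmono : MonotoneOn R (Ioi 0) := by
    apply monotoneOn_of_deriv_nonneg (convex_Ioi _)
    · intro T hT
      obtain ⟨e, _, he⟩ := hRd T hT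
      exact he.continuousAt.continuousWithinAt
    · intro T hT
      obtain ⟨e, _, he⟩ := hRd T (interior_subset hT)
      exact he.differentiableAt.differentiableWithinAt
    · intro T hT
      obtain ⟨e, he0, he⟩ := hRd T (interior_subset hT)
      rw [he.deriv]
      exact he0
  -- the limit at `0`
  have hF0 : Tendsto F (𝓝[>] 0) (𝓝 0) := by
    have h2 : ContinuousOn F (Icc 0 1) := by
      have := intervalIntegral.continuousOn_primitive_interval' (a := (0 : ℝ)) (b₁ := 0) (b₂ := 1)
        (f := fun t => q t * ph r t) (μ := volume) (hii 1 zero_le_one) left_mem_uIcc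
      rwa [uIcc_of_le zero_le_one] at this
    have h3 := h2 0 ⟨le_rfl, zero_le_one⟩
    have h4 : F 0 = 0 := intervalIntegral.integral_same
    rw [ContinuousWithinAt, h4] at h3
    refine h3.mono_left ?_
    rw [← nhdsWithin_Ioc_eq_nhdsGT (zero_lt_one' ℝ)]
    exact nhdsWithin_mono _ Ioc_subset_Icc_self
  have hGph : Tendsto (fun T => G T * ph r T) (𝓝[>] 0) (𝓝 0) := by
    have h2 : Tendsto (fun T => G T * √(1 / r)) (𝓝[>] 0) (𝓝 0) := by
      have h3 := (hGc.tendsto 0).mul_const (√(1 / r))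
      rw [hG0, zero_mul] at h3
      exact h3.mono_left nhdsWithin_le_nhds
    refine squeeze_zero' ?_ ?_ h2
    · filter_upwards [self_mem_nhdsWithin] with T hT
      exact mul_nonneg (hGnn T (le_of_lt hT)) (ph_nonneg _ _)
    · filter_upwards [self_mem_nhdsWithin] with T hT
      exact mul_le_mul_of_nonneg_left (ph_le hr hT) (hGnn T (le_of_lt hT))
  have hR0 : Tendsto R (𝓝[>] 0) (𝓝 0) := by
    have := hF0.sub (hGph.const_mul (1 / (1 + r)))
    rw [mul_zero, sub_zero] at this
    exact this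
  have hRnn : ∀ T, 0 < T → 0 ≤ R T := by
    intro T hT
    refine le_of_tendsto hR0 ?_
    filter_upwards [Ioo_mem_nhdsGT hT] with v hv
    exact hmono hv.1 hT hv.2.le
  have hFnn : ∀ T, 0 < T → 0 ≤ F T := by
    intro T hT
    have h2 := hRnn T hT
    have h3 := mul_nonneg (hGnn T hT.le) (ph_nonneg r T)
    have h4 : 0 ≤ 1 / (1 + r) := by positivity
    have h5 := mul_nonneg h4 h3
    rw [hR] at h2
    simp only at h2
    linarith
  have hlim : Tendsto F atTop (𝓝 (∫ t in Ioi 0, q t * ph r t)) :=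
    intervalIntegral_tendsto_integral_Ioi 0 hint tendsto_id
  refine ge_of_tendsto hlim ?_
  filter_upwards [eventually_gt_atTop 0] with T hT
  exact hFnn T hT

/-! ### assembling -/

theorem bern_sqrt : BernPos (fun k => √(k : ℝ) * (po (-(1 / 2)) k / (k.factorial : ℝ))) := by
  intro n a ha
  set Cc : ℝ := Gamma (1 / 2) * Wk 0 with hCc
  have hCpos : 0 < Cc := mul_pos (Gamma_pos_of_pos (by norm_num)) Wk_zero_pos
  have hterm : ∀ k : ℕ, √(k : ℝ) * (po (-(1 / 2)) k / (k.factorial : ℝ)) * Cc =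
      (k : ℝ) * ∫ r in Ioi 0, ∫ t in Ioi 0, Kk k t r := by
    intro k
    rcases Nat.eq_zero_or_pos k with h | h
    · subst h
      simp
    · have hk : (0 : ℝ) < k := by exact_mod_cast h
      have e1 : (1 / (k : ℝ)) ^ (1 / 2 : ℝ) = (√(k : ℝ))⁻¹ := by
        rw [one_div (k : ℝ), inv_rpow hk.le, Real.sqrt_eq_rpow]
      rw [Kk_val h, Wk_eq k, hCc, e1]
      have h1 : √(k : ℝ) * √(k : ℝ) = k := Real.mul_self_sqrt hk.le
      have h2 : 0 < √(k : ℝ) := Real.sqrt_pos.2 hk
      have h3 : (k : ℝ) * (√(k : ℝ))⁻¹ = √(k : ℝ) := by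
        field_simp
        linarith
      linear_combination (-(Gamma (1 / 2) * (Wk 0 * (po (-(1 / 2)) k / (k.factorial : ℝ))))) * h3
  have hKint : ∀ k : ℕ, 0 < k → IntegrableOn (fun r => ∫ t in Ioi 0, Kk k t r) (Ioi 0) :=
    fun k hk => (Kk_prod hk).integral_prod_right
  have hae : ∀ k : ℕ, 0 < k → ∀ᵐ r ∂(volume.restrict (Ioi (0 : ℝ))),
      IntegrableOn (fun t => Kk k t r) (Ioi 0) := fun k hk => (Kk_prod hk).prod_left_ae
  have h1 : (∑ k ∈ Finset.range (n + 1), a k *
      (√(k : ℝ) * (po (-(1 / 2)) k / (k.factorial : ℝ)))) * Cc =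
      ∫ r in Ioi 0, ∑ k ∈ Finset.range (n + 1), a k * ((k : ℝ) * ∫ t in Ioi 0, Kk k t r) := by
    rw [integral_finsetSum]
    · rw [Finset.sum_mul]
      refine Finset.sum_congr rfl fun k _ => ?_
      rw [integral_const_mul, integral_const_mul, ← hterm k]
      ring
    · intro k _
      rcases Nat.eq_zero_or_pos k with h | h
      · subst h
        simp
      · exact ((hKint k h).const_mul _).const_mul _
  have h2 : 0 ≤ (∑ k ∈ Finset.range (n + 1), a k *
      (√(k : ℝ) * (po (-(1 / 2)) k / (k.factorial : ℝ)))) * Cc := by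
    rw [h1]
    apply setIntegral_nonneg_of_ae_restrict
    have hall : ∀ᵐ r ∂(volume.restrict (Ioi (0 : ℝ))), ∀ k : ℕ, 0 < k →
        IntegrableOn (fun t => Kk k t r) (Ioi 0) := by
      rw [ae_all_iff]
      intro k
      by_cases h : 0 < k
      · filter_upwards [hae k h] with r hr _
        exact hr
      · exact Eventually.of_forall fun r hr => absurd hr h
    filter_upwards [hall, ae_restrict_mem measurableSet_Ioi] with r hr hr0
    have hterm2 : ∀ k ∈ Finset.range (n + 1), IntegrableOn (fun t => a k *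
        ((k : ℝ) * Kk k t r)) (Ioi 0) := by
      intro k _
      rcases Nat.eq_zero_or_pos k with h | h
      · subst h
        simp
      · exact ((hr k h).const_mul _).const_mul _
    have hfun : (fun t => (∑ k ∈ Finset.range (n + 1),
        a k * (k * exp (-(k * (t * (1 + r)))))) * ph r t) =
        fun t => ∑ k ∈ Finset.range (n + 1), a k * ((k : ℝ) * Kk k t r) := by
      funext t
      rw [Finset.sum_mul]
      refine Finset.sum_congr rfl fun k _ => ?_
      unfold Kk ph
      ring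
    have h3 := ray_pos hr0 ha (by
      rw [hfun]
      exact integrable_finsetSum _ hterm2)
    rw [hfun, integral_finsetSum _ hterm2] at h3
    refine h3.trans_eq (Finset.sum_congr rfl fun k _ => ?_)
    rw [integral_const_mul, integral_const_mul]
  by_contra hcon
  have := mul_neg_of_neg_of_pos (not_le.1 hcon) hCpos
  linarith

/-- `√k/k!` is a multiplier sequence. -/
theorem ms_sqrt : IsMultiplierSequence (fun k => √(k : ℝ) / (k.factorial : ℝ)) := by
  have h := ms_bern2 (α := -(1 / 2)) (by norm_num) (c := 0) (by norm_num) (by norm_num) bern_sqrt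
    (A := 0) le_rfl
  convert h using 2 with k
  have h1 := po_pos (α := -(1 / 2)) (by norm_num) k
  rw [zero_add, add_zero]
  field_simp

end Pool.Agent.Q163.LP
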