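import Pool.Agent.Helper771.MultSeq

/-!
# Real-rooted polynomials: limits, `1/k!`, and the theorem of Polya and Schur
-/

open Polynomial Filter Topology
open Pool.Agent.Helper771.MultSeq

namespace Pool.Agent.Q163.LP

lemma norm_prod_mono (x y y' : ℝ) (h : |y'| ≤ |y|) (s : Multiset ℝ) :
    ‖aeval ((x : ℂ) + y' * Complex.I) (s.map fun r => (X - C r : ℝ[X])).prod‖ ≤
      ‖aeval ((x : ℂ) + y * Complex.I) (s.map fun r => (X - C r : ℝ[X])).prod‖ := by
  induction s using Multiset.induction_on with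
  | empty => simp
  | cons r s ih =>
    rw [Multiset.map_cons, Multiset.prod_cons, map_mul, map_mul, norm_mul, norm_mul]
    apply mul_le_mul _ ih (norm_nonneg _) (norm_nonneg _)
    rw [map_sub, map_sub, aeval_X, aeval_X, aeval_C, aeval_C]
    have hn : ∀ t : ℝ, ‖(x : ℂ) + t * Complex.I - (algebraMap ℝ ℂ) r‖ = √((x - r) ^ 2 + t ^ 2) := by
      intro t
      rw [Complex.norm_def, Complex.normSq_apply]
      congr 1
      simp
      ring
    rw [hn, hn]
    apply Real.sqrt_le_sqrt
    have := sq_le_sq' (by linarith [neg_abs_le y, abs_nonneg y']) h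
    rw [sq_abs, sq_abs] at this
    linarith

lemma norm_mono_of_orz {p : ℝ[X]} (hp : OnlyRealZeros p) (x y y' : ℝ) (h : |y'| ≤ |y|) :
    ‖aeval ((x : ℂ) + y' * Complex.I) p‖ ≤ ‖aeval ((x : ℂ) + y * Complex.I) p‖ := by
  by_cases hp0 : p = 0
  · rw [hp0]; simp
  · obtain ⟨s, _, hprod, _⟩ := orz_roots hp0 hp
    rw [hprod, map_mul, map_mul, norm_mul, norm_mul, aeval_C, aeval_C]
    exact mul_le_mul_of_nonneg_left (norm_prod_mono x y y' h s) (norm_nonneg _)

lemma orz_of_norm_mono {p : ℝ[X]} (h : ∀ x y y' : ℝ, |y'| ≤ |y| →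
    ‖aeval ((x : ℂ) + y' * Complex.I) p‖ ≤ ‖aeval ((x : ℂ) + y * Complex.I) p‖) :
    OnlyRealZeros p := by
  by_contra hcon
  unfold OnlyRealZeros at hcon
  push Not at hcon
  obtain ⟨hp0, z, hz, him⟩ := hcon
  set P : ℂ[X] := p.map (algebraMap ℝ ℂ) with hP
  have hP0 : P ≠ 0 := (Polynomial.map_ne_zero_iff (algebraMap ℝ ℂ).injective).2 hp0
  apply hP0
  apply Polynomial.eq_zero_of_infinite_isRoot
  have hinf : ((fun t : ℝ => (z.re : ℂ) + t * Complex.I) '' Set.Icc 0 |z.im|).Infinite := by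
    apply Set.Infinite.image
    · intro a _ b _ hab
      have := congrArg Complex.im hab
      simpa using this
    · exact Set.Icc_infinite (abs_pos.2 him)
  refine hinf.mono ?_
  rintro _ ⟨t, ht, rfl⟩
  have h1 := h z.re z.im t (by rw [abs_of_nonneg ht.1]; exact ht.2)
  rw [Complex.re_add_im, hz, norm_zero] at h1
  have h2 : aeval ((z.re : ℂ) + t * Complex.I) p = 0 := norm_le_zero_iff.1 h1
  show P.IsRoot _
  rw [IsRoot.def, hP, eval_map_algebraMap]
  exact h2

/-- Limits of real-rooted polynomials of bounded degree are real-rooted. -/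
theorem orz_of_tendsto {p : ℕ → ℝ[X]} {q : ℝ[X]} {N : ℕ} (hdeg : ∀ n, (p n).natDegree ≤ N)
    (hdeg' : q.natDegree ≤ N) (hp : ∀ n, OnlyRealZeros (p n))
    (hlim : ∀ k, Tendsto (fun n => (p n).coeff k) atTop (𝓝 (q.coeff k))) : OnlyRealZeros q := by
  have hev : ∀ z : ℂ, Tendsto (fun n => aeval z (p n)) atTop (𝓝 (aeval z q)) := by
    intro z
    have h1 : ∀ r : ℝ[X], r.natDegree ≤ N →
        aeval z r = ∑ k ∈ Finset.range (N + 1), (r.coeff k : ℂ) * z ^ k := by
      intro r hr
      rw [aeval_def, eval₂_eq_sum_range' _ (Nat.lt_succ_of_le hr)]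
      rfl
    rw [h1 q hdeg']
    simp_rw [fun n => h1 (p n) (hdeg n)]
    apply tendsto_finsetSum
    intro k _
    exact (((Complex.continuous_ofReal.tendsto _).comp (hlim k))).mul_const _
  apply orz_of_norm_mono
  intro x y y' h
  exact le_of_tendsto_of_tendsto' (hev _).norm (hev _).norm
    (fun n => norm_mono_of_orz (hp n) x y y' h)

lemma act_natDegree (γ : ℕ → ℝ) (p : ℝ[X]) : (act γ p).natDegree ≤ p.natDegree := by
  rw [natDegree_le_iff_coeff_eq_zero]
  intro k hk
  rw [act_eq, coeff_eq_zero_of_natDegree_lt hk, mul_zero]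

theorem ms_of_tendsto {γ : ℕ → ℕ → ℝ} {δ : ℕ → ℝ} (h : ∀ M, IsMultiplierSequence (γ M))
    (hlim : ∀ k, Tendsto (fun M => γ M k) atTop (𝓝 (δ k))) : IsMultiplierSequence δ := by
  intro p hp
  refine orz_of_tendsto (fun M => act_natDegree (γ M) p) (act_natDegree δ p) (fun M => h M p hp) ?_
  intro k
  rw [act_eq]
  simp_rw [act_eq]
  exact (hlim k).mul_const _

lemma ms_prod (M : ℕ) (γ : ℕ → ℕ → ℝ) (h : ∀ i, IsMultiplierSequence (γ i)) :
    IsMultiplierSequence (fun k => ∏ i ∈ Finset.range M, γ i k) := by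
  induction M with
  | zero => simpa using ms_const 1
  | succ M ih =>
    simp_rw [Finset.prod_range_succ]
    exact ms_mul ih (h M)

lemma fact_add (M k : ℕ) :
    ((M + k).factorial : ℝ) = M.factorial * ∏ j ∈ Finset.range k, ((M : ℝ) + 1 + j) := by
  induction k with
  | zero => simp
  | succ k ih =>
    rw [Finset.prod_range_succ, ← mul_assoc, ← ih, show M + (k + 1) = (M + k) + 1 by ring,
      Nat.factorial_succ]
    push_cast
    ring

/-- `1/k!` is a multiplier sequence. -/
theorem ms_invfact : IsMultiplierSequence (fun k => 1 / (k.factorial : ℝ)) := by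
  refine ms_of_tendsto (γ := fun M k =>
    (1 / (M.factorial : ℝ) * (1 / (M + 1 : ℝ)) ^ k) * ∏ i ∈ Finset.range M, ((i + 1 : ℝ) + 1 * k))
    ?_ ?_
  · intro M
    apply ms_mul
    · exact ms_geom _ (by positivity)
    · exact ms_prod M (fun i k => (i + 1 : ℝ) + 1 * k) (fun i => ms_lin (by positivity) zero_le_one)
  · intro k
    -- the product is `(M + k)! / k!`
    have h1 : ∀ M : ℕ, ∏ i ∈ Finset.range M, ((i + 1 : ℝ) + 1 * k) =
        ((M + k).factorial : ℝ) / k.factorial := by
      intro M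
      induction M with
      | zero =>
        rw [Finset.prod_range_zero, zero_add, div_self]
        exact_mod_cast k.factorial_ne_zero
      | succ M ih =>
        rw [Finset.prod_range_succ, ih, show M + 1 + k = (M + k) + 1 by ring, Nat.factorial_succ]
        push_cast
        ring
    have h2 : ∀ M : ℕ, (1 / (M.factorial : ℝ) * (1 / (M + 1 : ℝ)) ^ k) *
        ∏ i ∈ Finset.range M, ((i + 1 : ℝ) + 1 * k) =
        (∏ j ∈ Finset.range k, (((M : ℝ) + 1 + j) / (M + 1))) * (1 / k.factorial) := by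
      intro M
      rw [h1, fact_add M k, Finset.prod_div_distrib, Finset.prod_const, Finset.card_range, one_div_pow]
      have : (M.factorial : ℝ) ≠ 0 := by exact_mod_cast M.factorial_ne_zero
      field_simp
    simp_rw [h2]
    have h4 : Tendsto (fun M : ℕ => ∏ j ∈ Finset.range k, (((M : ℝ) + 1 + j) / (M + 1))) atTop
        (𝓝 (∏ j ∈ Finset.range k, (1 : ℝ))) := by
      apply tendsto_finsetProd
      intro j _
      have h5 : Tendsto (fun M : ℕ => 1 + (j : ℝ) * (1 / ((M : ℝ) + 1))) atTop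
          (𝓝 (1 + (j : ℝ) * 0)) :=
        tendsto_const_nhds.add (tendsto_one_div_add_atTop_nhds_zero_nat.const_mul _)
      rw [mul_zero, add_zero] at h5
      refine h5.congr fun M => ?_
      have : (M : ℝ) + 1 ≠ 0 := by positivity
      field_simp
    rw [Finset.prod_const_one] at h4
    have h6 := h4.mul_const (1 / (k.factorial : ℝ))
    rwa [one_mul] at h6

end Pool.Agent.Q163.LP
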